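import Pool.Agent.U868.YM.Sta

/-!
# The infinite volume state and its spectral gap
-/

set_option autoImplicit false
set_option linter.unusedSectionVars false

noncomputable section

open MeasureTheory Filter Topology

namespace Pool.Agent.U868.YM

variable {d : ℕ}

section real

lemma pow_two_pow_le {x K : ℝ} (h : ∀ n : ℕ, x ^ (2 ^ n) ≤ K) : x ≤ 1 := by
  by_contra hlt
  push Not at hlt
  obtain ⟨n, hn⟩ := pow_unbounded_of_one_lt K hlt
  have h1 : x ^ n ≤ x ^ (2 ^ n) := pow_le_pow_right₀ hlt.le Nat.lt_two_pow_self.le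
  linarith [h n]

/-- Log-convexity and exponential decay give decay with the constant one. -/
lemma seq_gap {c : ℕ → ℝ} {m K : ℝ} (hcs : ∀ a b : ℕ, c (a + b) ^ 2 ≤ c (2 * a) * c (2 * b))
    (h0 : ∀ a : ℕ, 0 ≤ c (2 * a)) (hK : ∀ t : ℕ, |c t| ≤ K * Real.exp (-(m * t))) (t : ℕ) :
    |c t| ≤ Real.exp (-(m * t)) * c 0 := by
  have hc0 : 0 ≤ c 0 := h0 0
  -- even times
  have heven : ∀ s : ℕ, c (2 * s) ≤ Real.exp (-(m * (2 * s : ℕ))) * c 0 := by
    intro s
    rcases hc0.eq_or_lt with hz | hpos
    · have h1 := hcs 0 (2 * s)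
      rw [zero_add, mul_zero, ← hz, zero_mul] at h1
      have h2 : c (2 * s) = 0 := by
        have := le_antisymm h1 (sq_nonneg _)
        exact pow_eq_zero_iff (two_ne_zero) |>.1 this
      rw [h2, ← hz, mul_zero]
    · set x := c (2 * s) / (c 0 * Real.exp (-(m * (2 * s : ℕ)))) with hx
      have hE : ∀ n : ℕ, (c (2 * s) / c 0) ^ (2 ^ n) ≤ c (2 * (2 ^ n * s)) / c 0 := by
        intro n
        induction n with
        | zero => simp
        | succ n ih =>
          have h1 := hcs 0 (2 * (2 ^ n * s))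
          rw [zero_add, mul_zero] at h1
          have h2 : 0 ≤ (c (2 * s) / c 0) ^ (2 ^ n) := pow_nonneg (div_nonneg (h0 s) hpos.le) _
          calc (c (2 * s) / c 0) ^ (2 ^ (n + 1)) = ((c (2 * s) / c 0) ^ (2 ^ n)) ^ 2 := by
                rw [← pow_mul, pow_succ]
            _ ≤ (c (2 * (2 ^ n * s)) / c 0) ^ 2 := pow_le_pow_left₀ h2 ih 2
            _ = c (2 * (2 ^ n * s)) ^ 2 / (c 0 * c 0) := by rw [div_pow, sq (c 0)]
            _ ≤ (c 0 * c (2 * (2 * (2 ^ n * s)))) / (c 0 * c 0) :=
                div_le_div_of_nonneg_right h1 (by positivity)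
            _ = c (2 * (2 ^ (n + 1) * s)) / c 0 := by
                rw [mul_div_mul_left _ _ hpos.ne']
                congr 3
                ring
      have hxle : x ≤ 1 := by
        refine pow_two_pow_le (K := K / c 0) fun n => ?_
        have h1 := (hE n).trans (div_le_div_of_nonneg_right
          ((le_abs_self _).trans (hK (2 * (2 ^ n * s)))) hpos.le)
        have h2 : x ^ (2 ^ n) =
            (c (2 * s) / c 0) ^ (2 ^ n) * Real.exp (m * ((2 * (2 ^ n * s) : ℕ) : ℝ)) := by
          have e1 : x = (c (2 * s) / c 0) * Real.exp (m * (2 * s : ℕ)) := by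
            rw [hx, Real.exp_neg]
            field_simp
          rw [e1, mul_pow, ← Real.exp_nat_mul]
          congr 2
          push_cast
          ring
        rw [h2]
        have h3 := mul_le_mul_of_nonneg_right h1
          (Real.exp_pos (m * ((2 * (2 ^ n * s) : ℕ) : ℝ))).le
        refine h3.trans (le_of_eq ?_)
        rw [mul_div_right_comm, mul_assoc, ← Real.exp_add, neg_add_cancel, Real.exp_zero, mul_one]
      rw [hx, div_le_one (by positivity)] at hxle
      rw [mul_comm (Real.exp _)]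
      exact hxle
  have h1 := hcs 0 t
  rw [zero_add, mul_zero] at h1
  have h2 : c t ^ 2 ≤ (Real.exp (-(m * t)) * c 0) ^ 2 := by
    refine h1.trans ((mul_le_mul_of_nonneg_left (heven t) hc0).trans (le_of_eq ?_))
    have : Real.exp (-(m * (2 * t : ℕ))) = Real.exp (-(m * t)) ^ 2 := by
      rw [← Real.exp_nat_mul]
      congr 1
      push_cast
      ring
    rw [this]
    ring
  exact abs_le_of_sq_le_sq h2 (by positivity)

end real

lemma tendsto_map {α : Type*} (e : α ≃ α) :
    Tendsto (fun Λ : Finset α => Λ.map e.toEmbedding) atTop atTop := by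
  rw [tendsto_atTop]
  intro S
  filter_upwards [eventually_ge_atTop (S.map e.symm.toEmbedding)] with Λ hΛ
  intro x hx
  rw [Finset.mem_map]
  refine ⟨e.symm x, hΛ ?_, ?_⟩
  · exact Finset.mem_map_of_mem _ hx
  · simp

variable {G : Type*} [Group G] [TopologicalSpace G] [IsTopologicalGroup G] [CompactSpace G]
  [T2Space G] [SecondCountableTopology G] [MeasurableSpace G] [BorelSpace G]
  (μ : Measure G) [IsProbabilityMeasure μ]
  [μ.IsMulLeftInvariant] [μ.IsMulRightInvariant] [μ.IsInvInvariant]

lemma cont_bm {X : Type*} [TopologicalSpace X] [CompactSpace X] [MeasurableSpace X]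
    [OpensMeasurableSpace X] {F : X → ℝ} (hF : Continuous F) : BM F := by
  refine ⟨hF.measurable, ?_⟩
  obtain ⟨C, hC⟩ := isCompact_univ.exists_bound_of_continuousOn hF.continuousOn
  exact ⟨C, fun x => by
    have := hC x (Set.mem_univ x)
    rwa [Real.norm_eq_abs] at this⟩

/-- `ν` is the infinite volume limit with free boundary conditions. -/
structure IsLim (φ : Pq d → G → ℝ) (ν : Measure (Lk d → G)) : Prop where
  prob : IsProbabilityMeasure ν
  lim : ∀ (R : ℕ) (F : (Lk d → G) → ℝ), Continuous F → DepOn (nb R 0) F →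
    Tendsto (fun Λ : Finset (Pq d) => ex μ φ Λ F) atTop (𝓝 (∫ U, F U ∂ν))

lemma dep_mono {B B' : Finset (V d)} (h : B ⊆ B') {F : (Lk d → G) → ℝ} (hF : DepOn B F) :
    DepOn B' F := fun U U' hU => hF U U' fun l hl => hU l (h hl)

lemma exists_nb (B : Finset (V d)) : ∃ R : ℕ, B ⊆ nb R 0 := by
  refine ⟨B.sup nrm, fun x hx => ?_⟩
  rw [mem_nb]
  exact nrm_le.1 (Finset.le_sup hx)

lemma IsLim.lim' {φ : Pq d → G → ℝ} {ν : Measure (Lk d → G)} (h : IsLim μ φ ν)
    {B : Finset (V d)} {F : (Lk d → G) → ℝ} (hc : Continuous F) (hF : DepOn B F) :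
    Tendsto (fun Λ : Finset (Pq d) => ex μ φ Λ F) atTop (𝓝 (∫ U, F U ∂ν)) := by
  obtain ⟨R, hR⟩ := exists_nb B
  exact h.lim R F hc (dep_mono hR hF)

variable {σ : Fin d → Fin d} {φ : Pq d → G → ℝ} {m : ℝ}

lemma integral_ex (Λ : Finset (Pq d)) (F : (Lk d → G) → ℝ) :
    ∫ U, F U ∂((PM (Lk d) μ).tilted (en φ Λ)) = ex μ φ Λ F := by
  rw [integral_tilted]
  unfold ex zz
  rw [← integral_div]
  refine integral_congr_ae (Filter.Eventually.of_forall fun U => ?_)
  simp only [smul_eq_mul, one_mul]
  ring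

/-- existence of the infinite volume state -/
theorem exists_isLim (h : Adm σ φ m) {b : ℝ} (hb : ∀ p g, |φ p g| ≤ b) :
    ∃ ν : Measure (Lk d → G), IsLim μ φ ν := by
  obtain ⟨u, hu⟩ := exists_seq_tendsto (atTop : Filter (Finset (Pq d)))
  have hP : ∀ n : ℕ, ∃ P : ProbabilityMeasure (Lk d → G),
      (P : Measure (Lk d → G)) = (PM (Lk d) μ).tilted (en φ (u n)) := by
    intro n
    have h1 := isProbabilityMeasure_tilted (μ := PM (Lk d) μ) (f := en φ (u n))
      ((BM.en h.bm _).exp.integrable _)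
    exact ⟨⟨_, h1⟩, rfl⟩
  choose P hP using hP
  obtain ⟨ν, ψ, hψ, hlim⟩ := CompactSpace.tendsto_subseq P
  refine ⟨ν, ⟨inferInstance, fun R F hc hF => ?_⟩⟩
  have h1 := (ProbabilityMeasure.tendsto_iff_forall_integral_tendsto.1 hlim)
    (BoundedContinuousFunction.mkOfCompact ⟨F, hc⟩)
  simp only [Function.comp_apply, BoundedContinuousFunction.mkOfCompact_apply,
    ContinuousMap.coe_mk, hP, integral_ex μ] at h1
  obtain ⟨E, hE⟩ := exists_lim μ h hb (cont_bm hc) hF
  have h2 := (hE.comp hu).comp hψ.tendsto_atTop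
  have h3 := tendsto_nhds_unique h1 h2
  rw [h3]
  exact hE

/-- clustering in infinite volume -/
theorem clust (h : Adm σ φ m) {ν : Measure (Lk d → G)} (hν : IsLim μ φ ν)
    {F F' : (Lk d → G) → ℝ} {B B' : Finset (V d)} (hFc : Continuous F) (hFc' : Continuous F')
    (hF : DepOn B F) (hF' : DepOn B' F')
    {r : ℕ} (hfar : ∀ x ∈ B, ∀ y ∈ B', ∀ N, near N x y → r ≤ N)
    {C C' : ℝ} (hC : ∀ U, |F U| ≤ C) (hC' : ∀ U, |F' U| ≤ C') :
    |∫ U, F U * F' U ∂ν - (∫ U, F U ∂ν) * ∫ U, F' U ∂ν| ≤
      4 * C * C' * (B.card : ℝ) / qm d m ^ (19 * (B ∪ B').card) * Real.exp (-(m * r)) := by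
  have hFF : DepOn (B ∪ B') fun U => F U * F' U := by
    intro U U' hU
    simp only
    rw [hF U U' fun l hl => hU l (Finset.mem_union_left _ hl),
      hF' U U' fun l hl => hU l (Finset.mem_union_right _ hl)]
  have h1 := ((hν.lim' μ (hFc.mul hFc') hFF).sub
    ((hν.lim' μ hFc hF).mul (hν.lim' μ hFc' hF'))).abs
  exact le_of_tendsto h1 (Eventually.of_forall fun Λ =>
    cov_m μ h Λ (cont_bm hFc) (cont_bm hFc') hF hF' hfar hC hC')

/-! ### symmetries of the state -/

lemma cont_shv (v : V d) : Continuous (shv v : (Lk d → G) → (Lk d → G)) :=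
  continuous_pi fun _ => continuous_apply _

lemma cont_th (k : Fin d) : Continuous (th k : (Lk d → G) → (Lk d → G)) := by
  refine continuous_pi fun l => ?_
  unfold th
  by_cases h : l.2 = k
  · simp only [h, if_true]
    exact (continuous_apply _).inv
  · simp only [h, if_false]
    exact continuous_apply _

/-- the translated set of sites -/
def trs (v : V d) (B : Finset (V d)) : Finset (V d) := B.image fun x => x + v

lemma dep_shv (v : V d) {B : Finset (V d)} {F : (Lk d → G) → ℝ} (hF : DepOn B F) :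
    DepOn (trs v B) fun U => F (shv v U) := by
  intro U U' hU
  refine hF _ _ fun l hl => ?_
  unfold shv
  exact hU _ (Finset.mem_image_of_mem _ hl)

lemma dep_th (k : Fin d) {R : ℕ} {F : (Lk d → G) → ℝ} (hF : DepOn (nb R 0) F) :
    DepOn (nb (R + 1) 0) fun U => F (th k U) := by
  intro U U' hU
  refine hF _ _ fun l hl => ?_
  have hmem : (rl k l).1 ∈ nb (R + 1) (0 : V d) := by
    rw [mem_nb] at hl ⊢
    obtain ⟨x, i⟩ := l
    have h1 : near R 0 (rf k x) := by
      intro j
      have := hl j
      by_cases hj : j = k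
      · rw [hj, rf_same]
        rw [hj] at this
        simpa using this
      · rw [rf_ne hj]
        exact this
    unfold rl
    by_cases h : i = k
    · simp only [h, if_true]
      refine near_trans h1 ?_
      have := near_symm (near_add_ev (rf k x - ev k) k)
      rwa [sub_add_cancel] at this
    · simp only [h, if_false]
      exact near_mono h1 (by omega)
  unfold th
  rw [hU _ hmem]

lemma E_shv (hφ : ∀ p, BM (φ p)) {ν : Measure (Lk d → G)} (hν : IsLim μ φ ν) {v : V d}
    (hv : TInv v φ) {B : Finset (V d)} {F : (Lk d → G) → ℝ} (hc : Continuous F)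
    (hF : DepOn B F) : ∫ U, F (shv v U) ∂ν = ∫ U, F U ∂ν := by
  have h1 := (hν.lim' μ (hc.comp (cont_shv v)) (dep_shv v hF)).comp (tendsto_map (tpe v))
  have h2 := hν.lim' μ hc hF
  refine tendsto_nhds_unique h1 (h2.congr fun Λ => ?_)
  simp only [Function.comp_apply]
  exact (ex_shv μ hφ hv Λ (cont_bm hc)).symm

lemma E_rp (hφ : ∀ p, BM (φ p)) {ν : Measure (Lk d → G)} (hν : IsLim μ φ ν) {k : Fin d}
    (hs' : Sym k φ) {R : ℕ} {F : (Lk d → G) → ℝ} (hc : Continuous F) (hF : DepOn (nb R 0) F)
    (hFd : ∀ U U', (∀ l ∈ hs k, U l = U' l) → F U = F U') :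
    0 ≤ ∫ U, F U * F (th k U) ∂ν := by
  classical
  have hdep : DepOn (nb (R + 1) 0) fun U => F U * F (th k U) := by
    intro U U' hU
    have e1 : F (th k U) = F (th k U') := dep_th k hF U U' hU
    have e2 : F U = F U' := hF U U' fun l hl => hU l (by
      rw [mem_nb] at hl ⊢
      exact near_mono hl (by omega))
    simp only [e1, e2]
  have h1 := hν.lim' μ (hc.mul (hc.comp (cont_th k))) hdep
  have ht : Tendsto (fun Λ : Finset (Pq d) => Λ ∪ Λ.map (rpe k).toEmbedding) atTop atTop :=
    tendsto_atTop_mono (fun Λ => Finset.subset_union_left) tendsto_id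
  refine ge_of_tendsto (h1.comp ht) (Eventually.of_forall fun Λ => ?_)
  simp only [Function.comp_apply]
  refine rp_fin μ hφ hs' ?_ (cont_bm hc) hFd
  have e : (Λ.map (rpe k).toEmbedding).map (rpe k).toEmbedding = Λ := by
    ext p
    simp only [Finset.mem_map]
    constructor
    · rintro ⟨q, ⟨q', hq', rfl⟩, rfl⟩
      have : rp k (rp k q') = q' := rp_rp k q'
      show rp k (rp k q') ∈ Λ
      rw [this]
      exact hq'
    · intro hp
      exact ⟨rp k p, ⟨p, hp, rfl⟩, rp_rp k p⟩
  rw [Finset.map_union, e, Finset.union_comm]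

lemma Sym.tinv {k : Fin d} (h : Sym k φ) (a : ℤ) : TInv (a • ev k) φ := by
  intro p
  obtain ⟨x, i, j⟩ := p
  unfold tpe
  simp only [Equiv.coe_fn_mk]
  refine h.time _ _ _ _ fun l hl => ?_
  simp only [Pi.add_apply, Pi.smul_apply]
  rw [ev_ne hl, smul_zero, add_zero]

/-- the covariance of `F` and its translate by `t` in the direction `k` -/
def cvt (ν : Measure (Lk d → G)) (k : Fin d) (F : (Lk d → G) → ℝ) (t : ℕ) : ℝ :=
  ∫ U, F U * F (shv ((t : ℤ) • ev k) U) ∂ν - (∫ U, F U ∂ν) * ∫ U, F (shv ((t : ℤ) • ev k) U) ∂ν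

/-- **The spectral gap.** -/
theorem gap (h : Adm σ φ m) {ν : Measure (Lk d → G)} (hν : IsLim μ φ ν) {k : Fin d}
    (hsym : Sym k φ) {B : Finset (V d)} {F : (Lk d → G) → ℝ} (hFc : Continuous F)
    (hFB : DepOn B F) (hF0 : ∀ U U', (∀ l ∈ h0 k, U l = U' l) → F U = F U') (t : ℕ) :
    |cvt ν k F t| ≤ Real.exp (-(m * t)) * cvt ν k F 0 := by
  classical
  obtain ⟨R, hR⟩ := exists_nb B
  have hF : DepOn (nb R 0) F := dep_mono hR hFB
  have hprob := hν.prob
  have hφ := h.bm
  set c := ∫ U, F U ∂ν with hc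
  have hsh : ∀ a : ℤ, ∫ U, F (shv (a • ev k) U) ∂ν = c := fun a =>
    E_shv μ hφ hν (hsym.tinv a) hFc hF
  have hshc : ∀ a : ℤ, Continuous fun U : Lk d → G => F (shv (a • ev k) U) := fun a =>
    hFc.comp (cont_shv _)
  set D : ℤ → ℝ := fun a => ∫ U, F U * F (shv (a • ev k) U) ∂ν - c ^ 2 with hD
  have hcv : ∀ t : ℕ, cvt ν k F t = D t := by
    intro t
    unfold cvt
    rw [hsh]
    simp only [hD]
    ring
  have hz : cvt ν k F 0 = D 0 := by
    have := hcv 0
    simpa using this
  -- the two point function of translates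
  have h2pt : ∀ a b : ℤ, ∫ U, F (shv (b • ev k) U) * F (shv ((-a) • ev k) U) ∂ν =
      ∫ U, F U * F (shv ((a + b) • ev k) U) ∂ν := by
    intro a b
    have hcont : Continuous fun U : Lk d → G => F (shv (b • ev k) U) * F (shv ((-a) • ev k) U) :=
      (hshc b).mul (hshc (-a))
    have hdep : DepOn (trs (b • ev k) (nb R 0) ∪ trs ((-a) • ev k) (nb R 0))
        fun U => F (shv (b • ev k) U) * F (shv ((-a) • ev k) U) := by
      intro U U' hU
      have e1 := dep_shv (b • ev k) hF U U' fun l hl => hU l (Finset.mem_union_left _ hl)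
      have e2 := dep_shv ((-a) • ev k) hF U U' fun l hl => hU l (Finset.mem_union_right _ hl)
      simp only at e1 e2
      simp only [e1, e2]
    rw [← E_shv μ hφ hν (hsym.tinv a) hcont hdep]
    refine integral_congr_ae (Filter.Eventually.of_forall fun U => ?_)
    simp only [shv_shv]
    rw [← add_smul, ← add_smul, neg_add_cancel, zero_smul, shv_zero, mul_comm, add_comm b a]
  -- reflected translates
  have hrefl : ∀ (a : ℤ) (U : Lk d → G), F (shv (a • ev k) (th k U)) = F (shv ((-a) • ev k) U) := by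
    intro a U
    refine hF0 _ _ fun l hl => ?_
    obtain ⟨x, i⟩ := l
    obtain ⟨hx, hi⟩ := hl
    simp only at hx hi
    unfold shv th rl
    simp only [hi, if_false]
    congr 2
    funext j
    by_cases hj : j = k
    · rw [hj, rf_same]
      simp only [Pi.add_apply, Pi.smul_apply, ev_same, hx, smul_eq_mul]
      ring
    · rw [rf_ne hj]
      simp only [Pi.add_apply, Pi.smul_apply, ev_ne hj, smul_zero]
  -- positivity
  have hpos : ∀ (a b : ℕ) (s : ℝ), 0 ≤ D (2 * a) * (s * s) + (2 * D (a + b)) * s + D (2 * b) := by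
    intro a b s
    set f : (Lk d → G) → ℝ := fun U =>
      (F (shv ((b : ℤ) • ev k) U) - c) + s * (F (shv ((a : ℤ) • ev k) U) - c) with hf
    have hfc : Continuous f := ((hshc _).sub continuous_const).add
      (continuous_const.mul ((hshc _).sub continuous_const))
    have hfd : DepOn (trs ((b : ℤ) • ev k) (nb R 0) ∪ trs ((a : ℤ) • ev k) (nb R 0)) f := by
      intro U U' hU
      simp only [hf]
      have e1 := dep_shv ((b : ℤ) • ev k) hF U U' fun l hl => hU l (Finset.mem_union_left _ hl)
      have e2 := dep_shv ((a : ℤ) • ev k) hF U U' fun l hl => hU l (Finset.mem_union_right _ hl)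
      simp only at e1 e2
      rw [e1, e2]
    obtain ⟨R', hR'⟩ := exists_nb
      (trs ((b : ℤ) • ev k) (nb R 0) ∪ trs ((a : ℤ) • ev k) (nb R (0 : V d)))
    have hhalf : ∀ (a : ℕ) (U U' : Lk d → G), (∀ l ∈ hs k, U l = U' l) →
        F (shv ((a : ℤ) • ev k) U) = F (shv ((a : ℤ) • ev k) U') := by
      intro a U U' hU
      refine hF0 _ _ fun l hl => ?_
      unfold shv
      refine hU _ ?_
      show 0 ≤ (l.1 + (a : ℤ) • ev k) k
      simp only [Pi.add_apply, Pi.smul_apply, ev_same, smul_eq_mul, mul_one]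
      rw [hl.1]
      simp
    have hrp := E_rp μ hφ hν hsym hfc (dep_mono hR' hfd) (by
      intro U U' hU
      simp only [hf]
      rw [hhalf a U U' hU, hhalf b U U' hU])
    have hval : ∫ U, f U * f (th k U) ∂ν =
        D (2 * a) * (s * s) + (2 * D (a + b)) * s + D (2 * b) := by
      have hexp : ∀ U, f U * f (th k U) =
          ((((F (shv ((b : ℤ) • ev k) U) * F (shv ((-(b : ℤ)) • ev k) U)) +
            s * (F (shv ((b : ℤ) • ev k) U) * F (shv ((-(a : ℤ)) • ev k) U))) +
            s * (F (shv ((a : ℤ) • ev k) U) * F (shv ((-(b : ℤ)) • ev k) U))) +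
            (s * s) * (F (shv ((a : ℤ) • ev k) U) * F (shv ((-(a : ℤ)) • ev k) U))) +
          ((-(1 + s) * c) * F (shv ((b : ℤ) • ev k) U) +
            ((-(1 + s) * c) * F (shv ((-(b : ℤ)) • ev k) U) +
            ((-(1 + s) * c * s) * F (shv ((a : ℤ) • ev k) U) +
            ((-(1 + s) * c * s) * F (shv ((-(a : ℤ)) • ev k) U) + (1 + s) ^ 2 * c ^ 2)))) := by
        intro U
        simp only [hf, hrefl]
        ring
      simp only [hexp]
      have i1 : ∀ a' b' : ℤ, BM (fun U : Lk d → G => F (shv (a' • ev k) U) * F (shv (b' • ev k) U)) :=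
        fun a' b' => cont_bm ((hshc a').mul (hshc b'))
      have i2 : ∀ a' : ℤ, BM (fun U : Lk d → G => F (shv (a' • ev k) U)) := fun a' =>
        cont_bm (hshc a')
      have j1 := i1 b (-b)
      have j2 := (BM.const s).mul (i1 b (-a))
      have j3 := (BM.const s).mul (i1 a (-b))
      have j4 := (BM.const (s * s)).mul (i1 a (-a))
      have l1 := (BM.const (-(1 + s) * c)).mul (i2 b)
      have l2 := (BM.const (-(1 + s) * c)).mul (i2 (-b))
      have l3 := (BM.const (-(1 + s) * c * s)).mul (i2 a)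
      have l4 := (BM.const (-(1 + s) * c * s)).mul (i2 (-a))
      have l5 : BM (fun _ : Lk d → G => (1 + s) ^ 2 * c ^ 2) := BM.const _
      rw [integral_add ((((j1.add j2).add j3).add j4).integrable _)
          ((l1.add (l2.add (l3.add (l4.add l5)))).integrable _),
        integral_add (((j1.add j2).add j3).integrable _) (j4.integrable _),
        integral_add ((j1.add j2).integrable _) (j3.integrable _),
        integral_add (j1.integrable _) (j2.integrable _),
        integral_add (l1.integrable _) ((l2.add (l3.add (l4.add l5))).integrable _),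
        integral_add (l2.integrable _) ((l3.add (l4.add l5)).integrable _),
        integral_add (l3.integrable _) ((l4.add l5).integrable _),
        integral_add (l4.integrable _) (l5.integrable _),
        integral_const_mul, integral_const_mul, integral_const_mul, integral_const_mul,
        integral_const_mul, integral_const_mul, integral_const_mul, integral_const,
        h2pt, h2pt, h2pt, h2pt, hsh, hsh, hsh, hsh]
      simp only [hD, probReal_univ, one_smul]
      rw [two_mul (a : ℤ), two_mul (b : ℤ), add_comm (b : ℤ) (a : ℤ)]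
      ring
    rw [← hval]
    exact hrp
  have hcs : ∀ a b : ℕ, cvt ν k F (a + b) ^ 2 ≤ cvt ν k F (2 * a) * cvt ν k F (2 * b) := by
    intro a b
    have h1 := discrim_le_zero (hpos a b)
    unfold discrim at h1
    rw [hcv, hcv, hcv]
    push_cast
    nlinarith
  have h0' : ∀ a : ℕ, 0 ≤ cvt ν k F (2 * a) := by
    intro a
    have h1 := hpos a a 0
    rw [hcv]
    push_cast
    simpa using h1
  obtain ⟨C, hC⟩ := (cont_bm hFc).bdd
  have hC0 : 0 ≤ C := le_trans (abs_nonneg _) (hC fun _ => 1)
  -- exponential decay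
  have hdec : ∀ t : ℕ, |cvt ν k F t| ≤ (4 * C * C * ((nb R (0 : V d)).card : ℝ) /
      qm d m ^ (19 * (2 * (nb R (0 : V d)).card)) * Real.exp (m * (2 * R))) *
      Real.exp (-(m * t)) := by
    intro t
    have h1 := clust μ h hν (B := nb R 0) (B' := trs ((t : ℤ) • ev k) (nb R 0)) hFc (hshc t)
      hF (dep_shv _ hF) (r := t - 2 * R)
      (by
        intro x hx y hy N hN
        unfold trs at hy
        rw [Finset.mem_image] at hy
        obtain ⟨y', hy', rfl⟩ := hy
        rw [mem_nb] at hx hy'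
        have e1 := abs_le.1 (hx k)
        have e2 := abs_le.1 (hy' k)
        have e3 := abs_le.1 (hN k)
        simp only [Pi.zero_apply, Pi.add_apply, Pi.smul_apply, ev_same, smul_eq_mul] at e1 e2 e3
        omega) hC (fun U => hC _)
    refine h1.trans ?_
    have hq := qm_pos d m
    have hcard : (nb R (0 : V d) ∪ trs ((t : ℤ) • ev k) (nb R 0)).card ≤
        2 * (nb R (0 : V d)).card := by
      refine (Finset.card_union_le _ _).trans ?_
      have : (trs ((t : ℤ) • ev k) (nb R (0 : V d))).card ≤ (nb R (0 : V d)).card :=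
        Finset.card_image_le
      omega
    have hexp : Real.exp (-(m * ((t - 2 * R : ℕ) : ℝ))) ≤
        Real.exp (m * (2 * R)) * Real.exp (-(m * t)) := by
      rw [← Real.exp_add, Real.exp_le_exp]
      have h1 : (t : ℝ) ≤ ((t - 2 * R : ℕ) : ℝ) + 2 * R := by
        have : t ≤ (t - 2 * R) + 2 * R := by omega
        exact_mod_cast this
      have := h.pos
      nlinarith
    rw [mul_assoc (4 * C * C * ((nb R (0 : V d)).card : ℝ) / _)]
    refine mul_le_mul ?_ hexp (Real.exp_pos _).le (by positivity)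
    refine div_le_div_of_nonneg_left (by positivity) (by positivity) ?_
    exact pow_le_pow_of_le_one hq.le (qm_one h.pos.le) (by omega)
  exact seq_gap hcs h0' hdec t

end Pool.Agent.U868.YM
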