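import Pool.Agent.U868.YM.Pot

/-!
# The infinite volume limit
-/

set_option autoImplicit false
set_option linter.unusedSectionVars false

noncomputable section

open MeasureTheory Filter Topology

namespace Pool.Agent.U868.YM

variable {d : ℕ}

/-- the number `q` for the rate `m` -/
def qm (d : ℕ) (m : ℝ) : ℝ := Real.exp (-(6 * m)) / (2 * DD d)

lemma qm_pos (d : ℕ) (m : ℝ) : 0 < qm d m := by
  unfold qm
  have := DD_pos d
  positivity

lemma DD_one (d : ℕ) : 1 ≤ DD d := by
  unfold DD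
  have h : (1 : ℝ) ≤ (7 : ℝ) ^ d := one_le_pow₀ (by norm_num)
  nlinarith

lemma DD_qm (d : ℕ) (m : ℝ) : DD d * qm d m = Real.exp (-(6 * m)) / 2 := by
  unfold qm
  have := (DD_pos d).ne'
  field_simp

lemma qm_half {m : ℝ} (hm : 0 ≤ m) : DD d * qm d m ≤ 1 / 2 := by
  rw [DD_qm]
  have : Real.exp (-(6 * m)) ≤ 1 := Real.exp_le_one_iff.2 (by linarith)
  linarith

lemma qm_one {m : ℝ} (hm : 0 ≤ m) : qm d m ≤ 1 := by
  have h1 := qm_half (d := d) hm
  have h2 := DD_one d
  have h3 := qm_pos d m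
  nlinarith

/-- the bound of the weak potentials for the rate `m` -/
def epsm (d : ℕ) (m : ℝ) : ℝ := epsq d (qm d m)

lemma epsm_pos (d : ℕ) (m : ℝ) : 0 < epsm d m := by
  unfold epsm epsq
  have := qm_pos d m
  positivity

lemma eta_le {m : ℝ} (hm : 0 ≤ m) (B B' : Finset (V d)) (r : ℕ) :
    eta d B B' ((r + 5) / 6) (qm d m) ≤
      2 * (B.card : ℝ) / qm d m ^ (19 * (B ∪ B').card) * Real.exp (-(m * r)) := by
  unfold eta
  have hq := qm_pos d m
  have h1 : (DD d * qm d m) ^ ((r + 5) / 6) ≤ Real.exp (-(m * r)) := by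
    rw [DD_qm]
    have h2 : (Real.exp (-(6 * m)) / 2) ^ ((r + 5) / 6) ≤ (Real.exp (-(6 * m))) ^ ((r + 5) / 6) :=
      pow_le_pow_left₀ (by positivity) (by have := Real.exp_pos (-(6 * m)); linarith) _
    refine h2.trans ?_
    rw [← Real.exp_nat_mul, Real.exp_le_exp]
    have h3 : (r : ℝ) ≤ 6 * (((r + 5) / 6 : ℕ) : ℝ) := by
      have : r ≤ 6 * ((r + 5) / 6) := by omega
      exact_mod_cast this
    nlinarith
  rw [mul_div_right_comm]
  exact mul_le_mul_of_nonneg_left h1 (by positivity)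

section

variable {G : Type*} [Group G] [MeasurableSpace G]
variable [MeasurableMul₂ G] [MeasurableInv G] (μ : Measure G) [IsProbabilityMeasure μ]
  [μ.IsMulLeftInvariant] [μ.IsMulRightInvariant] [μ.IsInvInvariant]

/-- The potentials: arbitrary in the planes of the matching, at most `epsm d m` in the other
planes. -/
structure Adm (σ : Fin d → Fin d) (φ : Pq d → G → ℝ) (m : ℝ) : Prop where
  inv : ∀ i, σ (σ i) = i
  pos : 0 < m
  bm : ∀ p, BM (φ p)
  weak : ∀ p : Pq d, p.2.1 < p.2.2 → p.2.2 ≠ σ p.2.1 → ∀ g, |φ p g| ≤ epsm d m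

variable {σ : Fin d → Fin d} {φ : Pq d → G → ℝ} {m : ℝ}

theorem cov_m (h : Adm σ φ m) (Λ : Finset (Pq d)) {F F' : (Lk d → G) → ℝ} {B B' : Finset (V d)}
    (hFm : BM F) (hFm' : BM F') (hF : DepOn B F) (hF' : DepOn B' F')
    {r : ℕ} (hfar : ∀ x ∈ B, ∀ y ∈ B', ∀ N, near N x y → r ≤ N)
    {C C' : ℝ} (hC : ∀ U, |F U| ≤ C) (hC' : ∀ U, |F' U| ≤ C') :
    |ex μ φ Λ (fun U => F U * F' U) - ex μ φ Λ F * ex μ φ Λ F'| ≤
      4 * C * C' * (B.card : ℝ) / qm d m ^ (19 * (B ∪ B').card) * Real.exp (-(m * r)) := by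
  have hC0 : 0 ≤ C := le_trans (abs_nonneg _) (hC fun _ => 1)
  have hC0' : 0 ≤ C' := le_trans (abs_nonneg _) (hC' fun _ => 1)
  have h1 := cov_pot μ h.inv h.bm (qm_pos d m) (qm_half h.pos.le) (qm_one h.pos.le) h.weak Λ
    hFm hFm' hF hF' (N₀ := (r + 5) / 6)
    (fun x hx y hy N hn => by
      have := hfar x hx y hy _ hn
      omega) hC hC'
  refine h1.trans ?_
  refine (mul_le_mul_of_nonneg_left (eta_le h.pos.le B B' r) (by positivity)).trans (le_of_eq ?_)
  ring

/-- norm of a site -/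
def nrm (x : V d) : ℕ := Finset.univ.sup fun i => (x i).natAbs

lemma nrm_le {x : V d} {N : ℕ} : nrm x ≤ N ↔ near N 0 x := by
  unfold nrm near
  rw [Finset.sup_le_iff]
  constructor
  · intro h i
    have := h i (Finset.mem_univ _)
    simp only [Pi.zero_apply, zero_sub, abs_neg, Int.abs_eq_natAbs]
    exact_mod_cast this
  · intro h i _
    have := h i
    simp only [Pi.zero_apply, zero_sub, abs_neg, Int.abs_eq_natAbs] at this
    exact_mod_cast this

lemma near_nrm (x : V d) : near (nrm x) 0 x := nrm_le.1 le_rfl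

/-- the base points of the links of a plaquette -/
def bp (p : Pq d) : Finset (V d) := {p.1, p.1 + ev p.2.1, p.1 + ev p.2.2}

lemma bp_card (p : Pq d) : (bp p).card ≤ 3 := by
  unfold bp
  exact Finset.card_le_three

lemma mem_bp {p : Pq d} {l : Lk d} (h : l ∈ lks p) : l.1 ∈ bp p := by
  unfold bp
  rcases mem_lks.1 h with h | h | h | h <;> rw [h] <;> simp

lemma near_bp {p : Pq d} {y : V d} (h : y ∈ bp p) : near 1 p.1 y := by
  unfold bp at h
  rw [Finset.mem_insert, Finset.mem_insert, Finset.mem_singleton] at h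
  rcases h with h | h | h
  · rw [h]; exact near_refl _ _
  · rw [h]; exact near_add_ev _ _
  · rw [h]; exact near_add_ev _ _

lemma en_insert (φ : Pq d → G → ℝ) {Λ : Finset (Pq d)} {p : Pq d} (hp : p ∉ Λ) (U : Lk d → G) :
    en φ (insert p Λ) U = (if p.2.1 < p.2.2 then φ p (plq U p) else 0) + en φ Λ U := by
  unfold en
  rw [Finset.sum_insert hp]

/-- the constant of the step -/
def KR (d : ℕ) (m b C : ℝ) (R : ℕ) : ℝ :=
  4 * C * Real.exp (2 * b) * ((2 * R + 1 : ℕ) : ℝ) ^ d / qm d m ^ (19 * ((2 * R + 1) ^ d + 3)) *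
    Real.exp (m * (R + 1))

lemma step (h : Adm σ φ m) {b : ℝ} (hb : ∀ p g, |φ p g| ≤ b) {Λ : Finset (Pq d)} {p : Pq d}
    (hp : p ∉ Λ) {F : (Lk d → G) → ℝ} (hFm : BM F) {R : ℕ} (hF : DepOn (nb R 0) F) {C : ℝ}
    (hC : ∀ U, |F U| ≤ C) :
    |ex μ φ (insert p Λ) F - ex μ φ Λ F| ≤ KR d m b C R * Real.exp (-(m * nrm p.1)) := by
  have hC0 : 0 ≤ C := le_trans (abs_nonneg _) (hC fun _ => 1)
  have hq := qm_pos d m
  by_cases hlt : p.2.1 < p.2.2
  · set ψ : (Lk d → G) → ℝ := fun U => Real.exp (φ p (plq U p)) with hψ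
    have hψm : BM ψ := ((h.bm p).comp (meas_plq p)).exp
    have hψC : ∀ U, |ψ U| ≤ Real.exp b := by
      intro U
      simp only [hψ]
      rw [abs_of_pos (Real.exp_pos _), Real.exp_le_exp]
      exact (abs_le.1 (hb p _)).2
    have hψc : ∀ U, Real.exp (-b) ≤ ψ U := by
      intro U
      simp only [hψ]
      rw [Real.exp_le_exp]
      exact (abs_le.1 (hb p _)).1
    have hψd : DepOn (bp p) ψ := by
      intro U U' hU
      simp only [hψ]
      rw [plq_congr (U := U) (U' := U') fun l hl => hU l (mem_bp hl)]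
    have hzz : ∀ H : (Lk d → G) → ℝ, zz μ φ (insert p Λ) H = zz μ φ Λ fun U => H U * ψ U := by
      intro H
      unfold zz
      refine integral_congr_ae (Filter.Eventually.of_forall fun U => ?_)
      simp only [hψ]
      rw [en_insert φ hp, if_pos hlt, Real.exp_add]
      ring
    have hcov := cov_m μ h Λ (B := nb R 0) (B' := bp p) hFm hψm hF hψd (r := nrm p.1 - (R + 1))
      (fun x hx y hy N hn => by
        have h1 : near (R + N + 1) 0 p.1 :=
          near_trans (near_trans (mem_nb.1 hx) hn) (near_symm (near_bp hy))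
        have := nrm_le.2 h1
        omega) hC hψC
    have hZ := zz_one_pos μ h.bm Λ
    have hZψ : Real.exp (-b) * zz μ φ Λ (fun _ => 1) ≤ zz μ φ Λ ψ := by
      unfold zz
      rw [← integral_const_mul]
      refine integral_mono (((BM.const _).mul ((BM.const 1).mul (BM.en h.bm Λ).exp)).integrable _)
        ((hψm.mul (BM.en h.bm Λ).exp).integrable _) fun U => ?_
      simp only [one_mul]
      exact mul_le_mul_of_nonneg_right (hψc U) (Real.exp_pos _).le
    have hexψ : Real.exp (-b) ≤ ex μ φ Λ ψ := by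
      unfold ex
      rw [le_div_iff₀ hZ]
      exact hZψ
    have hexψ0 : 0 < ex μ φ Λ ψ := lt_of_lt_of_le (Real.exp_pos _) hexψ
    have hdiff : ex μ φ (insert p Λ) F - ex μ φ Λ F =
        (ex μ φ Λ (fun U => F U * ψ U) - ex μ φ Λ F * ex μ φ Λ ψ) / ex μ φ Λ ψ := by
      have hne : zz μ φ Λ ψ ≠ 0 := by
        have : 0 < zz μ φ Λ ψ := lt_of_lt_of_le (mul_pos (Real.exp_pos _) hZ) hZψ
        exact this.ne'
      have e1 : ex μ φ (insert p Λ) F = zz μ φ Λ (fun U => F U * ψ U) / zz μ φ Λ ψ := by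
        unfold ex
        rw [hzz, hzz]
        simp only [one_mul]
      rw [e1]
      unfold ex
      field_simp
    rw [hdiff, abs_div, abs_of_pos hexψ0, div_le_iff₀ hexψ0]
    refine hcov.trans ?_
    have hcard : ((nb R (0 : V d)).card : ℝ) = ((2 * R + 1 : ℕ) : ℝ) ^ d := by
      rw [card_nb]
      push_cast
      rfl
    have hpow : qm d m ^ (19 * ((2 * R + 1) ^ d + 3)) ≤
        qm d m ^ (19 * (nb R (0 : V d) ∪ bp p).card) := by
      refine pow_le_pow_of_le_one hq.le (qm_one h.pos.le) ?_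
      have h1 := Finset.card_union_le (nb R (0 : V d)) (bp p)
      have h2 := bp_card p
      rw [card_nb] at h1
      omega
    have hexp : Real.exp (-(m * ((nrm p.1 - (R + 1) : ℕ) : ℝ))) ≤
        Real.exp (m * (R + 1)) * Real.exp (-(m * nrm p.1)) := by
      rw [← Real.exp_add, Real.exp_le_exp]
      have h1 : (nrm p.1 : ℝ) ≤ ((nrm p.1 - (R + 1) : ℕ) : ℝ) + (R + 1) := by
        have : nrm p.1 ≤ (nrm p.1 - (R + 1)) + (R + 1) := by omega
        exact_mod_cast this
      have := h.pos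
      nlinarith
    have hee : (1 : ℝ) ≤ Real.exp b * ex μ φ Λ ψ := by
      have h1 : Real.exp b * Real.exp (-b) = 1 := by
        rw [← Real.exp_add, add_neg_cancel, Real.exp_zero]
      rw [← h1]
      exact mul_le_mul_of_nonneg_left hexψ (Real.exp_pos _).le
    calc 4 * C * Real.exp b * ((nb R (0 : V d)).card : ℝ) /
          qm d m ^ (19 * (nb R (0 : V d) ∪ bp p).card) *
          Real.exp (-(m * ((nrm p.1 - (R + 1) : ℕ) : ℝ))) ≤
        4 * C * Real.exp b * ((2 * R + 1 : ℕ) : ℝ) ^ d /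
          qm d m ^ (19 * ((2 * R + 1) ^ d + 3)) *
          (Real.exp (m * (R + 1)) * Real.exp (-(m * nrm p.1))) := by
          rw [hcard]
          refine mul_le_mul ?_ hexp (Real.exp_pos _).le (by positivity)
          exact div_le_div_of_nonneg_left (by positivity) (by positivity) hpow
      _ ≤ (4 * C * Real.exp b * ((2 * R + 1 : ℕ) : ℝ) ^ d /
          qm d m ^ (19 * ((2 * R + 1) ^ d + 3)) *
          (Real.exp (m * (R + 1)) * Real.exp (-(m * nrm p.1)))) * (Real.exp b * ex μ φ Λ ψ) :=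
          le_mul_of_one_le_right (by positivity) hee
      _ = KR d m b C R * Real.exp (-(m * nrm p.1)) * ex μ φ Λ ψ := by
          unfold KR
          rw [two_mul b, Real.exp_add]
          ring
  · have : ex μ φ (insert p Λ) F = ex μ φ Λ F := by
      have e : ∀ U : Lk d → G, en φ (insert p Λ) U = en φ Λ U := by
        intro U
        rw [en_insert φ hp, if_neg hlt, zero_add]
      unfold ex zz
      simp only [e]
    rw [this, sub_self, abs_zero]
    unfold KR
    positivity

end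

/-! ### summability -/

lemma summable_int {c : ℝ} (hc : 0 < c) : Summable fun k : ℤ => Real.exp (-(c * |(k : ℝ)|)) := by
  have h1 : Summable fun n : ℕ => Real.exp (-(c * n)) := by
    have := summable_geometric_of_lt_one (Real.exp_pos (-c)).le
      (by rw [← Real.exp_zero, Real.exp_lt_exp]; linarith)
    refine this.congr fun n => ?_
    rw [← Real.exp_nat_mul]
    congr 1
    ring
  refine Summable.of_nat_of_neg ?_ ?_
  · refine h1.congr fun n => ?_
    simp
  · refine h1.congr fun n => ?_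
    simp

lemma summable_site {m : ℝ} (hm : 0 < m) :
    Summable fun x : V d => Real.exp (-(m * nrm x)) := by
  set c : ℝ := m / (d + 1) with hc
  have hc0 : 0 < c := by positivity
  set f : ℤ → ℝ := fun k => Real.exp (-(c * |(k : ℝ)|)) with hf
  have hfs : Summable f := summable_int hc0
  have hf0 : ∀ k, 0 ≤ f k := fun k => (Real.exp_pos _).le
  have hle : ∀ x : V d, Real.exp (-(m * nrm x)) ≤ ∏ i, f (x i) := by
    intro x
    simp only [hf]
    rw [← Real.exp_sum, Real.exp_le_exp, Finset.sum_neg_distrib, ← Finset.mul_sum, neg_le_neg_iff]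
    have h1 : ∑ i, |((x i : ℤ) : ℝ)| ≤ ∑ _i : Fin d, (nrm x : ℝ) := by
      refine Finset.sum_le_sum fun i _ => ?_
      have := near_nrm x i
      simp only [Pi.zero_apply, zero_sub, abs_neg] at this
      exact_mod_cast this
    rw [Finset.sum_const, Finset.card_univ, Fintype.card_fin, nsmul_eq_mul] at h1
    have h2 : (0 : ℝ) ≤ nrm x := Nat.cast_nonneg _
    have h3 : c * ((d : ℝ) + 1) = m := by
      rw [hc]
      field_simp
    calc c * ∑ i, |((x i : ℤ) : ℝ)| ≤ c * ((d : ℝ) * nrm x) := mul_le_mul_of_nonneg_left h1 hc0.le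
      _ ≤ c * (((d : ℝ) + 1) * nrm x) := by
          refine mul_le_mul_of_nonneg_left ?_ hc0.le
          nlinarith
      _ = m * nrm x := by rw [← mul_assoc, h3]
  refine Summable.of_nonneg_of_le (fun x => (Real.exp_pos _).le) hle ?_
  refine summable_of_sum_le (c := (∑' k, f k) ^ d)
    (fun x => Finset.prod_nonneg fun i _ => hf0 _) fun u => ?_
  classical
  set t : Fin d → Finset ℤ := fun i => u.image fun x => x i with ht
  have hsub : u ⊆ Fintype.piFinset t := by
    intro x hx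
    rw [Fintype.mem_piFinset]
    intro i
    exact Finset.mem_image_of_mem _ hx
  calc ∑ x ∈ u, ∏ i, f (x i) ≤ ∑ x ∈ Fintype.piFinset t, ∏ i, f (x i) :=
        Finset.sum_le_sum_of_subset_of_nonneg hsub fun x _ _ =>
          Finset.prod_nonneg fun i _ => hf0 _
    _ = ∏ i, ∑ k ∈ t i, f k := (Finset.prod_univ_sum t fun _ k => f k).symm
    _ ≤ ∏ _i : Fin d, ∑' k, f k := Finset.prod_le_prod (fun i _ => Finset.sum_nonneg fun k _ => hf0 k)
        fun i _ => hfs.sum_le_tsum _ fun k _ => hf0 k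
    _ = (∑' k, f k) ^ d := by rw [Finset.prod_const, Finset.card_univ, Fintype.card_fin]

lemma summable_pq {m : ℝ} (hm : 0 < m) (K : ℝ) :
    Summable fun p : Pq d => K * Real.exp (-(m * nrm p.1)) := by
  refine Summable.mul_left K ?_
  have h := (summable_site (d := d) hm).mul_of_nonneg
    (g := fun _ : Fin d × Fin d => (1 : ℝ)) (Summable.of_finite)
    (fun x => (Real.exp_pos _).le) (fun _ => zero_le_one)
  simpa only [mul_one] using h

section

variable {G : Type*} [Group G] [MeasurableSpace G]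
variable [MeasurableMul₂ G] [MeasurableInv G] (μ : Measure G) [IsProbabilityMeasure μ]
  [μ.IsMulLeftInvariant] [μ.IsMulRightInvariant] [μ.IsInvInvariant]
variable {σ : Fin d → Fin d} {φ : Pq d → G → ℝ} {m : ℝ}

lemma steps (h : Adm σ φ m) {b : ℝ} (hb : ∀ p g, |φ p g| ≤ b) {F : (Lk d → G) → ℝ} (hFm : BM F)
    {R : ℕ} (hF : DepOn (nb R 0) F) {C : ℝ} (hC : ∀ U, |F U| ≤ C) (Λ Δ : Finset (Pq d))
    (hΔ : Disjoint Λ Δ) :
    |ex μ φ (Λ ∪ Δ) F - ex μ φ Λ F| ≤ ∑ p ∈ Δ, KR d m b C R * Real.exp (-(m * nrm p.1)) := by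
  classical
  induction Δ using Finset.induction_on with
  | empty => simp
  | insert p Δ hp ih =>
    rw [Finset.disjoint_insert_right] at hΔ
    have h1 := ih hΔ.2
    have hpn : p ∉ Λ ∪ Δ := by
      rw [Finset.mem_union]
      rintro (h' | h')
      · exact hΔ.1 h'
      · exact hp h'
    have h2 := step μ h hb hpn hFm hF hC
    rw [Finset.union_insert, Finset.sum_insert hp]
    calc _ = |(ex μ φ (insert p (Λ ∪ Δ)) F - ex μ φ (Λ ∪ Δ) F) +
          (ex μ φ (Λ ∪ Δ) F - ex μ φ Λ F)| := by congr 1; ring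
      _ ≤ _ := (abs_add_le _ _).trans (add_le_add h2 h1)

/-- **Existence of the infinite volume limit.** -/
theorem exists_lim (h : Adm σ φ m) {b : ℝ} (hb : ∀ p g, |φ p g| ≤ b) {F : (Lk d → G) → ℝ}
    (hFm : BM F) {R : ℕ} (hF : DepOn (nb R 0) F) :
    ∃ E : ℝ, Tendsto (fun Λ : Finset (Pq d) => ex μ φ Λ F) atTop (𝓝 E) := by
  classical
  obtain ⟨C, hC⟩ := hFm.bdd
  refine cauchySeq_tendsto_of_complete ?_
  rw [Metric.cauchySeq_iff']
  intro ε hε
  obtain ⟨s, hs⟩ := summable_iff_vanishing_norm.1 (summable_pq (d := d) h.pos (KR d m b C R)) ε hε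
  refine ⟨s, fun Λ hΛ => ?_⟩
  have h1 := steps μ h hb hFm hF hC s (Λ \ s) Finset.disjoint_sdiff
  rw [Finset.union_sdiff_of_subset hΛ] at h1
  rw [Real.dist_eq]
  refine lt_of_le_of_lt h1 (lt_of_le_of_lt (le_abs_self _) ?_)
  rw [← Real.norm_eq_abs]
  exact hs _ Finset.sdiff_disjoint

end

end Pool.Agent.U868.YM
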