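import Pool.Agent.U868.YM.Topo

/-!
# Averaging over one link, the doubled system, the collapse of the strong plaquettes
-/

set_option autoImplicit false

noncomputable section

open MeasureTheory

namespace Pool.Agent.U868.YM

/-- bounded measurable functions -/
structure BM {Ω : Type*} [MeasurableSpace Ω] (f : Ω → ℝ) : Prop where
  meas : Measurable f
  bdd : ∃ C : ℝ, ∀ ω, |f ω| ≤ C

section BM

variable {Ω : Type*} [MeasurableSpace Ω] {f g : Ω → ℝ}

lemma BM.const (c : ℝ) : BM (fun _ : Ω => c) := ⟨measurable_const, |c|, fun _ => le_rfl⟩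

lemma BM.mul (hf : BM f) (hg : BM g) : BM (fun ω => f ω * g ω) := by
  obtain ⟨C, hC⟩ := hf.bdd
  obtain ⟨D, hD⟩ := hg.bdd
  refine ⟨hf.meas.mul hg.meas, C * D, fun ω => ?_⟩
  rw [abs_mul]
  exact mul_le_mul (hC ω) (hD ω) (abs_nonneg _) (le_trans (abs_nonneg _) (hC ω))

lemma BM.add (hf : BM f) (hg : BM g) : BM (fun ω => f ω + g ω) := by
  obtain ⟨C, hC⟩ := hf.bdd
  obtain ⟨D, hD⟩ := hg.bdd
  refine ⟨hf.meas.add hg.meas, C + D, fun ω => ?_⟩
  exact le_trans (abs_add_le _ _) (add_le_add (hC ω) (hD ω))

lemma BM.neg (hf : BM f) : BM (fun ω => -f ω) := by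
  obtain ⟨C, hC⟩ := hf.bdd
  exact ⟨hf.meas.neg, C, fun ω => by rw [abs_neg]; exact hC ω⟩

lemma BM.sub (hf : BM f) (hg : BM g) : BM (fun ω => f ω - g ω) := by
  simpa only [sub_eq_add_neg] using hf.add hg.neg

lemma BM.prod {κ : Type*} (s : Finset κ) {F : κ → Ω → ℝ} (h : ∀ i ∈ s, BM (F i)) :
    BM (fun ω => ∏ i ∈ s, F i ω) := by
  classical
  induction s using Finset.induction_on with
  | empty => simpa using BM.const (Ω := Ω) 1
  | insert a s ha ih =>
    simp only [Finset.prod_insert ha]
    exact (h a (Finset.mem_insert_self _ _)).mul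
      (ih fun i hi => h i (Finset.mem_insert_of_mem hi))

lemma BM.sum {κ : Type*} (s : Finset κ) {F : κ → Ω → ℝ} (h : ∀ i ∈ s, BM (F i)) :
    BM (fun ω => ∑ i ∈ s, F i ω) := by
  classical
  induction s using Finset.induction_on with
  | empty => simpa using BM.const (Ω := Ω) 0
  | insert a s ha ih =>
    simp only [Finset.sum_insert ha]
    exact (h a (Finset.mem_insert_self _ _)).add
      (ih fun i hi => h i (Finset.mem_insert_of_mem hi))

lemma BM.comp {Ω' : Type*} [MeasurableSpace Ω'] (hf : BM f) {φ : Ω' → Ω} (hφ : Measurable φ) :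
    BM (fun ω => f (φ ω)) := by
  obtain ⟨C, hC⟩ := hf.bdd
  exact ⟨hf.meas.comp hφ, C, fun ω => hC _⟩

lemma BM.integrable (hf : BM f) (ν : Measure Ω) [IsFiniteMeasure ν] : Integrable f ν := by
  obtain ⟨C, hC⟩ := hf.bdd
  exact Integrable.of_bound hf.meas.aestronglyMeasurable C
    (Filter.Eventually.of_forall fun ω => by rw [Real.norm_eq_abs]; exact hC ω)

end BM

section prodmeas

variable {ι G : Type*} [MeasurableSpace G] (μ : Measure G) [IsProbabilityMeasure μ]

/-- the product measure -/
abbrev PM (ι : Type*) (μ : Measure G) : Measure (ι → G) := Measure.infinitePi fun _ : ι => μ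

variable [DecidableEq ι]

lemma meas_update (e : ι) :
    Measurable (fun p : (ι → G) × G => Function.update p.1 e p.2) := by
  refine measurable_pi_iff.2 fun i => ?_
  by_cases h : i = e
  · subst h
    simp only [Function.update_self]
    exact measurable_snd
  · simp only [Function.update_of_ne h]
    exact (measurable_pi_apply i).comp measurable_fst

lemma map_update (e : ι) :
    Measure.map (fun p : (ι → G) × G => Function.update p.1 e p.2) ((PM ι μ).prod μ) = PM ι μ := by
  refine Measure.eq_infinitePi _ fun s t ht => ?_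
  rw [Measure.map_apply (meas_update e) (MeasurableSet.pi s.countable_toSet fun i _ => ht i)]
  have hpre : (fun p : (ι → G) × G => Function.update p.1 e p.2) ⁻¹' (Set.pi (s : Set ι) t) =
      (Set.pi ((s.erase e : Finset ι) : Set ι) t) ×ˢ (if e ∈ s then t e else Set.univ) := by
    ext p
    simp only [Set.mem_preimage, Set.mem_pi, Set.mem_prod, Finset.mem_coe, Finset.mem_erase]
    constructor
    · intro h
      refine ⟨fun i hi => ?_, ?_⟩
      · have := h i hi.2
        rwa [Function.update_of_ne hi.1] at this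
      · split_ifs with he
        · have := h e he
          rwa [Function.update_self] at this
        · trivial
    · rintro ⟨h1, h2⟩ i hi
      by_cases hie : i = e
      · subst hie
        rw [if_pos hi] at h2
        rw [Function.update_self]
        exact h2
      · rw [Function.update_of_ne hie]
        exact h1 i ⟨hie, hi⟩
  rw [hpre, Measure.prod_prod, Measure.infinitePi_pi _ fun i _ => ht i]
  by_cases he : e ∈ s
  · rw [if_pos he, Finset.prod_erase_mul _ _ he]
  · rw [if_neg he, measure_univ, mul_one, Finset.erase_eq_of_notMem he]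

lemma avg_one (e : ι) {h : (ι → G) → ℝ} (hh : BM h) :
    ∫ ω, h ω ∂(PM ι μ) = ∫ ω, ∫ v, h (Function.update ω e v) ∂μ ∂(PM ι μ) := by
  have h1 : ∫ ω, h ω ∂(PM ι μ) =
      ∫ p, h (Function.update p.1 e p.2) ∂((PM ι μ).prod μ) := by
    conv_lhs => rw [← map_update μ e]
    rw [integral_map (meas_update e).aemeasurable hh.meas.aestronglyMeasurable]
  rw [h1]
  exact integral_prod _ ((hh.comp (meas_update e)).integrable _)

/-- Integrating out one coordinate. -/
lemma collapse_one (e : ι) {h k : (ι → G) → ℝ} (hh : BM h) (hk : BM k)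
    (hdep : ∀ ω v, h (Function.update ω e v) = h ω) (c : ℝ)
    (hc : ∀ ω, ∫ v, k (Function.update ω e v) ∂μ = c) :
    ∫ ω, h ω * k ω ∂(PM ι μ) = c * ∫ ω, h ω ∂(PM ι μ) := by
  rw [avg_one μ e (hh.mul hk)]
  simp only [hdep, integral_const_mul, hc]
  rw [integral_mul_const, mul_comm]

omit [DecidableEq ι] in
lemma map_reindex (π : ι ≃ ι) :
    Measure.map (fun ω : ι → G => fun i => ω (π i)) (PM ι μ) = PM ι μ := by
  have hm : Measurable (fun ω : ι → G => fun i => ω (π i)) :=
    measurable_pi_iff.2 fun i => measurable_pi_apply _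
  classical
  refine Measure.eq_infinitePi _ fun s t ht => ?_
  rw [Measure.map_apply hm (MeasurableSet.pi s.countable_toSet fun i _ => ht i)]
  have hpre : (fun ω : ι → G => fun i => ω (π i)) ⁻¹' (Set.pi (s : Set ι) t) =
      Set.pi ((s.map π.toEmbedding : Finset ι) : Set ι) (fun i => t (π.symm i)) := by
    ext ω
    simp only [Set.mem_preimage, Set.mem_pi, Finset.mem_coe, Finset.mem_map_equiv]
    constructor
    · intro h i hi
      have := h _ hi
      rwa [Equiv.apply_symm_apply] at this
    · intro h i hi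
      have := h (π i) (by simpa using hi)
      rwa [Equiv.symm_apply_apply] at this
  rw [hpre, Measure.infinitePi_pi _ fun i _ => ht _, Finset.prod_map]
  simp

omit [DecidableEq ι] in
lemma integral_reindex (π : ι ≃ ι) {h : (ι → G) → ℝ} (hh : BM h) :
    ∫ ω, h (fun i => ω (π i)) ∂(PM ι μ) = ∫ ω, h ω ∂(PM ι μ) := by
  have hm : Measurable (fun ω : ι → G => fun i => ω (π i)) :=
    measurable_pi_iff.2 fun i => measurable_pi_apply _
  conv_rhs => rw [← map_reindex μ π]
  rw [integral_map hm.aemeasurable hh.meas.aestronglyMeasurable]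

/-- one copy of the doubled configuration -/
def cfg (b : Bool) (ω : Bool × ι → G) : ι → G := fun l => ω (b, l)

omit [IsProbabilityMeasure μ] [DecidableEq ι] in
lemma meas_cfg (b : Bool) : Measurable (cfg b : (Bool × ι → G) → (ι → G)) :=
  measurable_pi_iff.2 fun _ => measurable_pi_apply _

omit [DecidableEq ι] in
/-- The two copies are independent. -/
lemma integral_two {f g : (ι → G) → ℝ} (hf : BM f) (hg : BM g) :
    ∫ ω, f (cfg true ω) * g (cfg false ω) ∂(PM (Bool × ι) μ) =
      (∫ U, f U ∂(PM ι μ)) * ∫ U, g U ∂(PM ι μ) := by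
  have h1 : Measurable (fun x : Bool → (ι → G) => f (x true) * g (x false)) :=
    (hf.meas.comp (measurable_pi_apply true)).mul (hg.meas.comp (measurable_pi_apply false))
  have h2 := Measure.infinitePi_map_curry (ι := Bool) (κ := ι) (fun _ _ => μ)
  have h3 : ∫ ω, f (cfg true ω) * g (cfg false ω) ∂(PM (Bool × ι) μ) =
      ∫ x, f (x true) * g (x false) ∂(Measure.infinitePi fun _ : Bool => PM ι μ) := by
    rw [← h2, integral_map (MeasurableEquiv.curry Bool ι G).measurable.aemeasurable
      h1.aestronglyMeasurable]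
    rfl
  rw [h3, Measure.infinitePi_eq_pi]
  have h4 := integral_fintype_prod_eq_prod (ι := Bool) (E := fun _ => ι → G) (𝕜 := ℝ)
    (fun b => if b then f else g) (μ := fun _ => PM ι μ)
  simpa using h4

end prodmeas

end Pool.Agent.U868.YM
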