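import Pool.Agent.U868.YM.Geo

/-!
# Chains of clusters and connected sets
-/

set_option autoImplicit false

noncomputable section

namespace Pool.Agent.U868.YM

variable {d : ℕ}

lemma con_union {x a : V d} {S S' : Finset (V d)} (h : Con x S) (ha : a ∈ S) (h' : Con a S') :
    Con x (S ∪ S') := by
  refine ⟨Finset.mem_union_left _ h.1, fun y hy => ?_⟩
  rcases Finset.mem_union.1 hy with hy | hy
  · exact rtg_mono Finset.subset_union_left (h.2 y hy)
  · exact (rtg_mono Finset.subset_union_left (h.2 a ha)).trans
      (rtg_mono Finset.subset_union_right (h'.2 y hy))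

lemma con_single (x : V d) : Con x {x} := by
  refine ⟨Finset.mem_singleton_self _, fun y hy => ?_⟩
  rw [Finset.mem_singleton.1 hy]

lemma exists_path (M : ℕ) (a b : V d) (h : near M a b) :
    ∃ Γ : Finset (V d), Con a Γ ∧ b ∈ Γ ∧ Γ.card ≤ M + 1 := by
  induction M generalizing a with
  | zero =>
    have : a = b := by
      funext i
      have := abs_le.1 (h i)
      push_cast at this
      omega
    subst this
    exact ⟨{a}, con_single a, Finset.mem_singleton_self _, by simp⟩
  | succ M ih =>
    set a' : V d := fun i => a i + Int.sign (b i - a i) with ha'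
    have h1 : near 1 a a' := by
      intro i
      have : a i - a' i = - Int.sign (b i - a i) := by
        simp only [ha']
        ring
      rw [this, abs_neg]
      rcases lt_trichotomy (b i - a i) 0 with hc | hc | hc
      · rw [Int.sign_eq_neg_one_of_neg hc]; simp
      · rw [hc]; simp
      · rw [Int.sign_eq_one_of_pos hc]; simp
    have h2 : near M a' b := by
      intro i
      have hi := abs_le.1 (h i)
      push_cast at hi
      simp only [ha']
      rw [abs_le]
      rcases lt_trichotomy (b i - a i) 0 with hc | hc | hc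
      · rw [Int.sign_eq_neg_one_of_neg hc]; constructor <;> omega
      · rw [hc]; simp; constructor <;> omega
      · rw [Int.sign_eq_one_of_pos hc]; constructor <;> omega
    obtain ⟨Γ, hΓ, hb, hc⟩ := ih a' h2
    refine ⟨{a, a'} ∪ Γ, ?_, Finset.mem_union_right _ hb, ?_⟩
    · refine con_union (a := a') ?_ (by simp) hΓ
      refine ⟨by simp, fun y hy => ?_⟩
      rw [Finset.mem_insert, Finset.mem_singleton] at hy
      rcases hy with hy | hy
      · rw [hy]
      · rw [hy]
        exact Relation.ReflTransGen.single ⟨near_mono h1 (by omega), by simp, by simp⟩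
    · have : ({a, a'} : Finset (V d)) ∪ Γ = insert a Γ := by
        ext y
        simp only [Finset.mem_union, Finset.mem_insert, Finset.mem_singleton]
        constructor
        · rintro ((h | h) | h)
          · exact Or.inl h
          · right
            rw [h]
            exact hΓ.1
          · exact Or.inr h
        · rintro (h | h)
          · exact Or.inl (Or.inl h)
          · exact Or.inr h
      rw [this]
      exact le_trans (Finset.card_insert_le _ _) (by omega)

/-- The relation of being linked by the sizes of the clusters. -/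
def rel (A : Finset (V d)) (x y : V d) : Prop :=
  x ∈ A ∧ y ∈ A ∧ near (9 * ((cl A x).card + (cl A y).card)) x y

lemma rel_symm {A : Finset (V d)} {x y : V d} (h : rel A x y) : rel A y x := by
  refine ⟨h.2.1, h.1, ?_⟩
  rw [add_comm]
  exact near_symm h.2.2

/-- the graph of the clusters -/
def clG (A : Finset (V d)) : SimpleGraph (Finset (V d)) where
  Adj K K' := K ≠ K' ∧ (∃ a ∈ A, cl A a = K) ∧ (∃ a ∈ A, cl A a = K') ∧
    ∃ x ∈ K, ∃ y ∈ K', near (9 * (K.card + K'.card)) x y
  symm := ⟨by
    rintro K K' ⟨h1, h2, h3, x, hx, y, hy, h⟩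
    refine ⟨h1.symm, h3, h2, y, hy, x, hx, ?_⟩
    rw [add_comm]
    exact near_symm h⟩
  loopless := ⟨fun K h => h.1 rfl⟩

lemma reach_of_rel {A : Finset (V d)} {x y : V d} (h : Relation.ReflTransGen (rel A) x y) :
    (clG A).Reachable (cl A x) (cl A y) := by
  induction h with
  | refl => exact SimpleGraph.Reachable.refl _
  | tail _ hst ih =>
    rename_i b c _
    by_cases he : cl A b = cl A c
    · rw [← he]
      exact ih
    · refine ih.trans (SimpleGraph.Adj.reachable ?_)
      exact ⟨he, ⟨b, hst.1, rfl⟩, ⟨c, hst.2.1, rfl⟩, b, self_mem_cl hst.1, c,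
        self_mem_cl hst.2.1, hst.2.2⟩

lemma walk_set {A : Finset (V d)} {K K' : Finset (V d)} (w : (clG A).Walk K K')
    (hK : ∃ a ∈ A, cl A a = K) (x : V d) (hx : x ∈ K) :
    ∃ T' : Finset (V d), Con x T' ∧ (∀ L ∈ w.support, L ⊆ T') ∧
      T'.card + 9 * K.card ≤ 19 * (w.support.map Finset.card).sum := by
  induction w generalizing x with
  | nil =>
    rename_i K
    obtain ⟨a, ha, rfl⟩ := hK
    refine ⟨cl A a, ?_, ?_, ?_⟩
    · have := con_cl (cl_sub _ _ hx)
      rw [cl_eq_of_mem hx] at this
      exact this
    · intro L hL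
      rw [SimpleGraph.Walk.support_nil, List.mem_singleton] at hL
      rw [hL]
    · simp only [SimpleGraph.Walk.support_nil, List.map_cons, List.map_nil, List.sum_cons,
        List.sum_nil]
      omega
  | cons hadj w ih =>
    rename_i K K₁ K'
    obtain ⟨hne, -, hK₁, a, ha, b, hb, hab⟩ := id hadj
    obtain ⟨T₁, hT₁, hsup, hcard⟩ := ih hK₁ b hb
    obtain ⟨Γ, hΓ, hbΓ, hΓc⟩ := exists_path _ a b hab
    obtain ⟨a₀, ha₀, rfl⟩ := hK
    have hconK : Con x (cl A a₀) := by
      have := con_cl (cl_sub _ _ hx)
      rw [cl_eq_of_mem hx] at this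
      exact this
    refine ⟨(cl A a₀ ∪ Γ) ∪ T₁, ?_, ?_, ?_⟩
    · exact con_union (con_union hconK ha hΓ) (Finset.mem_union_right _ hbΓ) hT₁
    · intro L hL
      rw [SimpleGraph.Walk.support_cons, List.mem_cons] at hL
      rcases hL with hL | hL
      · rw [hL]
        intro y hy
        exact Finset.mem_union_left _ (Finset.mem_union_left _ hy)
      · exact (hsup L hL).trans Finset.subset_union_right
    · have e1 : cl A a₀ ∪ Γ = cl A a₀ ∪ Γ.erase a := by
        ext y
        simp only [Finset.mem_union, Finset.mem_erase]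
        by_cases hya : y = a
        · rw [hya]
          simp [ha]
        · simp [hya]
      have e2 : (cl A a₀ ∪ Γ).card ≤ (cl A a₀).card + (Γ.card - 1) := by
        rw [e1]
        refine le_trans (Finset.card_union_le _ _) ?_
        rw [Finset.card_erase_of_mem hΓ.1]
      have e3 := Finset.card_union_le (cl A a₀ ∪ Γ) T₁
      simp only [SimpleGraph.Walk.support_cons, List.map_cons, List.sum_cons]
      omega

lemma walk_clusters {A : Finset (V d)} {K K' : Finset (V d)} (w : (clG A).Walk K K')
    (hK : ∃ a ∈ A, cl A a = K) (L : Finset (V d)) (hL : L ∈ w.support) :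
    ∃ a ∈ A, cl A a = L := by
  induction w with
  | nil =>
    rw [SimpleGraph.Walk.support_nil, List.mem_singleton] at hL
    rw [hL]
    exact hK
  | cons hadj w ih =>
    rw [SimpleGraph.Walk.support_cons, List.mem_cons] at hL
    rcases hL with hL | hL
    · rw [hL]
      exact hK
    · exact ih hadj.2.2.1 hL

/-- **Chains of clusters give connected sets.** -/
lemma chain_witness {A : Finset (V d)} {x y : V d} (hx : x ∈ A) (hy : y ∈ A)
    (h : Relation.ReflTransGen (rel A) x y) :
    ∃ T' T : Finset (V d), Con x T' ∧ y ∈ T' ∧ T ⊆ T' ∧ T ⊆ A ∧ T'.card ≤ 19 * T.card := by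
  classical
  obtain ⟨w, hw⟩ := (reach_of_rel h).exists_isPath
  obtain ⟨T', hcon, hsup, hcard⟩ := walk_set w ⟨x, hx, rfl⟩ x (self_mem_cl hx)
  have hall : ∀ L ∈ w.support, ∃ a ∈ A, cl A a = L := walk_clusters w ⟨x, hx, rfl⟩
  refine ⟨T', w.support.toFinset.biUnion id, hcon, ?_, ?_, ?_, ?_⟩
  · exact hsup _ w.end_mem_support (self_mem_cl hy)
  · rw [Finset.biUnion_subset]
    intro L hL
    exact hsup L (List.mem_toFinset.1 hL)
  · rw [Finset.biUnion_subset]
    intro L hL
    obtain ⟨a, ha, rfl⟩ := hall L (List.mem_toFinset.1 hL)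
    exact cl_sub _ _
  · rw [Finset.card_biUnion]
    · have : ∑ u ∈ w.support.toFinset, (id u).card = (w.support.map Finset.card).sum := by
        rw [List.sum_toFinset _ hw.support_nodup]
        rfl
      rw [this]
      omega
    · intro L hL L' hL' hne
      obtain ⟨a, ha, rfl⟩ := hall L (List.mem_toFinset.1 hL)
      obtain ⟨a', ha', rfl⟩ := hall L' (List.mem_toFinset.1 hL')
      exact cl_disj hne

end Pool.Agent.U868.YM
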