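import Pool.Agent.U868.YM.Exp

/-!
# The bound of the covariance in finite volume
-/

set_option autoImplicit false
set_option linter.unusedSectionVars false

noncomputable section

open MeasureTheory

namespace Pool.Agent.U868.YM

variable {d : ℕ} {G : Type*} [Group G] [MeasurableSpace G]
variable [MeasurableMul₂ G] [MeasurableInv G] (μ : Measure G) [IsProbabilityMeasure μ]
  [μ.IsMulLeftInvariant] [μ.IsMulRightInvariant] [μ.IsInvInvariant]

/-- the weight of one copy -/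
def wgt (ρ : Pq d → G → ℝ) (W : V d → (Lk d → G) → ℝ) (S : Finset (Pq d)) (X : Finset (V d))
    (U : Lk d → G) : ℝ := (∏ x ∈ X, W x U) * ∏ p ∈ S, ρ p (plq U p)

lemma wgt_two (ρ : Pq d → G → ℝ) (W : V d → (Lk d → G) → ℝ) (S : Finset (Pq d))
    (X : Finset (V d)) (ω : Bool × Lk d → G) :
    wgt ρ W S X (cfg true ω) * wgt ρ W S X (cfg false ω) =
      (∏ x ∈ X, (1 + (W x (cfg true ω) * W x (cfg false ω) - 1))) * RR ρ S ω := by
  unfold wgt RR
  have : ∀ x ∈ X, (1 + (W x (cfg true ω) * W x (cfg false ω) - 1)) =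
      W x (cfg true ω) * W x (cfg false ω) := fun x _ => by ring
  rw [Finset.prod_congr rfl this, Finset.prod_mul_distrib, Finset.prod_mul_distrib]
  ring

lemma BM.wgt {ρ : Pq d → G → ℝ} {W : V d → (Lk d → G) → ℝ} (hρ : ∀ p, BM (ρ p))
    (hW : ∀ x, BM (W x)) (S : Finset (Pq d)) (X : Finset (V d)) : BM (wgt ρ W S X) :=
  (BM.prod X fun x _ => hW x).mul (BM.prod S fun p _ => (hρ p).comp (meas_plq p))

/-- the identity of the doubled system -/
lemma cov_two {F F' w : (Lk d → G) → ℝ} (hF : BM F) (hF' : BM F') (hw : BM w) :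
    ∫ ω, (F (cfg true ω) - F (cfg false ω)) * (F' (cfg true ω) - F' (cfg false ω)) *
      (w (cfg true ω) * w (cfg false ω)) ∂(PM (Bool × Lk d) μ) =
    2 * ((∫ U, w U ∂(PM (Lk d) μ)) * (∫ U, F U * F' U * w U ∂(PM (Lk d) μ)) -
      (∫ U, F U * w U ∂(PM (Lk d) μ)) * ∫ U, F' U * w U ∂(PM (Lk d) μ)) := by
  have e : ∀ ω : Bool × Lk d → G,
      (F (cfg true ω) - F (cfg false ω)) * (F' (cfg true ω) - F' (cfg false ω)) *
      (w (cfg true ω) * w (cfg false ω)) =
      ((F (cfg true ω) * F' (cfg true ω) * w (cfg true ω)) * w (cfg false ω) +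
        w (cfg true ω) * (F (cfg false ω) * F' (cfg false ω) * w (cfg false ω))) -
      ((F (cfg true ω) * w (cfg true ω)) * (F' (cfg false ω) * w (cfg false ω)) +
        (F' (cfg true ω) * w (cfg true ω)) * (F (cfg false ω) * w (cfg false ω))) := by
    intro ω
    ring
  simp only [e]
  have b1 := (hF.mul hF').mul hw
  have b2 := hF.mul hw
  have b3 := hF'.mul hw
  have i : ∀ {f g : (Lk d → G) → ℝ}, BM f → BM g →
      BM (fun ω : Bool × Lk d → G => f (cfg true ω) * g (cfg false ω)) := fun hf hg =>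
    (hf.comp (meas_cfg true)).mul (hg.comp (meas_cfg false))
  rw [integral_sub (((i b1 hw).add (i hw b1)).integrable _)
    (((i b2 b3).add (i b3 b2)).integrable _),
    integral_add ((i b1 hw).integrable _) ((i hw b1).integrable _),
    integral_add ((i b2 b3).integrable _) ((i b3 b2).integrable _),
    integral_two μ b1 hw, integral_two μ hw b1, integral_two μ b2 b3, integral_two μ b3 b2]
  ring

theorem cov_bound {σ : Fin d → Fin d} (hσ : ∀ i, σ (σ i) = i) {ρ : Pq d → G → ℝ}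
    (hρ : ∀ p, BM (ρ p)) (hρ0 : ∀ p g, 0 ≤ ρ p g) {S : Finset (Pq d)}
    (hS : ∀ p ∈ S, Strong σ p)
    {F F' : (Lk d → G) → ℝ} {W : V d → (Lk d → G) → ℝ} {B B' : Finset (V d)}
    (hFm : BM F) (hFm' : BM F') (hWm : ∀ x, BM (W x))
    (hF : DepOn B F) (hF' : DepOn B' F') (hW : ∀ x, DepAt x (W x)) (X : Finset (V d))
    (hW1 : ∀ x U, 1 ≤ W x U) {θ q : ℝ}
    (hWθ : ∀ x U U', W x U * W x U' - 1 ≤ θ * (W x U * W x U'))
    (hθ0 : 0 ≤ θ) (hq0 : 0 < q) (hθ : θ ≤ q ^ 19) (hq : DD d * q ≤ 1 / 2) (hq1 : q ≤ 1)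
    {N₀ : ℕ} (hfar : ∀ x ∈ B, ∀ y ∈ B', ∀ N, near (6 * N) x y → N₀ ≤ N)
    {C C' : ℝ} (hC : ∀ U, |F U| ≤ C) (hC' : ∀ U, |F' U| ≤ C') :
    |(∫ U, wgt ρ W S X U ∂(PM (Lk d) μ)) * (∫ U, F U * F' U * wgt ρ W S X U ∂(PM (Lk d) μ)) -
      (∫ U, F U * wgt ρ W S X U ∂(PM (Lk d) μ)) * ∫ U, F' U * wgt ρ W S X U ∂(PM (Lk d) μ)| ≤
      2 * C * C' * eta d B B' N₀ q * (∫ U, wgt ρ W S X U ∂(PM (Lk d) μ)) ^ 2 := by
  classical
  set P2 := PM (Bool × Lk d) μ with hP2
  have hwm := BM.wgt hρ hWm S X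
  have hC0 : 0 ≤ C := le_trans (abs_nonneg _) (hC fun _ => 1)
  have hC0' : 0 ≤ C' := le_trans (abs_nonneg _) (hC' fun _ => 1)
  set g : (Bool × Lk d → G) → V d → ℝ := fun ω x => W x (cfg true ω) * W x (cfg false ω) - 1 with hg
  have hgm : ∀ x, BM (fun ω => g ω x) := fun x =>
    (((hWm x).comp (meas_cfg true)).mul ((hWm x).comp (meas_cfg false))).sub (BM.const 1)
  have hg0 : ∀ ω x, 0 ≤ g ω x := by
    intro ω x
    have h1 := hW1 x (cfg true ω)
    have h2 := hW1 x (cfg false ω)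
    simp only [hg]
    nlinarith
  have hgθ : ∀ ω x, g ω x ≤ θ * (1 + g ω x) := by
    intro ω x
    have := hWθ x (cfg true ω) (cfg false ω)
    simp only [hg]
    linarith
  have hRR0 : ∀ ω, 0 ≤ RR ρ S ω := fun ω =>
    Finset.prod_nonneg fun p _ => mul_nonneg (hρ0 _ _) (hρ0 _ _)
  -- the expansion
  have hexp : ∀ ω, (F (cfg true ω) - F (cfg false ω)) * (F' (cfg true ω) - F' (cfg false ω)) *
      (wgt ρ W S X (cfg true ω) * wgt ρ W S X (cfg false ω)) =
      ∑ Q ∈ X.powerset, term F F' W Q ω * RR ρ S ω := by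
    intro ω
    rw [wgt_two, Finset.prod_one_add, Finset.sum_mul, Finset.mul_sum]
    refine Finset.sum_congr rfl fun Q _ => ?_
    unfold term
    ring
  have hterm : ∀ Q, Integrable (fun ω => term F F' W Q ω * RR ρ S ω) P2 := fun Q =>
    ((BM.term hFm hFm' hWm Q).mul (BM.RR hρ S)).integrable _
  have hsum : ∫ ω, (F (cfg true ω) - F (cfg false ω)) * (F' (cfg true ω) - F' (cfg false ω)) *
      (wgt ρ W S X (cfg true ω) * wgt ρ W S X (cfg false ω)) ∂P2 =
      ∑ Q ∈ X.powerset.filter (fun Q => conn B B' Q), ∫ ω, term F F' W Q ω * RR ρ S ω ∂P2 := by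
    simp only [hexp]
    rw [integral_finsetSum _ fun Q _ => hterm Q]
    symm
    refine Finset.sum_filter_of_ne fun Q _ hne => ?_
    by_contra hno
    unfold conn at hno
    push Not at hno
    exact hne (vanish μ hσ hρ hS hFm hFm' hWm hF hF' hW Q hno)
  -- the bound of a term
  have hDF : ∀ ω, |(F (cfg true ω) - F (cfg false ω)) * (F' (cfg true ω) - F' (cfg false ω))| ≤
      4 * (C * C') := by
    intro ω
    rw [abs_mul]
    have h1 : |F (cfg true ω) - F (cfg false ω)| ≤ 2 * C := by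
      refine le_trans (abs_sub _ _) ?_
      linarith [hC (cfg true ω), hC (cfg false ω)]
    have h2 : |F' (cfg true ω) - F' (cfg false ω)| ≤ 2 * C' := by
      refine le_trans (abs_sub _ _) ?_
      linarith [hC' (cfg true ω), hC' (cfg false ω)]
    calc _ ≤ (2 * C) * (2 * C') := mul_le_mul h1 h2 (abs_nonneg _) (by positivity)
      _ = 4 * (C * C') := by ring
  have hbm : ∀ Q : Finset (V d), BM (fun ω => 4 * (C * C') * ((∏ x ∈ Q, g ω x) * RR ρ S ω)) :=
    fun Q => (BM.const _).mul ((BM.prod Q fun x _ => hgm x).mul (BM.RR hρ S))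
  have hQ : ∀ Q : Finset (V d), |∫ ω, term F F' W Q ω * RR ρ S ω ∂P2| ≤
      ∫ ω, 4 * (C * C') * ((∏ x ∈ Q, g ω x) * RR ρ S ω) ∂P2 := by
    intro Q
    rw [← Real.norm_eq_abs]
    refine norm_integral_le_of_norm_le ((hbm Q).integrable _) (Filter.Eventually.of_forall ?_)
    intro ω
    rw [Real.norm_eq_abs]
    unfold term
    have hp0 : 0 ≤ ∏ x ∈ Q, g ω x := Finset.prod_nonneg fun x _ => hg0 ω x
    rw [abs_mul, abs_mul, abs_of_nonneg (hRR0 ω)]
    have : |∏ x ∈ Q, (W x (cfg true ω) * W x (cfg false ω) - 1)| = ∏ x ∈ Q, g ω x :=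
      abs_of_nonneg hp0
    rw [this, mul_assoc]
    exact mul_le_mul_of_nonneg_right (hDF ω) (mul_nonneg hp0 (hRR0 ω))
  have hmain : |∫ ω, (F (cfg true ω) - F (cfg false ω)) * (F' (cfg true ω) - F' (cfg false ω)) *
      (wgt ρ W S X (cfg true ω) * wgt ρ W S X (cfg false ω)) ∂P2| ≤
      4 * (C * C') * eta d B B' N₀ q *
        ∫ ω, wgt ρ W S X (cfg true ω) * wgt ρ W S X (cfg false ω) ∂P2 := by
    rw [hsum]
    refine le_trans (Finset.abs_sum_le_sum_abs _ _) ?_
    refine le_trans (Finset.sum_le_sum fun Q _ => hQ Q) ?_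
    rw [← integral_finsetSum _ fun Q _ => (hbm Q).integrable _, ← integral_const_mul]
    refine integral_mono ((BM.sum _ fun Q _ => hbm Q).integrable _)
      (((BM.const _).mul ((hwm.comp (meas_cfg true)).mul (hwm.comp (meas_cfg false)))).integrable _)
      fun ω => ?_
    simp only
    rw [wgt_two, ← Finset.mul_sum, ← Finset.sum_mul, mul_assoc (4 * (C * C'))]
    refine mul_le_mul_of_nonneg_left ?_ (by positivity)
    rw [← mul_assoc]
    refine mul_le_mul_of_nonneg_right ?_ (hRR0 ω)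
    exact comb_bound (fun x _ => hg0 ω x) (fun x _ => hgθ ω x) hθ0 hq0 hθ hq hq1 hfar
  rw [cov_two μ hFm hFm' hwm, integral_two μ hwm hwm, abs_mul, abs_of_pos (by norm_num : (0:ℝ) < 2)]
    at hmain
  nlinarith [hmain]

end Pool.Agent.U868.YM
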