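import Pool.Agent.U868.YM.Van

/-!
# The sum over the connected terms and the bound of the covariance
-/

set_option autoImplicit false
set_option linter.unusedSectionVars false

noncomputable section

open MeasureTheory

namespace Pool.Agent.U868.YM

variable {d : ℕ}

/-- the sets `B` and `B'` are connected by `Q` -/
def conn (B B' Q : Finset (V d)) : Prop :=
  ∃ x ∈ B, ∃ y ∈ B', Relation.ReflTransGen (rel (Q ∪ B ∪ B')) x y

open Classical in
/-- the witnesses of connection -/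
def wits (X B B' : Finset (V d)) (N₀ : ℕ) :
    Finset ((_ : V d) × (_ : ℕ) × (_ : Finset (V d)) × Finset (V d)) :=
  B.sigma fun x => (Finset.Ico N₀ (19 * (X.card + B.card + B'.card) + 1)).sigma fun N =>
    ((anims x N).filter fun T' => T'.card = N).sigma fun T' =>
      T'.powerset.filter fun T => N ≤ 19 * T.card

lemma exists_wit {X B B' Q : Finset (V d)} {N₀ : ℕ} (hQ : Q ⊆ X)
    (hfar : ∀ x ∈ B, ∀ y ∈ B', ∀ N, near (6 * N) x y → N₀ ≤ N) (h : conn B B' Q) :
    ∃ τ ∈ wits X B B' N₀, τ.2.2.2 \ (B ∪ B') ⊆ Q := by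
  classical
  obtain ⟨x, hx, y, hy, hr⟩ := h
  obtain ⟨T', T, hcon, hyT, hTT, hTA, hcard⟩ :=
    chain_witness (A := Q ∪ B ∪ B') (by simp [hx]) (by simp [hy]) hr
  refine ⟨⟨x, T'.card, T', T⟩, ?_, ?_⟩
  · unfold wits
    simp only [Finset.mem_sigma, Finset.mem_Ico, Finset.mem_filter, Finset.mem_powerset]
    refine ⟨hx, ⟨?_, ?_⟩, ⟨mem_anims hcon, trivial⟩, hTT, hcard⟩
    · exact hfar x hx y hy _ (con_near hcon hyT)
    · have h1 : T.card ≤ (Q ∪ B ∪ B').card := Finset.card_le_card hTA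
      have h2 := Finset.card_union_le (Q ∪ B) B'
      have h3 := Finset.card_union_le Q B
      have h4 := Finset.card_le_card hQ
      omega
  · intro z hz
    rw [Finset.mem_sdiff, Finset.mem_union] at hz
    have := hTA hz.1
    rw [Finset.mem_union, Finset.mem_union] at this
    tauto

lemma union_bound {ι κ : Type*} (𝒬 : Finset ι) (w : ι → ℝ) (hw : ∀ Q ∈ 𝒬, 0 ≤ w Q)
    (P : ι → Prop) [DecidablePred P] (𝒯 : Finset κ) (R : κ → ι → Prop)
    [∀ τ, DecidablePred (R τ)] (h : ∀ Q ∈ 𝒬, P Q → ∃ τ ∈ 𝒯, R τ Q) :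
    ∑ Q ∈ 𝒬.filter P, w Q ≤ ∑ τ ∈ 𝒯, ∑ Q ∈ 𝒬.filter (R τ), w Q := by
  have e : ∀ τ, ∑ Q ∈ 𝒬.filter (R τ), w Q = ∑ Q ∈ 𝒬, if R τ Q then w Q else 0 := fun τ =>
    Finset.sum_filter _ _
  simp only [e]
  rw [Finset.sum_comm, Finset.sum_filter]
  refine Finset.sum_le_sum fun Q hQ => ?_
  have hnn : ∀ τ ∈ 𝒯, 0 ≤ if R τ Q then w Q else 0 := by
    intro τ _
    split_ifs
    · exact hw Q hQ
    · exact le_rfl
  split_ifs with hP
  · obtain ⟨τ, hτ, hR⟩ := h Q hQ hP
    have := Finset.single_le_sum hnn hτ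
    rwa [if_pos hR] at this
  · exact Finset.sum_nonneg hnn

lemma sum_containing {X T₀ : Finset (V d)} {g : V d → ℝ} {θ : ℝ} (hθ0 : 0 ≤ θ)
    (hg0 : ∀ x ∈ X, 0 ≤ g x) (hg : ∀ x ∈ X, g x ≤ θ * (1 + g x)) :
    ∑ Q ∈ X.powerset.filter (fun Q => T₀ ⊆ Q), ∏ x ∈ Q, g x ≤
      θ ^ T₀.card * ∏ x ∈ X, (1 + g x) := by
  classical
  have hpos : 0 ≤ ∏ x ∈ X, (1 + g x) := Finset.prod_nonneg fun x hx => by
    have := hg0 x hx
    linarith
  by_cases hT : T₀ ⊆ X
  · have e : ∏ x ∈ X, (g x + if x ∈ T₀ then 0 else 1) =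
        ∑ Q ∈ X.powerset.filter (fun Q => T₀ ⊆ Q), ∏ x ∈ Q, g x := by
      rw [Finset.prod_add, Finset.sum_filter]
      refine Finset.sum_congr rfl fun Q hQ => ?_
      rw [Finset.mem_powerset] at hQ
      split_ifs with hc
      · have : ∏ x ∈ X \ Q, (if x ∈ T₀ then (0 : ℝ) else 1) = 1 := by
          refine Finset.prod_eq_one fun x hx => ?_
          rw [Finset.mem_sdiff] at hx
          rw [if_neg fun h => hx.2 (hc h)]
        rw [this, mul_one]
      · obtain ⟨x, hx, hxQ⟩ := Finset.not_subset.1 hc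
        have : ∏ x ∈ X \ Q, (if x ∈ T₀ then (0 : ℝ) else 1) = 0 := by
          refine Finset.prod_eq_zero (i := x) (Finset.mem_sdiff.2 ⟨hT hx, hxQ⟩) ?_
          rw [if_pos hx]
        rw [this, mul_zero]
    rw [← e]
    have e2 : θ ^ T₀.card * ∏ x ∈ X, (1 + g x) =
        ∏ x ∈ X, ((if x ∈ T₀ then θ else 1) * (1 + g x)) := by
      rw [Finset.prod_mul_distrib]
      congr 1
      rw [Finset.prod_ite, Finset.prod_const_one, mul_one, Finset.prod_const]
      congr 2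
      ext x
      simp only [Finset.mem_filter]
      constructor
      · intro h
        exact ⟨hT h, h⟩
      · rintro ⟨-, h⟩
        exact h
    rw [e2]
    refine Finset.prod_le_prod (fun x hx => ?_) fun x hx => ?_
    · have := hg0 x hx
      split_ifs <;> linarith
    · split_ifs
      · rw [add_zero]
        exact hg x hx
      · rw [one_mul, add_comm]
  · rw [Finset.filter_eq_empty_iff.2, Finset.sum_empty]
    · positivity
    · intro Q hQ hc
      exact hT (hc.trans (Finset.mem_powerset.1 hQ))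

lemma geom_le {r : ℝ} (h0 : 0 ≤ r) (h : r ≤ 1 / 2) (a b : ℕ) :
    ∑ N ∈ Finset.Ico a b, r ^ N ≤ 2 * r ^ a := by
  rw [Finset.sum_Ico_eq_sum_range]
  simp only [pow_add]
  rw [← Finset.mul_sum, mul_comm]
  refine mul_le_mul_of_nonneg_right ?_ (pow_nonneg h0 _)
  have h1 := geom_sum_mul_neg r (b - a)
  have h2 : 0 ≤ r ^ (b - a) := pow_nonneg h0 _
  have h3 : 0 ≤ ∑ i ∈ Finset.range (b - a), r ^ i := Finset.sum_nonneg fun i _ => pow_nonneg h0 _
  nlinarith

/-- the combinatorial constant of the dimension -/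
def DD (d : ℕ) : ℝ := 2 * ((7 : ℝ) ^ d) ^ 2

lemma DD_pos (d : ℕ) : 0 < DD d := by
  unfold DD
  positivity

/-- the bound of the sum over the witnesses -/
def eta (d : ℕ) (B B' : Finset (V d)) (N₀ : ℕ) (q : ℝ) : ℝ :=
  2 * (B.card : ℝ) * (DD d * q) ^ N₀ / q ^ (19 * (B ∪ B').card)

lemma sum_wits {X B B' : Finset (V d)} {N₀ : ℕ} {θ q : ℝ} (hθ0 : 0 ≤ θ) (hq0 : 0 < q)
    (hθ : θ ≤ q ^ 19) (hq : DD d * q ≤ 1 / 2) (hq1 : q ≤ 1) :
    ∑ τ ∈ wits X B B' N₀, θ ^ (τ.2.2.2 \ (B ∪ B')).card ≤ eta d B B' N₀ q := by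
  classical
  set c := q ^ (19 * (B ∪ B').card) with hc
  have hcpos : 0 < c := pow_pos hq0 _
  have hterm : ∀ (N : ℕ) (T : Finset (V d)), N ≤ 19 * T.card →
      θ ^ (T \ (B ∪ B')).card ≤ q ^ N / c := by
    intro N T hN
    rw [le_div_iff₀ hcpos]
    have h1 : θ ^ (T \ (B ∪ B')).card ≤ q ^ (19 * (T \ (B ∪ B')).card) := by
      rw [pow_mul]
      exact pow_le_pow_left₀ hθ0 hθ _
    have h2 : T.card ≤ (T \ (B ∪ B')).card + (B ∪ B').card := by
      have := Finset.card_sdiff_add_card_inter T (B ∪ B')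
      have h3 : (T ∩ (B ∪ B')).card ≤ (B ∪ B').card := Finset.card_le_card Finset.inter_subset_right
      omega
    calc θ ^ (T \ (B ∪ B')).card * c ≤ q ^ (19 * (T \ (B ∪ B')).card) * c :=
          mul_le_mul_of_nonneg_right h1 hcpos.le
      _ = q ^ (19 * (T \ (B ∪ B')).card + 19 * (B ∪ B').card) := by rw [pow_add]
      _ ≤ q ^ N := pow_le_pow_of_le_one hq0.le hq1 (by omega)
  unfold wits
  rw [Finset.sum_sigma]
  have hx : ∀ x ∈ B, ∑ s ∈ ((Finset.Ico N₀ (19 * (X.card + B.card + B'.card) + 1)).sigma fun N =>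
      ((anims x N).filter fun T' => T'.card = N).sigma fun T' =>
      T'.powerset.filter fun T => N ≤ 19 * T.card), θ ^ (s.2.2 \ (B ∪ B')).card ≤
      2 * (DD d * q) ^ N₀ / c := by
    intro x _
    rw [Finset.sum_sigma]
    have hN : ∀ N ∈ Finset.Ico N₀ (19 * (X.card + B.card + B'.card) + 1),
        ∑ s ∈ (((anims x N).filter fun T' => T'.card = N).sigma fun T' =>
        T'.powerset.filter fun T => N ≤ 19 * T.card), θ ^ (s.2 \ (B ∪ B')).card ≤
        (DD d * q) ^ N / c := by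
      intro N _
      rw [Finset.sum_sigma]
      have hT' : ∀ T' ∈ (anims x N).filter fun T' => T'.card = N,
          ∑ T ∈ (T'.powerset.filter fun T => N ≤ 19 * T.card), θ ^ (T \ (B ∪ B')).card ≤
          2 ^ N * (q ^ N / c) := by
        intro T' hT'
        rw [Finset.mem_filter] at hT'
        refine le_trans (Finset.sum_le_card_nsmul _ _ (q ^ N / c) ?_) ?_
        · intro T hT
          exact hterm N T (Finset.mem_filter.1 hT).2
        · rw [nsmul_eq_mul]
          refine mul_le_mul_of_nonneg_right ?_ (by positivity)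
          have : (T'.powerset.filter fun T => N ≤ 19 * T.card).card ≤ 2 ^ N := by
            refine le_trans (Finset.card_filter_le _ _) ?_
            rw [Finset.card_powerset, hT'.2]
          exact_mod_cast this
      refine le_trans (Finset.sum_le_card_nsmul _ _ _ hT') ?_
      rw [nsmul_eq_mul]
      have h1 : ((((anims x N).filter fun T' => T'.card = N).card : ℕ) : ℝ) ≤
          (((7 : ℝ) ^ d) ^ 2) ^ N := by
        have : ((anims x N).filter fun T' => T'.card = N).card ≤ ((7 ^ d) ^ 2) ^ N :=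
          le_trans (Finset.card_filter_le _ _) (card_anims x N)
        exact_mod_cast this
      calc _ ≤ (((7 : ℝ) ^ d) ^ 2) ^ N * (2 ^ N * (q ^ N / c)) :=
            mul_le_mul_of_nonneg_right h1 (by positivity)
        _ = (DD d * q) ^ N / c := by
            unfold DD
            rw [mul_pow, mul_pow]
            ring
    refine le_trans (Finset.sum_le_sum hN) ?_
    rw [← Finset.sum_div]
    refine div_le_div_of_nonneg_right ?_ hcpos.le
    exact geom_le (mul_nonneg (DD_pos d).le hq0.le) hq _ _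
  refine le_trans (Finset.sum_le_card_nsmul _ _ _ hx) ?_
  rw [nsmul_eq_mul]
  unfold eta
  rw [← hc]
  apply le_of_eq
  ring

open Classical in
/-- **The sum over the connected sets**, pointwise. -/
lemma comb_bound {X B B' : Finset (V d)} {N₀ : ℕ} {g : V d → ℝ} {θ q : ℝ}
    (hg0 : ∀ x ∈ X, 0 ≤ g x) (hg : ∀ x ∈ X, g x ≤ θ * (1 + g x)) (hθ0 : 0 ≤ θ) (hq0 : 0 < q)
    (hθ : θ ≤ q ^ 19) (hq : DD d * q ≤ 1 / 2) (hq1 : q ≤ 1)
    (hfar : ∀ x ∈ B, ∀ y ∈ B', ∀ N, near (6 * N) x y → N₀ ≤ N) :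
    ∑ Q ∈ X.powerset.filter (fun Q => conn B B' Q), ∏ x ∈ Q, g x ≤
      eta d B B' N₀ q * ∏ x ∈ X, (1 + g x) := by
  have hw : ∀ Q ∈ X.powerset, 0 ≤ ∏ x ∈ Q, g x := fun Q hQ =>
    Finset.prod_nonneg fun x hx => hg0 x (Finset.mem_powerset.1 hQ hx)
  have hpos : 0 ≤ ∏ x ∈ X, (1 + g x) := Finset.prod_nonneg fun x hx => by
    have := hg0 x hx
    linarith
  refine le_trans (union_bound X.powerset _ hw _ (wits X B B' N₀)
    (fun τ Q => τ.2.2.2 \ (B ∪ B') ⊆ Q)
    fun Q hQ hc => exists_wit (Finset.mem_powerset.1 hQ) hfar hc) ?_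
  refine le_trans (Finset.sum_le_sum fun τ _ => sum_containing hθ0 hg0 hg) ?_
  rw [← Finset.sum_mul]
  exact mul_le_mul_of_nonneg_right (sum_wits hθ0 hq0 hθ hq hq1) hpos

end Pool.Agent.U868.YM
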