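import Mathlib

/-!
# Geometry of the lattice `ℤ^d`: near sites, clusters, connected sets
-/

set_option autoImplicit false

noncomputable section

namespace Pool.Agent.U868.YM

/-- sites of the lattice -/
abbrev V (d : ℕ) := Fin d → ℤ

variable {d : ℕ}

/-- the distance of `x` and `y` in the maximum norm is at most `r` -/
def near (r : ℕ) (x y : V d) : Prop := ∀ i, |x i - y i| ≤ (r : ℤ)

lemma near_refl (r : ℕ) (x : V d) : near r x x := by
  intro i
  simp

lemma near_symm {r : ℕ} {x y : V d} (h : near r x y) : near r y x := by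
  intro i
  rw [abs_sub_comm]
  exact h i

lemma near_mono {r s : ℕ} {x y : V d} (h : near r x y) (hrs : r ≤ s) : near s x y := by
  intro i
  exact le_trans (h i) (by exact_mod_cast hrs)

lemma near_trans {r s : ℕ} {x y z : V d} (h : near r x y) (h' : near s y z) :
    near (r + s) x z := by
  intro i
  have h1 := abs_le.1 (h i)
  have h2 := abs_le.1 (h' i)
  rw [abs_le]
  push_cast
  constructor <;> linarith [h1.1, h1.2, h2.1, h2.2]

/-- the sites at distance at most `r` from `x` -/
def nb (r : ℕ) (x : V d) : Finset (V d) := Finset.Icc (fun i => x i - r) (fun i => x i + r)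

lemma mem_nb {r : ℕ} {x y : V d} : y ∈ nb r x ↔ near r x y := by
  unfold nb near
  rw [Finset.mem_Icc, Pi.le_def, Pi.le_def, ← forall_and]
  refine forall_congr' fun i => ?_
  rw [abs_le]
  constructor
  · rintro ⟨h1, h2⟩
    constructor <;> linarith
  · rintro ⟨h1, h2⟩
    constructor <;> linarith

lemma card_nb (r : ℕ) (x : V d) : (nb r x).card = (2 * r + 1) ^ d := by
  unfold nb
  rw [Pi.card_Icc]
  have : ∀ i : Fin d, (Finset.Icc (x i - (r : ℤ)) (x i + r)).card = 2 * r + 1 := by
    intro i
    rw [Int.card_Icc]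
    omega
  simp only [this, Finset.prod_const, Finset.card_univ, Fintype.card_fin]

/-! ### walks -/

/-- the walks with `k` steps from `o`, without the first vertex -/
def walks : ℕ → V d → Finset (List (V d))
  | 0, _ => {[]}
  | k + 1, o => (nb 3 o).biUnion fun Q => (walks k Q).image fun l => Q :: l

lemma card_walks (k : ℕ) (o : V d) : (walks k o).card ≤ (7 ^ d) ^ k := by
  induction k generalizing o with
  | zero => simp [walks]
  | succ k ih =>
    rw [walks]
    refine le_trans (Finset.card_biUnion_le_card_mul _ _ ((7 ^ d) ^ k) ?_) ?_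
    · intro Q _
      exact le_trans Finset.card_image_le (ih Q)
    · rw [pow_succ, mul_comm ((7 ^ d) ^ k), card_nb]

lemma mem_walks (l : List (V d)) (o : V d) (h : List.IsChain (near 3) (o :: l)) :
    l ∈ walks l.length o := by
  induction l generalizing o with
  | nil => simp [walks]
  | cons Q l ih =>
    rw [List.length_cons, walks]
    rw [List.isChain_cons_cons] at h
    simp only [Finset.mem_biUnion, Finset.mem_image]
    exact ⟨Q, mem_nb.2 h.1, l, ih Q h.2, rfl⟩

lemma walk_near (l : List (V d)) (o : V d) (h : List.IsChain (near 3) (o :: l)) (y : V d)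
    (hy : y ∈ o :: l) : near (3 * l.length) o y := by
  induction l generalizing o with
  | nil =>
    rw [List.mem_singleton] at hy
    rw [hy]
    exact near_refl _ _
  | cons Q l ih =>
    rw [List.isChain_cons_cons] at h
    rw [List.mem_cons] at hy
    rcases hy with hy | hy
    · rw [hy]
      exact near_refl _ _
    · have := near_trans h.1 (ih Q h.2 hy)
      refine near_mono this ?_
      rw [List.length_cons]
      omega

/-- The adjacency inside `T`. -/
def adjIn (T : Finset (V d)) (a b : V d) : Prop := near 3 a b ∧ a ∈ T ∧ b ∈ T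

lemma adjIn_symm {T : Finset (V d)} {a b : V d} (h : adjIn T a b) : adjIn T b a :=
  ⟨near_symm h.1, h.2.2, h.2.1⟩

/-- `T` is connected and contains `x` -/
def Con (x : V d) (T : Finset (V d)) : Prop :=
  x ∈ T ∧ ∀ y ∈ T, Relation.ReflTransGen (adjIn T) x y

lemma rtg_symm {T : Finset (V d)} {a b : V d} (h : Relation.ReflTransGen (adjIn T) a b) :
    Relation.ReflTransGen (adjIn T) b a := by
  induction h with
  | refl => exact Relation.ReflTransGen.refl
  | tail _ hst ih => exact Relation.ReflTransGen.head (adjIn_symm hst) ih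

lemma rtg_mono {S T : Finset (V d)} (hST : S ⊆ T) {a b : V d}
    (h : Relation.ReflTransGen (adjIn S) a b) : Relation.ReflTransGen (adjIn T) a b := by
  induction h with
  | refl => exact Relation.ReflTransGen.refl
  | tail _ hst ih => exact ih.tail ⟨hst.1, hST hst.2.1, hST hst.2.2⟩

lemma exists_step (Γ S : Finset (V d)) (o Q : V d) (ho : o ∈ S) (hQ : Q ∉ S)
    (h : Relation.ReflTransGen (adjIn Γ) o Q) :
    ∃ P R, P ∈ S ∧ R ∉ S ∧ R ∈ Γ ∧ near 3 P R := by
  induction h with
  | refl => exact absurd ho hQ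
  | tail _ hst ih =>
    rename_i b c _
    by_cases hb : b ∈ S
    · exact ⟨b, c, hb, hQ, hst.2.2, hst.1⟩
    · exact ih hb

lemma insert_chain (s t : List (V d)) (P R : V d)
    (h : List.IsChain (near 3) (s ++ P :: t)) (hR : near 3 P R) :
    List.IsChain (near 3) (s ++ P :: R :: P :: t) := by
  rw [List.isChain_append] at h ⊢
  refine ⟨h.1, ?_, ?_⟩
  · rw [List.isChain_cons_cons, List.isChain_cons_cons]
    exact ⟨hR, near_symm hR, h.2.1⟩
  · intro x hx y hy
    exact h.2.2 x hx y (by simpa using hy)

lemma exists_walk (o : V d) (Γ : Finset (V d)) (h : Con o Γ) (k : ℕ) (hk : k + 1 ≤ Γ.card) :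
    ∃ l : List (V d), List.IsChain (near 3) (o :: l) ∧ (o :: l).toFinset ⊆ Γ ∧
      (o :: l).toFinset.card = k + 1 ∧ l.length = 2 * k := by
  induction k with
  | zero =>
    refine ⟨[], by simp, ?_, by simp, by simp⟩
    simpa using h.1
  | succ k ih =>
    obtain ⟨l, h1, h2, h3, h4⟩ := ih (by omega)
    have hlt : (o :: l).toFinset.card < Γ.card := by omega
    obtain ⟨Q, hQ, hQn⟩ := Finset.exists_mem_notMem_of_card_lt_card hlt
    obtain ⟨P, R, hP, hR, hRΓ, hadj⟩ :=
      exists_step Γ (o :: l).toFinset o Q (by simp) hQn (h.2 Q hQ)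
    rw [List.mem_toFinset] at hP
    obtain ⟨s, t, hst⟩ := List.append_of_mem hP
    have h5 := insert_chain s t P R (hst ▸ h1) hadj
    obtain ⟨l', hl'⟩ : ∃ l', s ++ P :: R :: P :: t = o :: l' := by
      cases s with
      | nil =>
        have : o = P := by simpa using (List.cons_eq_cons.1 hst).1
        exact ⟨R :: P :: t, by rw [this]; rfl⟩
      | cons a s =>
        have : o = a := by simpa using (List.cons_eq_cons.1 hst).1
        exact ⟨s ++ P :: R :: P :: t, by rw [this]; rfl⟩
    have hset : (o :: l').toFinset = insert R (o :: l).toFinset := by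
      rw [← hl', hst]
      ext x
      simp only [List.mem_toFinset, List.mem_append, List.mem_cons, Finset.mem_insert]
      tauto
    refine ⟨l', hl' ▸ h5, ?_, ?_, ?_⟩
    · rw [hset]
      exact Finset.insert_subset hRΓ h2
    · rw [hset, Finset.card_insert_of_notMem hR, h3]
    · have e1 : (s ++ P :: R :: P :: t).length = (o :: l').length := by rw [hl']
      have e2 : (o :: l).length = (s ++ P :: t).length := by rw [hst]
      simp only [List.length_append, List.length_cons] at e1 e2
      omega

lemma exists_full_walk (o : V d) (Γ : Finset (V d)) (h : Con o Γ) :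
    ∃ l : List (V d), List.IsChain (near 3) (o :: l) ∧ (o :: l).toFinset = Γ ∧
      l.length = 2 * (Γ.card - 1) := by
  have hc : 0 < Γ.card := Finset.card_pos.2 ⟨o, h.1⟩
  obtain ⟨l, h1, h2, h3, h4⟩ := exists_walk o Γ h (Γ.card - 1) (by omega)
  exact ⟨l, h1, Finset.eq_of_subset_of_card_le h2 (by omega), h4⟩

/-- the connected sets of `N` elements which contain `o` are among these -/
def anims (o : V d) (N : ℕ) : Finset (Finset (V d)) :=
  (walks (2 * (N - 1)) o).image fun l => (o :: l).toFinset

lemma mem_anims {o : V d} {Γ : Finset (V d)} (h : Con o Γ) : Γ ∈ anims o Γ.card := by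
  obtain ⟨l, h1, h2, h3⟩ := exists_full_walk o Γ h
  unfold anims
  rw [Finset.mem_image]
  exact ⟨l, h3 ▸ mem_walks l o h1, h2⟩

lemma card_anims (o : V d) (N : ℕ) : (anims o N).card ≤ ((7 ^ d) ^ 2) ^ N := by
  unfold anims
  refine le_trans Finset.card_image_le (le_trans (card_walks _ _) ?_)
  rw [← pow_mul (7 ^ d) 2 N]
  exact Nat.pow_le_pow_right (Nat.pos_of_ne_zero (by positivity)) (by omega)

/-- a connected set of `N` elements is contained in a ball of radius `6 N` around any of its
points -/
lemma con_near {o y : V d} {Γ : Finset (V d)} (h : Con o Γ) (hy : y ∈ Γ) :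
    near (6 * Γ.card) o y := by
  obtain ⟨l, h1, h2, h3⟩ := exists_full_walk o Γ h
  have : y ∈ o :: l := by
    rw [← List.mem_toFinset, h2]
    exact hy
  refine near_mono (walk_near l o h1 y this) ?_
  omega

/-! ### clusters -/

open Classical in
/-- the cluster of `x` in `A` -/
def cl (A : Finset (V d)) (x : V d) : Finset (V d) :=
  A.filter fun y => Relation.ReflTransGen (adjIn A) x y

lemma mem_cl {A : Finset (V d)} {x y : V d} :
    y ∈ cl A x ↔ y ∈ A ∧ Relation.ReflTransGen (adjIn A) x y := by
  classical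
  unfold cl
  simp only [Finset.mem_filter]

lemma self_mem_cl {A : Finset (V d)} {x : V d} (hx : x ∈ A) : x ∈ cl A x :=
  mem_cl.2 ⟨hx, Relation.ReflTransGen.refl⟩

lemma cl_sub (A : Finset (V d)) (x : V d) : cl A x ⊆ A := fun _ hy => (mem_cl.1 hy).1

lemma cl_eq_of_mem {A : Finset (V d)} {x y : V d} (h : y ∈ cl A x) : cl A y = cl A x := by
  have h1 := (mem_cl.1 h).2
  ext z
  rw [mem_cl, mem_cl]
  constructor
  · rintro ⟨hz, hr⟩
    exact ⟨hz, h1.trans hr⟩
  · rintro ⟨hz, hr⟩
    exact ⟨hz, (rtg_symm h1).trans hr⟩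

lemma cl_eq_of_near {A : Finset (V d)} {x y : V d} (hx : x ∈ A) (hy : y ∈ A)
    (h : near 3 x y) : cl A y = cl A x :=
  cl_eq_of_mem (mem_cl.2 ⟨hy, Relation.ReflTransGen.single ⟨h, hx, hy⟩⟩)

lemma con_cl {A : Finset (V d)} {x : V d} (hx : x ∈ A) : Con x (cl A x) := by
  refine ⟨self_mem_cl hx, fun y hy => ?_⟩
  have h := (mem_cl.1 hy).2
  clear hy
  induction h with
  | refl => exact Relation.ReflTransGen.refl
  | tail hxb hst ih =>
    rename_i b c
    refine Relation.ReflTransGen.tail ih ⟨hst.1, ?_, ?_⟩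
    · exact mem_cl.2 ⟨hst.2.1, hxb⟩
    · exact mem_cl.2 ⟨hst.2.2, hxb.tail hst⟩

lemma cl_card_pos {A : Finset (V d)} {x : V d} (hx : x ∈ A) : 0 < (cl A x).card :=
  Finset.card_pos.2 ⟨x, self_mem_cl hx⟩

lemma cl_disj {A : Finset (V d)} {x y : V d} (h : cl A x ≠ cl A y) :
    Disjoint (cl A x) (cl A y) := by
  rw [Finset.disjoint_left]
  intro z hz hz'
  exact h ((cl_eq_of_mem hz).symm.trans (cl_eq_of_mem hz'))

end Pool.Agent.U868.YM
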