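import Pool.Agent.U868.YM.Cov

/-!
# Plaquette potentials: the covariance in finite volume
-/

set_option autoImplicit false
set_option linter.unusedSectionVars false

noncomputable section

open MeasureTheory

namespace Pool.Agent.U868.YM

variable {d : ℕ} {G : Type*} [Group G] [MeasurableSpace G]

/-- the energy of the plaquettes of `Λ` (those `(x, i, j)` with `i < j`) -/
def en (φ : Pq d → G → ℝ) (Λ : Finset (Pq d)) (U : Lk d → G) : ℝ :=
  ∑ p ∈ Λ, if p.2.1 < p.2.2 then φ p (plq U p) else 0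

/-- unnormalized expectation -/
def zz (μ : Measure G) (φ : Pq d → G → ℝ) (Λ : Finset (Pq d)) (F : (Lk d → G) → ℝ) : ℝ :=
  ∫ U, F U * Real.exp (en φ Λ U) ∂(PM (Lk d) μ)

/-- the expectation in the volume `Λ` -/
def ex (μ : Measure G) (φ : Pq d → G → ℝ) (Λ : Finset (Pq d)) (F : (Lk d → G) → ℝ) : ℝ :=
  zz μ φ Λ F / zz μ φ Λ fun _ => 1

variable [MeasurableMul₂ G] [MeasurableInv G] (μ : Measure G) [IsProbabilityMeasure μ]
  [μ.IsMulLeftInvariant] [μ.IsMulRightInvariant] [μ.IsInvInvariant]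

lemma BM.exp {Ω : Type*} [MeasurableSpace Ω] {f : Ω → ℝ} (hf : BM f) :
    BM (fun ω => Real.exp (f ω)) := by
  obtain ⟨C, hC⟩ := hf.bdd
  refine ⟨Real.measurable_exp.comp hf.meas, Real.exp C, fun ω => ?_⟩
  rw [abs_of_pos (Real.exp_pos _)]
  exact Real.exp_le_exp.2 (le_trans (le_abs_self _) (hC ω))

lemma BM.en {φ : Pq d → G → ℝ} (hφ : ∀ p, BM (φ p)) (Λ : Finset (Pq d)) : BM (en φ Λ) := by
  refine BM.sum Λ fun p _ => ?_
  split_ifs
  · exact (hφ p).comp (meas_plq p)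
  · exact BM.const 0

lemma zz_pos {φ : Pq d → G → ℝ} (hφ : ∀ p, BM (φ p)) (Λ : Finset (Pq d)) {F : (Lk d → G) → ℝ}
    (hF : BM F) {c : ℝ} (hc : 0 < c) (hFc : ∀ U, c ≤ F U) : 0 < zz μ φ Λ F := by
  obtain ⟨C, hC⟩ := (BM.en hφ Λ).bdd
  have h1 : ∫ _U, c * Real.exp (-C) ∂(PM (Lk d) μ) ≤ zz μ φ Λ F := by
    refine integral_mono (integrable_const _) ((hF.mul (BM.en hφ Λ).exp).integrable _) fun U => ?_
    refine mul_le_mul (hFc U) (Real.exp_le_exp.2 ?_) (Real.exp_pos _).le (le_trans hc.le (hFc U))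
    exact (abs_le.1 (hC U)).1
  rw [integral_const, smul_eq_mul] at h1
  refine lt_of_lt_of_le ?_ h1
  simp only [probReal_univ, one_mul]
  positivity

lemma zz_one_pos {φ : Pq d → G → ℝ} (hφ : ∀ p, BM (φ p)) (Λ : Finset (Pq d)) :
    0 < zz μ φ Λ fun _ => 1 :=
  zz_pos μ hφ Λ (BM.const 1) one_pos fun _ => le_rfl

open Classical in
/-- the strong plaquettes of the volume -/
def sP (σ : Fin d → Fin d) (Λ : Finset (Pq d)) : Finset (Pq d) := Λ.filter fun p => Strong σ p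

open Classical in
/-- the weak plaquettes of the volume -/
def wP (σ : Fin d → Fin d) (Λ : Finset (Pq d)) : Finset (Pq d) :=
  Λ.filter fun p => p.2.1 < p.2.2 ∧ ¬ Strong σ p

/-- the base points of the weak plaquettes -/
def wX (σ : Fin d → Fin d) (Λ : Finset (Pq d)) : Finset (V d) := (wP σ Λ).image fun p => p.1

/-- the weak plaquettes at `x` -/
def wB (σ : Fin d → Fin d) (Λ : Finset (Pq d)) (x : V d) : Finset (Pq d) :=
  (wP σ Λ).filter fun p => p.1 = x

/-- the block weight -/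
def wW (φ : Pq d → G → ℝ) (ε : ℝ) (σ : Fin d → Fin d) (Λ : Finset (Pq d)) (x : V d)
    (U : Lk d → G) : ℝ := ∏ p ∈ wB σ Λ x, Real.exp (φ p (plq U p) + ε)

lemma card_wB (σ : Fin d → Fin d) (Λ : Finset (Pq d)) (x : V d) : (wB σ Λ x).card ≤ d ^ 2 := by
  have : (wB σ Λ x).card ≤ (Finset.univ : Finset (Fin d × Fin d)).card := by
    refine Finset.card_le_card_of_injOn (fun p => p.2) (fun p _ => Finset.mem_coe.2
      (Finset.mem_univ _)) ?_
    intro p hp p' hp' h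
    have h1 : p.1 = x := (Finset.mem_filter.1 (Finset.mem_coe.1 hp)).2
    have h2 : p'.1 = x := (Finset.mem_filter.1 (Finset.mem_coe.1 hp')).2
    exact Prod.ext (h1.trans h2.symm) h
  refine le_trans this ?_
  rw [Finset.card_univ, Fintype.card_prod, Fintype.card_fin, sq]

lemma mem_wP {σ : Fin d → Fin d} {Λ : Finset (Pq d)} {p : Pq d} :
    p ∈ wP σ Λ ↔ p ∈ Λ ∧ p.2.1 < p.2.2 ∧ ¬ Strong σ p := by
  classical
  unfold wP
  simp only [Finset.mem_filter]

lemma exp_en (φ : Pq d → G → ℝ) (ε : ℝ) (σ : Fin d → Fin d) (Λ : Finset (Pq d)) :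
    ∃ c : ℝ, 0 < c ∧ ∀ U, Real.exp (en φ Λ U) =
      c * wgt (fun p g => Real.exp (φ p g)) (wW φ ε σ Λ) (sP σ Λ) (wX σ Λ) U := by
  classical
  refine ⟨Real.exp (-(((wP σ Λ).card : ℝ) * ε)), Real.exp_pos _, fun U => ?_⟩
  have e1 : en φ Λ U = ∑ p ∈ sP σ Λ, φ p (plq U p) + ∑ p ∈ wP σ Λ, φ p (plq U p) := by
    unfold en sP wP
    rw [Finset.sum_filter, Finset.sum_filter, ← Finset.sum_add_distrib]
    refine Finset.sum_congr rfl fun p _ => ?_
    by_cases h1 : p.2.1 < p.2.2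
    · by_cases h2 : Strong σ p
      · simp [h1, h2]
      · simp [h1, h2]
    · have h2 : ¬ Strong σ p := fun h => h1 h.1
      simp [h1, h2]
  have e2 : ∏ x ∈ wX σ Λ, wW φ ε σ Λ x U = ∏ p ∈ wP σ Λ, Real.exp (φ p (plq U p) + ε) := by
    unfold wX wW wB
    exact Finset.prod_fiberwise_of_maps_to (fun p hp => Finset.mem_image_of_mem _ hp) _
  unfold wgt
  rw [e2, ← Real.exp_sum, ← Real.exp_sum, ← Real.exp_add, ← Real.exp_add, e1,
    Finset.sum_add_distrib, Finset.sum_const, nsmul_eq_mul]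
  congr 1
  ring

/-- the number `ε` for given `q` -/
def epsq (d : ℕ) (q : ℝ) : ℝ := q ^ 19 / (4 * ((d : ℝ) + 1) ^ 2)

theorem cov_pot {σ : Fin d → Fin d} (hσ : ∀ i, σ (σ i) = i) {φ : Pq d → G → ℝ}
    (hφ : ∀ p, BM (φ p)) {q : ℝ} (hq0 : 0 < q) (hq : DD d * q ≤ 1 / 2) (hq1 : q ≤ 1)
    (hweak : ∀ p : Pq d, p.2.1 < p.2.2 → p.2.2 ≠ σ p.2.1 → ∀ g, |φ p g| ≤ epsq d q)
    (Λ : Finset (Pq d)) {F F' : (Lk d → G) → ℝ} {B B' : Finset (V d)}
    (hFm : BM F) (hFm' : BM F') (hF : DepOn B F) (hF' : DepOn B' F')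
    {N₀ : ℕ} (hfar : ∀ x ∈ B, ∀ y ∈ B', ∀ N, near (6 * N) x y → N₀ ≤ N)
    {C C' : ℝ} (hC : ∀ U, |F U| ≤ C) (hC' : ∀ U, |F' U| ≤ C') :
    |ex μ φ Λ (fun U => F U * F' U) - ex μ φ Λ F * ex μ φ Λ F'| ≤
      2 * C * C' * eta d B B' N₀ q := by
  classical
  set ε := epsq d q with hε
  have hε0 : 0 ≤ ε := by
    rw [hε]
    unfold epsq
    positivity
  obtain ⟨c, hc, hw⟩ := exp_en (G := G) φ ε σ Λ
  set W := wW (G := G) φ ε σ Λ with hWdef
  set w := wgt (fun p g => Real.exp (φ p g)) W (sP σ Λ) (wX σ Λ) with hwdef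
  have hWm : ∀ x, BM (W x) := fun x =>
    BM.prod _ fun p _ => (((hφ p).comp (meas_plq p)).add (BM.const ε)).exp
  have hwp : ∀ x, ∀ p ∈ wB σ Λ x, ∀ g, |φ p g| ≤ ε := by
    intro x p hp g
    obtain ⟨hp1, hp2⟩ := Finset.mem_filter.1 hp
    obtain ⟨-, h1, h2⟩ := mem_wP.1 hp1
    exact hweak p h1 (fun h => h2 ⟨h1, h⟩) g
  have hW1 : ∀ x U, 1 ≤ W x U := by
    intro x U
    simp only [hWdef]
    unfold wW
    rw [← Real.exp_sum]
    refine Real.one_le_exp (Finset.sum_nonneg fun p hp => ?_)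
    have := (abs_le.1 (hwp x p hp (plq U p))).1
    linarith
  have hWle : ∀ x U, W x U ≤ Real.exp (2 * ε * (d : ℝ) ^ 2) := by
    intro x U
    simp only [hWdef]
    unfold wW
    rw [← Real.exp_sum, Real.exp_le_exp]
    have h1 : ∑ p ∈ wB σ Λ x, (φ p (plq U p) + ε) ≤ ∑ p ∈ wB σ Λ x, 2 * ε := by
      refine Finset.sum_le_sum fun p hp => ?_
      have := (abs_le.1 (hwp x p hp (plq U p))).2
      linarith
    rw [Finset.sum_const, nsmul_eq_mul] at h1
    have h2 : ((wB σ Λ x).card : ℝ) ≤ (d : ℝ) ^ 2 := by exact_mod_cast card_wB σ Λ x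
    nlinarith
  have hWdep : ∀ x, DepAt x (W x) := by
    intro x U U' h
    simp only [hWdef]
    unfold wW
    refine Finset.prod_congr rfl fun p hp => ?_
    have hpx : p.1 = x := (Finset.mem_filter.1 hp).2
    rw [plq_congr (U := U) (U' := U') fun l hl => h l (hpx ▸ near_lks hl)]
  set θ : ℝ := 4 * ε * (d : ℝ) ^ 2 with hθdef
  have hθ0 : 0 ≤ θ := by positivity
  have hθq : θ ≤ q ^ 19 := by
    rw [hθdef, hε]
    unfold epsq
    have hd : (0 : ℝ) ≤ d := Nat.cast_nonneg d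
    have hpos : (0 : ℝ) < 4 * ((d : ℝ) + 1) ^ 2 := by positivity
    rw [show 4 * (q ^ 19 / (4 * ((d : ℝ) + 1) ^ 2)) * (d : ℝ) ^ 2 =
      (q ^ 19 * (4 * (d : ℝ) ^ 2)) / (4 * ((d : ℝ) + 1) ^ 2) by ring, div_le_iff₀ hpos]
    refine mul_le_mul_of_nonneg_left ?_ (by positivity)
    nlinarith
  have hWθ : ∀ x U U', W x U * W x U' - 1 ≤ θ * (W x U * W x U') := by
    intro x U U'
    have h1 : W x U * W x U' ≤ Real.exp θ := by
      have := mul_le_mul (hWle x U) (hWle x U') (le_trans zero_le_one (hW1 x U'))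
        (Real.exp_pos _).le
      rw [← Real.exp_add] at this
      refine le_trans this (le_of_eq ?_)
      congr 1
      rw [hθdef]
      ring
    have h2 : 0 < W x U * W x U' :=
      mul_pos (lt_of_lt_of_le one_pos (hW1 x U)) (lt_of_lt_of_le one_pos (hW1 x U'))
    have h3 : 1 - θ ≤ Real.exp (-θ) := by
      have := Real.add_one_le_exp (-θ)
      linarith
    have h4 : W x U * W x U' * (1 - θ) ≤ 1 := by
      by_cases h5 : 0 ≤ 1 - θ
      · calc W x U * W x U' * (1 - θ) ≤ Real.exp θ * Real.exp (-θ) :=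
              mul_le_mul h1 h3 h5 (Real.exp_pos _).le
          _ = 1 := by rw [← Real.exp_add, add_neg_cancel, Real.exp_zero]
      · push Not at h5
        nlinarith
    linarith
  have key := cov_bound μ hσ (ρ := fun p g => Real.exp (φ p g)) (fun p => (hφ p).exp)
    (fun p g => (Real.exp_pos _).le) (S := sP σ Λ)
    (fun p hp => by
      have := Finset.mem_filter.1 hp
      exact this.2)
    hFm hFm' hWm hF hF' hWdep (wX σ Λ) hW1 hWθ hθ0 hq0 hθq hq hq1 hfar hC hC'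
  rw [← hwdef] at key
  have hz : ∀ F : (Lk d → G) → ℝ, zz μ φ Λ F = c * ∫ U, F U * w U ∂(PM (Lk d) μ) := by
    intro F
    unfold zz
    simp only [hw]
    rw [← integral_const_mul]
    refine integral_congr_ae (Filter.Eventually.of_forall fun U => ?_)
    simp only
    ring
  have hz1 : zz μ φ Λ (fun _ => 1) = c * ∫ U, w U ∂(PM (Lk d) μ) := by
    rw [hz]
    simp only [one_mul]
  have hzpos := zz_one_pos μ hφ Λ
  set Z := ∫ U, w U ∂(PM (Lk d) μ) with hZ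
  have hZpos : 0 < Z := by
    rw [hz1] at hzpos
    exact (mul_pos_iff_of_pos_left hc).1 hzpos
  unfold ex
  rw [hz1, hz, hz, hz]
  set a := ∫ U, F U * F' U * w U ∂(PM (Lk d) μ) with ha
  set b := ∫ U, F U * w U ∂(PM (Lk d) μ) with hb
  set b' := ∫ U, F' U * w U ∂(PM (Lk d) μ) with hb'
  have e : c * a / (c * Z) - c * b / (c * Z) * (c * b' / (c * Z)) = (Z * a - b * b') / Z ^ 2 := by
    field_simp
  rw [e, abs_div, abs_of_pos (pow_pos hZpos 2), div_le_iff₀ (pow_pos hZpos 2)]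
  exact key

end Pool.Agent.U868.YM
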