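import Pool.Agent.U868.YM.Inf

/-!
# Translations, reflections, reflection positivity
-/

set_option autoImplicit false
set_option linter.unusedSectionVars false

noncomputable section

open MeasureTheory Filter Topology

namespace Pool.Agent.U868.YM

section merge

variable {ι G : Type*} [MeasurableSpace G] (μ : Measure G) [IsProbabilityMeasure μ]

open Classical in
/-- the configuration which is `U` on `S` and `V` off `S` -/
def mrg (S : Set ι) (U V : ι → G) : ι → G := fun l => if l ∈ S then U l else V l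

lemma mrg_mem {S : Set ι} {U V : ι → G} {l : ι} (h : l ∈ S) : mrg S U V l = U l := by
  simp [mrg, h]

lemma mrg_notMem {S : Set ι} {U V : ι → G} {l : ι} (h : l ∉ S) : mrg S U V l = V l := by
  simp [mrg, h]

lemma meas_mrg (S : Set ι) : Measurable (fun p : (ι → G) × (ι → G) => mrg S p.1 p.2) := by
  refine measurable_pi_iff.2 fun i => ?_
  by_cases h : i ∈ S
  · simp only [mrg_mem h]
    exact (measurable_pi_apply i).comp measurable_fst
  · simp only [mrg_notMem h]
    exact (measurable_pi_apply i).comp measurable_snd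

lemma map_mrg (S : Set ι) :
    Measure.map (fun p : (ι → G) × (ι → G) => mrg S p.1 p.2) ((PM ι μ).prod (PM ι μ)) =
      PM ι μ := by
  classical
  refine Measure.eq_infinitePi _ fun s t ht => ?_
  rw [Measure.map_apply (meas_mrg S) (MeasurableSet.pi s.countable_toSet fun i _ => ht i)]
  have hpre : (fun p : (ι → G) × (ι → G) => mrg S p.1 p.2) ⁻¹' (Set.pi (s : Set ι) t) =
      (Set.pi ((s.filter (· ∈ S) : Finset ι) : Set ι) t) ×ˢ
        (Set.pi ((s.filter (¬ · ∈ S) : Finset ι) : Set ι) t) := by
    ext p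
    simp only [Set.mem_preimage, Set.mem_pi, Set.mem_prod, Finset.mem_coe, Finset.mem_filter]
    constructor
    · intro h
      refine ⟨fun i hi => ?_, fun i hi => ?_⟩
      · have := h i hi.1
        rwa [mrg_mem hi.2] at this
      · have := h i hi.1
        rwa [mrg_notMem hi.2] at this
    · rintro ⟨h1, h2⟩ i hi
      by_cases hS : i ∈ S
      · rw [mrg_mem hS]
        exact h1 i ⟨hi, hS⟩
      · rw [mrg_notMem hS]
        exact h2 i ⟨hi, hS⟩
  rw [hpre, Measure.prod_prod, Measure.infinitePi_pi _ fun i _ => ht i,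
    Measure.infinitePi_pi _ fun i _ => ht i, Finset.prod_filter_mul_prod_filter_not]

lemma integral_mrg (S : Set ι) {h : (ι → G) → ℝ} (hh : BM h) :
    ∫ U, h U ∂(PM ι μ) = ∫ U, ∫ V, h (mrg S U V) ∂(PM ι μ) ∂(PM ι μ) := by
  have h1 : ∫ ω, h ω ∂(PM ι μ) =
      ∫ p, h (mrg S p.1 p.2) ∂((PM ι μ).prod (PM ι μ)) := by
    conv_lhs => rw [← map_mrg μ S]
    rw [integral_map (meas_mrg S).aemeasurable hh.meas.aestronglyMeasurable]
  rw [h1]
  exact integral_prod _ ((hh.comp (meas_mrg S)).integrable _)

/-- averaging off `S` gives a bounded measurable function -/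
lemma BM.avg (S : Set ι) {h : (ι → G) → ℝ} (hh : BM h) :
    BM (fun U => ∫ V, h (mrg S U V) ∂(PM ι μ)) := by
  obtain ⟨C, hC⟩ := hh.bdd
  refine ⟨?_, C, fun U => ?_⟩
  · exact ((hh.meas.comp (meas_mrg S)).stronglyMeasurable.integral_prod_right').measurable
  · rw [← Real.norm_eq_abs]
    have := norm_integral_le_of_norm_le_const (μ := PM ι μ) (f := fun V => h (mrg S U V)) (C := C)
      (Filter.Eventually.of_forall fun V => by rw [Real.norm_eq_abs]; exact hC _)
    simpa using this

/-- the conditional expectation identity -/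
lemma tower (S : Set ι) {h A : (ι → G) → ℝ} (hh : BM h) (hA : BM A)
    (hdep : ∀ U V, h (mrg S U V) = h U) :
    ∫ U, h U * A U ∂(PM ι μ) = ∫ U, h U * ∫ V, A (mrg S U V) ∂(PM ι μ) ∂(PM ι μ) := by
  rw [integral_mrg μ S (hh.mul hA)]
  refine integral_congr_ae (Filter.Eventually.of_forall fun U => ?_)
  simp only [hdep]
  rw [integral_const_mul]

/-- **Abstract reflection positivity.** -/
lemma rp_abs (S S₀ : Set ι) (hS₀ : S₀ ⊆ S) (θ : (ι → G) → (ι → G)) (hθm : Measurable θ)
    (hθ : Measure.map θ (PM ι μ) = PM ι μ)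
    (hfix : ∀ U, ∀ l ∈ S₀, θ U l = U l)
    (hrefl : ∀ U V : ι → G, ∀ l ∈ S, l ∉ S₀ → θ (mrg S U (θ V)) l = V l)
    {A w : (ι → G) → ℝ} (hA : BM A) (hw : BM w) (hw0 : ∀ U, 0 ≤ w U)
    (hAd : ∀ U U', (∀ l ∈ S, U l = U' l) → A U = A U')
    (hwd : ∀ U U', (∀ l ∈ S₀, U l = U' l) → w U = w U') :
    0 ≤ ∫ U, A U * A (θ U) * w U ∂(PM ι μ) := by
  -- first step
  have hBM : BM (fun U => A U * A (θ U) * w U) := (hA.mul (hA.comp hθm)).mul hw
  set K : (ι → G) → ℝ := fun U => ∫ V, A (mrg S₀ U V) ∂(PM ι μ) with hK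
  have hKm : BM K := BM.avg μ S₀ hA
  have e1 : ∫ U, A U * A (θ U) * w U ∂(PM ι μ) = ∫ U, (w U * K U) * A U ∂(PM ι μ) := by
    rw [integral_mrg μ S hBM]
    refine integral_congr_ae (Filter.Eventually.of_forall fun U => ?_)
    simp only
    have hbm : BM (fun V => A (mrg S U V) * A (θ (mrg S U V)) * w (mrg S U V)) :=
      hBM.comp ((meas_mrg S).comp (measurable_const.prodMk measurable_id))
    have e2 : ∫ V, A (mrg S U V) * A (θ (mrg S U V)) * w (mrg S U V) ∂(PM ι μ) =
        ∫ V, A (mrg S U (θ V)) * A (θ (mrg S U (θ V))) * w (mrg S U (θ V)) ∂(PM ι μ) := by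
      conv_lhs => rw [← hθ]
      rw [integral_map hθm.aemeasurable hbm.meas.aestronglyMeasurable]
    rw [e2]
    have e3 : ∀ V, A (mrg S U (θ V)) * A (θ (mrg S U (θ V))) * w (mrg S U (θ V)) =
        (w U * A U) * A (mrg S₀ U V) := by
      intro V
      have a1 : A (mrg S U (θ V)) = A U := hAd _ _ fun l hl => mrg_mem hl
      have a2 : w (mrg S U (θ V)) = w U := hwd _ _ fun l hl => mrg_mem (hS₀ hl)
      have a3 : A (θ (mrg S U (θ V))) = A (mrg S₀ U V) := by
        refine hAd _ _ fun l hl => ?_
        by_cases h0 : l ∈ S₀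
        · rw [hfix _ l h0, mrg_mem hl, mrg_mem h0]
        · rw [hrefl U V l hl h0, mrg_notMem h0]
      rw [a1, a2, a3]
      ring
    simp only [e3]
    rw [integral_const_mul]
    simp only [hK]
    ring
  rw [e1, tower μ S₀ (hw.mul hKm) hA]
  · refine integral_nonneg fun U => ?_
    have : (w U * K U) * ∫ V, A (mrg S₀ U V) ∂(PM ι μ) = w U * K U ^ 2 := by
      simp only [hK]
      ring
    simp only [Pi.zero_apply]
    rw [this]
    exact mul_nonneg (hw0 U) (sq_nonneg _)
  · intro U V
    have a1 : w (mrg S₀ U V) = w U := hwd _ _ fun l hl => mrg_mem hl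
    have a2 : K (mrg S₀ U V) = K U := by
      simp only [hK]
      congr 1
      funext V'
      congr 1
      funext l
      by_cases h0 : l ∈ S₀
      · rw [mrg_mem h0, mrg_mem h0, mrg_mem h0]
      · rw [mrg_notMem h0, mrg_notMem h0]
    rw [a1, a2]

end merge

variable {d : ℕ} {G : Type*} [Group G] [MeasurableSpace G]

/-- translation of a configuration -/
def shv (v : V d) (U : Lk d → G) : Lk d → G := fun l => U (l.1 + v, l.2)

/-- reflection of a site in the direction `k` -/
def rf (k : Fin d) (x : V d) : V d := Function.update x k (-x k)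

lemma rf_rf (k : Fin d) (x : V d) : rf k (rf k x) = x := by
  unfold rf
  simp

lemma rf_same (k : Fin d) (x : V d) : rf k x k = -x k := by simp [rf]

lemma rf_ne {k i : Fin d} (h : i ≠ k) (x : V d) : rf k x i = x i := by simp [rf, h]

lemma rf_add_ne {k i : Fin d} (h : i ≠ k) (x : V d) : rf k (x + ev i) = rf k x + ev i := by
  funext j
  by_cases hj : j = k
  · subst hj
    rw [rf_same, Pi.add_apply, Pi.add_apply, rf_same, ev_ne h.symm, add_zero, add_zero]
  · rw [rf_ne hj, Pi.add_apply, Pi.add_apply, rf_ne hj]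

lemma rf_add_same (k : Fin d) (x : V d) : rf k (x + ev k) = rf k x - ev k := by
  funext j
  by_cases hj : j = k
  · subst hj
    rw [rf_same, Pi.add_apply, Pi.sub_apply, rf_same, ev_same]
    ring
  · rw [rf_ne hj, Pi.add_apply, Pi.sub_apply, rf_ne hj, ev_ne hj, add_zero, sub_zero]

lemma rf_sub_same (k : Fin d) (x : V d) : rf k (x - ev k) = rf k x + ev k := by
  funext j
  by_cases hj : j = k
  · subst hj
    rw [rf_same, Pi.add_apply, Pi.sub_apply, rf_same, ev_same]
    ring
  · rw [rf_ne hj, Pi.add_apply, Pi.sub_apply, rf_ne hj, ev_ne hj, add_zero, sub_zero]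

/-- the reflected link -/
def rl (k : Fin d) (l : Lk d) : Lk d :=
  if l.2 = k then (rf k l.1 - ev k, l.2) else (rf k l.1, l.2)

lemma rl_rl (k : Fin d) (l : Lk d) : rl k (rl k l) = l := by
  obtain ⟨x, i⟩ := l
  unfold rl
  by_cases h : i = k
  · simp only [h, if_true]
    rw [rf_sub_same, rf_rf, add_sub_cancel_right]
  · simp only [h, if_false]
    rw [rf_rf]

/-- the reflection of links as an equivalence -/
def rle (k : Fin d) : Lk d ≃ Lk d where
  toFun := rl k
  invFun := rl k
  left_inv := rl_rl k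
  right_inv := rl_rl k

/-- the reflected configuration -/
def th (k : Fin d) (U : Lk d → G) : Lk d → G :=
  fun l => if l.2 = k then (U (rl k l))⁻¹ else U (rl k l)

lemma rl_snd (k : Fin d) (l : Lk d) : (rl k l).2 = l.2 := by
  unfold rl
  split_ifs <;> rfl

lemma th_th (k : Fin d) (U : Lk d → G) : th k (th k U) = U := by
  funext l
  unfold th
  by_cases h : l.2 = k
  · simp only [h, if_true, rl_snd, rl_rl, inv_inv]
  · simp only [h, if_false, rl_snd, rl_rl]

/-- the reflected plaquette -/
def rp (k : Fin d) (p : Pq d) : Pq d :=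
  if p.2.1 = k ∨ p.2.2 = k then (rf k p.1 - ev k, p.2) else (rf k p.1, p.2)

lemma rp_snd (k : Fin d) (p : Pq d) : (rp k p).2 = p.2 := by
  unfold rp
  split_ifs <;> rfl

lemma rp_rp (k : Fin d) (p : Pq d) : rp k (rp k p) = p := by
  obtain ⟨x, i, j⟩ := p
  unfold rp
  by_cases h : i = k ∨ j = k
  · simp only [h, if_true]
    rw [rf_sub_same, rf_rf, add_sub_cancel_right]
  · simp only [h, if_false]
    rw [rf_rf]

/-- the reflection of plaquettes as an equivalence -/
def rpe (k : Fin d) : Pq d ≃ Pq d where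
  toFun := rp k
  invFun := rp k
  left_inv := rp_rp k
  right_inv := rp_rp k

/-- The potentials are symmetric and do not depend on the coordinate `k`. -/
structure Sym (k : Fin d) (φ : Pq d → G → ℝ) : Prop where
  time : ∀ (x y : V d) (i j : Fin d), (∀ l, l ≠ k → x l = y l) → φ (x, i, j) = φ (y, i, j)
  inv : ∀ p g, φ p g⁻¹ = φ p g
  conj : ∀ p g h, φ p (h * g * h⁻¹) = φ p g

lemma rp_fst_ne {k l : Fin d} (hl : l ≠ k) (p : Pq d) : (rp k p).1 l = p.1 l := by
  unfold rp
  split_ifs
  · simp only [Pi.sub_apply]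
    rw [rf_ne hl, ev_ne hl, sub_zero]
  · simp only
    rw [rf_ne hl]

lemma Sym.rp {k : Fin d} {φ : Pq d → G → ℝ} (h : Sym k φ) (p : Pq d) : φ (rp k p) = φ p := by
  have e : YM.rp k p = ((YM.rp k p).1, p.2.1, p.2.2) := by
    rw [← rp_snd k p]
  rw [e]
  exact h.time _ _ _ _ fun l hl => rp_fst_ne hl p

/-- The potential energy of a plaquette of the reflected configuration. -/
lemma pot_th {k : Fin d} {φ : Pq d → G → ℝ} (h : Sym k φ) (U : Lk d → G) {p : Pq d}
    (hp : p.2.1 < p.2.2) : φ p (plq (th k U) p) = φ (rp k p) (plq U (rp k p)) := by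
  rw [h.rp]
  obtain ⟨x, i, j⟩ := p
  simp only at hp
  have hne : i ≠ j := hp.ne
  by_cases hi : i = k
  · subst hi
    have hj : j ≠ i := hne.symm
    have e1 : rp i (x, i, j) = (rf i x - ev i, i, j) := by simp [rp]
    have e2 : th i U (x, i) = (U (rf i x - ev i, i))⁻¹ := by simp [th, rl]
    have e3 : th i U (x + ev i, j) = U (rf i x - ev i, j) := by
      simp only [th, rl, hj, if_false]
      rw [rf_add_same]
    have e4 : th i U (x + ev j, i) = (U (rf i x - ev i + ev j, i))⁻¹ := by
      simp only [th, rl, if_true]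
      rw [rf_add_ne hj]
      congr 3
      abel
    have e5 : th i U (x, j) = U (rf i x - ev i + ev i, j) := by
      simp only [th, rl, hj, if_false, sub_add_cancel]
    rw [e1]
    set y := rf i x - ev i with hy
    have e6 : plq (th i U) (x, i, j) =
        (U (y, i))⁻¹ * (plq U (y, i, j))⁻¹ * ((U (y, i))⁻¹)⁻¹ := by
      unfold plq
      simp only [e2, e3, e4, e5]
      group
    rw [e6, h.conj, h.inv]
  · by_cases hj : j = k
    · subst hj
      have e1 : rp j (x, i, j) = (rf j x - ev j, i, j) := by simp [rp]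
      have e2 : th j U (x, i) = U (rf j x - ev j + ev j, i) := by
        simp only [th, rl, hi, if_false, sub_add_cancel]
      have e3 : th j U (x + ev i, j) = (U (rf j x - ev j + ev i, j))⁻¹ := by
        simp only [th, rl, if_true]
        rw [rf_add_ne hi]
        congr 3
        abel
      have e4 : th j U (x + ev j, i) = U (rf j x - ev j, i) := by
        simp only [th, rl, hi, if_false]
        rw [rf_add_same]
      have e5 : th j U (x, j) = (U (rf j x - ev j, j))⁻¹ := by simp [th, rl]
      rw [e1]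
      set y := rf j x - ev j with hy
      have e6 : plq (th j U) (x, i, j) =
          (U (y, j))⁻¹ * (plq U (y, i, j))⁻¹ * ((U (y, j))⁻¹)⁻¹ := by
        unfold plq
        simp only [e2, e3, e4, e5]
        group
      rw [e6, h.conj, h.inv]
    · have e1 : rp k (x, i, j) = (rf k x, i, j) := by simp [rp, hi, hj]
      have e2 : th k U (x, i) = U (rf k x, i) := by simp [th, rl, hi]
      have e3 : th k U (x + ev i, j) = U (rf k x + ev i, j) := by
        simp only [th, rl, hj, if_false]
        rw [rf_add_ne hi]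
      have e4 : th k U (x + ev j, i) = U (rf k x + ev j, i) := by
        simp only [th, rl, hi, if_false]
        rw [rf_add_ne hj]
      have e5 : th k U (x, j) = U (rf k x, j) := by simp [th, rl, hj]
      rw [e1]
      unfold plq
      simp only [e2, e3, e4, e5]

end Pool.Agent.U868.YM
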