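import Pool.Agent.U868.YM.RP

/-!
# Invariance and reflection positivity of the finite volume expectations
-/

set_option autoImplicit false
set_option linter.unusedSectionVars false

noncomputable section

open MeasureTheory Filter Topology

namespace Pool.Agent.U868.YM

variable {d : ℕ} {G : Type*} [Group G] [MeasurableSpace G]
variable [MeasurableMul₂ G] [MeasurableInv G] (μ : Measure G) [IsProbabilityMeasure μ]
  [μ.IsMulLeftInvariant] [μ.IsMulRightInvariant] [μ.IsInvInvariant]

lemma meas_shv (v : V d) : Measurable (shv v : (Lk d → G) → (Lk d → G)) :=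
  measurable_pi_iff.2 fun _ => measurable_pi_apply _

/-- translation of links -/
def tle (v : V d) : Lk d ≃ Lk d where
  toFun l := (l.1 + v, l.2)
  invFun l := (l.1 - v, l.2)
  left_inv l := by simp
  right_inv l := by simp

lemma map_shv (v : V d) : Measure.map (shv v) (PM (Lk d) μ) = PM (Lk d) μ :=
  map_reindex μ (tle v)

lemma shv_shv (v v' : V d) (U : Lk d → G) : shv v (shv v' U) = shv (v + v') U := by
  funext l
  unfold shv
  simp only
  rw [add_assoc]

lemma shv_zero (U : Lk d → G) : shv 0 U = U := by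
  funext l
  unfold shv
  rw [add_zero]

lemma meas_th (k : Fin d) : Measurable (th k : (Lk d → G) → (Lk d → G)) := by
  refine measurable_pi_iff.2 fun l => ?_
  unfold th
  by_cases h : l.2 = k
  · simp only [h, if_true]
    exact (measurable_pi_apply _).inv
  · simp only [h, if_false]
    exact measurable_pi_apply _

lemma map_th (k : Fin d) : Measure.map (th k) (PM (Lk d) μ) = PM (Lk d) μ := by
  have h1 : (th k : (Lk d → G) → (Lk d → G)) =
      (fun U l => (if l.2 = k then (fun g : G => g⁻¹) else fun g => g) (U l)) ∘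
        (fun U : Lk d → G => fun l => U (rle k l)) := by
    funext U l
    unfold th
    simp only [Function.comp_apply]
    by_cases h : l.2 = k
    · simp only [h, if_true]
      rfl
    · simp only [h, if_false]
      rfl
  have hf : ∀ l : Lk d, Measurable (if l.2 = k then (fun g : G => g⁻¹) else fun g => g) := by
    intro l
    split_ifs
    · exact measurable_inv
    · exact measurable_id
  have h2 : Measurable (fun (U : Lk d → G) (l : Lk d) =>
      (if l.2 = k then (fun g : G => g⁻¹) else fun g => g) (U l)) :=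
    measurable_pi_iff.2 fun l => (hf l).comp (measurable_pi_apply l)
  have h3 : Measurable (fun U : Lk d → G => fun l => U (rle k l)) :=
    measurable_pi_iff.2 fun l => measurable_pi_apply _
  rw [h1, ← Measure.map_map h2 h3, map_reindex μ (rle k), Measure.infinitePi_map_pi _ hf]
  congr 1
  funext l
  split_ifs
  · exact Measure.map_inv_eq_self μ
  · exact Measure.map_id

/-- the contribution of a plaquette to the energy -/
def ep (φ : Pq d → G → ℝ) (p : Pq d) (U : Lk d → G) : ℝ :=
  if p.2.1 < p.2.2 then φ p (plq U p) else 0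

lemma en_eq (φ : Pq d → G → ℝ) (Λ : Finset (Pq d)) (U : Lk d → G) :
    en φ Λ U = ∑ p ∈ Λ, ep φ p U := rfl

lemma ep_th {k : Fin d} {φ : Pq d → G → ℝ} (h : Sym k φ) (U : Lk d → G) (p : Pq d) :
    ep φ p (th k U) = ep φ (rp k p) U := by
  unfold ep
  rw [rp_snd]
  split_ifs with hlt
  · exact pot_th h U hlt
  · rfl

lemma en_th {k : Fin d} {φ : Pq d → G → ℝ} (h : Sym k φ) (Λ : Finset (Pq d)) (U : Lk d → G) :
    en φ Λ (th k U) = en φ (Λ.map (rpe k).toEmbedding) U := by
  rw [en_eq, en_eq, Finset.sum_map]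
  exact Finset.sum_congr rfl fun p _ => ep_th h U p

lemma zz_th {k : Fin d} {φ : Pq d → G → ℝ} (hφ : ∀ p, BM (φ p)) (h : Sym k φ)
    (Λ : Finset (Pq d)) {F : (Lk d → G) → ℝ} (hF : BM F) :
    zz μ φ Λ (fun U => F (th k U)) = zz μ φ (Λ.map (rpe k).toEmbedding) F := by
  unfold zz
  have hm : BM (fun U => F U * Real.exp (en φ (Λ.map (rpe k).toEmbedding) U)) :=
    hF.mul (BM.en hφ _).exp
  conv_rhs => rw [← map_th μ k]
  rw [integral_map (meas_th k).aemeasurable hm.meas.aestronglyMeasurable]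
  refine integral_congr_ae (Filter.Eventually.of_forall fun U => ?_)
  simp only
  rw [← en_th h, th_th]

lemma ex_th {k : Fin d} {φ : Pq d → G → ℝ} (hφ : ∀ p, BM (φ p)) (h : Sym k φ)
    (Λ : Finset (Pq d)) {F : (Lk d → G) → ℝ} (hF : BM F) :
    ex μ φ Λ (fun U => F (th k U)) = ex μ φ (Λ.map (rpe k).toEmbedding) F := by
  unfold ex
  rw [zz_th μ hφ h Λ hF, ← zz_th μ hφ h Λ (BM.const 1)]

/-- translation of plaquettes -/
def tpe (v : V d) : Pq d ≃ Pq d where
  toFun p := (p.1 + v, p.2)
  invFun p := (p.1 - v, p.2)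
  left_inv p := by simp
  right_inv p := by simp

lemma plq_shv (v : V d) (U : Lk d → G) (p : Pq d) : plq (shv v U) p = plq U (tpe v p) := by
  unfold plq shv tpe
  simp only [Equiv.coe_fn_mk]
  rw [add_right_comm p.1 (ev p.2.1) v, add_right_comm p.1 (ev p.2.2) v]

/-- invariance of the potentials under the translation by `v` -/
def TInv (v : V d) (φ : Pq d → G → ℝ) : Prop := ∀ p, φ (tpe v p) = φ p

lemma en_shv {v : V d} {φ : Pq d → G → ℝ} (h : TInv v φ) (Λ : Finset (Pq d)) (U : Lk d → G) :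
    en φ Λ (shv v U) = en φ (Λ.map (tpe v).toEmbedding) U := by
  rw [en_eq, en_eq, Finset.sum_map]
  refine Finset.sum_congr rfl fun p _ => ?_
  unfold ep
  rw [plq_shv, ← h p]
  rfl

lemma zz_shv {v : V d} {φ : Pq d → G → ℝ} (hφ : ∀ p, BM (φ p)) (h : TInv v φ)
    (Λ : Finset (Pq d)) {F : (Lk d → G) → ℝ} (hF : BM F) :
    zz μ φ (Λ.map (tpe v).toEmbedding) (fun U => F (shv v U)) = zz μ φ Λ F := by
  unfold zz
  have hm : BM (fun U => F U * Real.exp (en φ Λ U)) := hF.mul (BM.en hφ _).exp
  conv_rhs => rw [← map_shv μ v]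
  rw [integral_map (meas_shv v).aemeasurable hm.meas.aestronglyMeasurable]
  refine integral_congr_ae (Filter.Eventually.of_forall fun U => ?_)
  simp only
  rw [en_shv h]

lemma ex_shv {v : V d} {φ : Pq d → G → ℝ} (hφ : ∀ p, BM (φ p)) (h : TInv v φ)
    (Λ : Finset (Pq d)) {F : (Lk d → G) → ℝ} (hF : BM F) :
    ex μ φ (Λ.map (tpe v).toEmbedding) (fun U => F (shv v U)) = ex μ φ Λ F := by
  unfold ex
  rw [zz_shv μ hφ h Λ hF, ← zz_shv μ hφ h Λ (BM.const 1)]

/-! ### reflection positivity -/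

/-- the links in the half space of nonnegative coordinate `k` -/
def hs (k : Fin d) : Set (Lk d) := {l | 0 ≤ l.1 k}

/-- the links in the hyperplane of coordinate `0` -/
def h0 (k : Fin d) : Set (Lk d) := {l | l.1 k = 0 ∧ l.2 ≠ k}

lemma th_fix {k : Fin d} (U : Lk d → G) {l : Lk d} (hl : l ∈ h0 k) : th k U l = U l := by
  obtain ⟨x, i⟩ := l
  obtain ⟨h1, h2⟩ := hl
  simp only at h1 h2
  unfold th rl
  simp only [h2, if_false]
  congr 2
  funext j
  by_cases hj : j = k
  · rw [hj, rf_same, h1, neg_zero]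
  · rw [rf_ne hj]

lemma rl_notMem {k : Fin d} {l : Lk d} (hl : l ∈ hs k) (hl0 : l ∉ h0 k) : rl k l ∉ hs k := by
  obtain ⟨x, i⟩ := l
  unfold hs h0 at *
  simp only [Set.mem_ofPred_eq, not_and, not_not] at *
  unfold rl
  by_cases h : i = k
  · simp only [h, if_true, Pi.sub_apply, rf_same, ev_same]
    omega
  · simp only [h, if_false, rf_same]
    intro h'
    have : x k = 0 := by omega
    exact h (hl0 this)

lemma th_refl {k : Fin d} (U V : Lk d → G) {l : Lk d} (hl : l ∈ hs k) (hl0 : l ∉ h0 k) :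
    th k (mrg (hs k) U (th k V)) l = V l := by
  have h1 := rl_notMem hl hl0
  have h2 : ∀ W : Lk d → G, th k (mrg (hs k) U W) l = th k W l := by
    intro W
    unfold th
    rw [mrg_notMem h1]
  rw [h2, th_th]

/-- the plaquettes inside the hyperplane -/
def inH (k : Fin d) (p : Pq d) : Prop := p.1 k = 0 ∧ p.2.1 ≠ k ∧ p.2.2 ≠ k

/-- the plaquettes of the positive half space which are not in the hyperplane -/
def inP (k : Fin d) (p : Pq d) : Prop := 0 ≤ p.1 k ∧ ¬ inH k p

lemma inH_rp {k : Fin d} {p : Pq d} : inH k (rp k p) ↔ inH k p := by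
  obtain ⟨x, i, j⟩ := p
  unfold inH rp
  by_cases h : i = k ∨ j = k
  · simp only [h, if_true]
    tauto
  · simp only [h, if_false, rf_same]
    constructor
    · rintro ⟨h1, h2⟩
      exact ⟨by omega, h2⟩
    · rintro ⟨h1, h2⟩
      exact ⟨by omega, h2⟩

lemma inP_rp {k : Fin d} {p : Pq d} (h0 : ¬ inH k p) : inP k (rp k p) ↔ ¬ inP k p := by
  have h0' : ¬ inH k (rp k p) := fun h => h0 (inH_rp.1 h)
  unfold inP
  simp only [h0, h0', not_false_eq_true, and_true]
  obtain ⟨x, i, j⟩ := p
  unfold rp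
  by_cases h : i = k ∨ j = k
  · simp only [h, if_true, Pi.sub_apply, rf_same, ev_same]
    omega
  · simp only [h, if_false, rf_same]
    unfold inH at h0
    simp only [not_and, not_not] at h0
    push Not at h
    have : x k ≠ 0 := fun hx => h.2 (h0 hx h.1)
    omega

lemma lks_hs {k : Fin d} {p : Pq d} (hp : 0 ≤ p.1 k) {l : Lk d} (hl : l ∈ lks p) : l ∈ hs k := by
  have hev : ∀ i : Fin d, 0 ≤ (ev i : V d) k := by
    intro i
    by_cases h : k = i
    · rw [h, ev_same]; norm_num
    · rw [ev_ne h]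
  unfold hs
  rw [Set.mem_ofPred_eq]
  rcases mem_lks.1 hl with h | h | h | h
  · rw [h]; exact hp
  · rw [h]; exact add_nonneg hp (hev _)
  · rw [h]; exact add_nonneg hp (hev _)
  · rw [h]; exact hp

lemma lks_h0 {k : Fin d} {p : Pq d} (hp : inH k p) {l : Lk d} (hl : l ∈ lks p) : l ∈ h0 k := by
  obtain ⟨hp0, hp1, hp2⟩ := hp
  unfold h0
  rw [Set.mem_ofPred_eq]
  rcases mem_lks.1 hl with h | h | h | h
  · rw [h]; exact ⟨hp0, hp1⟩
  · rw [h]
    refine ⟨?_, hp2⟩
    simp only [Pi.add_apply]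
    rw [ev_ne hp1.symm, hp0, add_zero]
  · rw [h]
    refine ⟨?_, hp1⟩
    simp only [Pi.add_apply]
    rw [ev_ne hp2.symm, hp0, add_zero]
  · rw [h]; exact ⟨hp0, hp2⟩

open Classical in
lemma en_split {k : Fin d} {φ : Pq d → G → ℝ} (h : Sym k φ) {Λ : Finset (Pq d)}
    (hΛ : Λ.map (rpe k).toEmbedding = Λ) (U : Lk d → G) :
    en φ Λ U = ∑ p ∈ Λ.filter (inP k), ep φ p U + ∑ p ∈ Λ.filter (inP k), ep φ p (th k U) +
      ∑ p ∈ Λ.filter (inH k), ep φ p U := by
  have hmem : ∀ p, p ∈ Λ → rp k p ∈ Λ := by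
    intro p hp
    rw [← hΛ, Finset.mem_map]
    exact ⟨p, hp, rfl⟩
  have e1 : ∑ p ∈ Λ.filter (inP k), ep φ p (th k U) =
      ∑ p ∈ Λ.filter (fun p => ¬ inP k p ∧ ¬ inH k p), ep φ p U := by
    refine Finset.sum_bij' (fun p _ => rp k p) (fun p _ => rp k p) ?_ ?_ ?_ ?_ ?_
    · intro p hp
      rw [Finset.mem_filter] at hp ⊢
      have hH : ¬ inH k p := hp.2.2
      exact ⟨hmem p hp.1, fun h' => (inP_rp hH).1 h' hp.2, fun h' => hH (inH_rp.1 h')⟩
    · intro p hp
      rw [Finset.mem_filter] at hp ⊢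
      exact ⟨hmem p hp.1, (inP_rp hp.2.2).2 hp.2.1⟩
    · intro p _
      exact rp_rp k p
    · intro p _
      exact rp_rp k p
    · intro p _
      exact ep_th h U p
  rw [e1, en_eq]
  have e2 : ∑ p ∈ Λ, ep φ p U = ∑ p ∈ Λ, ((if inP k p then ep φ p U else 0) +
      (if ¬ inP k p ∧ ¬ inH k p then ep φ p U else 0) + if inH k p then ep φ p U else 0) := by
    refine Finset.sum_congr rfl fun p _ => ?_
    by_cases hP : inP k p
    · have hH : ¬ inH k p := hP.2
      simp [hP, hH]
    · by_cases hH : inH k p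
      · simp [hP, hH]
      · simp [hP, hH]
  rw [e2, Finset.sum_add_distrib, Finset.sum_add_distrib, ← Finset.sum_filter,
    ← Finset.sum_filter, ← Finset.sum_filter]

/-- **Reflection positivity in finite volume.** -/
lemma rp_fin {k : Fin d} {φ : Pq d → G → ℝ} (hφ : ∀ p, BM (φ p)) (h : Sym k φ)
    {Λ : Finset (Pq d)} (hΛ : Λ.map (rpe k).toEmbedding = Λ) {F : (Lk d → G) → ℝ} (hF : BM F)
    (hFd : ∀ U U', (∀ l ∈ hs k, U l = U' l) → F U = F U') :
    0 ≤ ex μ φ Λ fun U => F U * F (th k U) := by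
  classical
  have hep : ∀ p, BM (ep (G := G) φ p) := by
    intro p
    unfold ep
    split_ifs
    · exact (hφ p).comp (meas_plq p)
    · exact BM.const 0
  set A : (Lk d → G) → ℝ := fun U => F U * Real.exp (∑ p ∈ Λ.filter (inP k), ep φ p U) with hA
  set w : (Lk d → G) → ℝ := fun U => Real.exp (∑ p ∈ Λ.filter (inH k), ep φ p U) with hw
  have hAm : BM A := hF.mul (BM.sum _ fun p _ => hep p).exp
  have hwm : BM w := (BM.sum _ fun p _ => hep p).exp
  have key := rp_abs μ (hs k) (h0 k)
    (by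
      intro l hl
      exact le_of_eq hl.1.symm)
    (th k) (meas_th k) (map_th μ k) (fun U l hl => th_fix U hl)
    (fun U V l hl hl0 => th_refl U V hl hl0) hAm hwm (fun U => (Real.exp_pos _).le)
    (by
      intro U U' hU
      simp only [hA]
      rw [hFd U U' hU]
      congr 2
      refine Finset.sum_congr rfl fun p hp => ?_
      unfold ep
      rw [plq_congr (U := U) (U' := U') fun l hl => hU l
        (lks_hs (Finset.mem_filter.1 hp).2.1 hl)])
    (by
      intro U U' hU
      simp only [hw]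
      congr 1
      refine Finset.sum_congr rfl fun p hp => ?_
      unfold ep
      rw [plq_congr (U := U) (U' := U') fun l hl => hU l
        (lks_h0 (Finset.mem_filter.1 hp).2 hl)])
  unfold ex
  refine div_nonneg ?_ (zz_one_pos μ hφ Λ).le
  refine le_trans key (le_of_eq ?_)
  unfold zz
  refine integral_congr_ae (Filter.Eventually.of_forall fun U => ?_)
  simp only [hA, hw]
  rw [en_split h hΛ U, Real.exp_add, Real.exp_add]
  ring

end Pool.Agent.U868.YM
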