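import Pool.Agent.U868.YM.Geo

/-!
# The topological lemma: a plaquette of the core of a two dimensional slice is surrounded by a
single cluster
-/

set_option autoImplicit false

noncomputable section

namespace Pool.Agent.U868.YM

/-- A finite set of squares of the plane, with indicator `f`, whose boundary is covered by
clusters: the base point of each boundary link is marked by a cluster, neighbouring points are not
marked by different clusters. Then a square of the set has in its row points of a single cluster on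
both sides. -/
lemma slice {C : Type*} (𝒦 : Finset C) (D : C → ℤ → ℤ → Prop) (f : ℤ → ℤ → ℤ) (M : ℤ)
    (hM : 0 ≤ M) (hf : ∀ s t, f s t ≠ 0 → |s| ≤ M ∧ |t| ≤ M)
    (H1 : ∀ s t, f s t ≠ f (s - 1) t → ∃ K ∈ 𝒦, D K s t)
    (H1' : ∀ s t, f s t ≠ f s (t - 1) → ∃ K ∈ 𝒦, D K s t)
    (H2 : ∀ K ∈ 𝒦, ∀ K' ∈ 𝒦, ∀ s t s' t', D K s t → D K' s' t' → |s - s'| ≤ 1 → |t - t'| ≤ 1 →
      K = K')
    (h0 : f 0 0 ≠ 0) :
    ∃ K ∈ 𝒦, ∃ s₁ s₂ : ℤ, s₁ ≤ 0 ∧ 0 < s₂ ∧ D K s₁ 0 ∧ D K s₂ 0 := by
  classical
  set v : C → ℤ → ℤ → ℤ := fun K s t => if D K s t then f s t - f (s - 1) t else 0 with hv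
  set h : C → ℤ → ℤ → ℤ := fun K s t => if D K s t then f s t - f s (t - 1) else 0 with hh
  have f0 : ∀ s t, (M < |s| ∨ M < |t|) → f s t = 0 := by
    intro s t hst
    by_contra hne
    have := hf s t hne
    omega
  have vert : ∀ K ∈ 𝒦, ∀ s t, v K s t - v K s (t - 1) = h K s t - h K (s - 1) t := by
    intro K hK s t
    simp only [hv, hh]
    by_cases hD : D K s t ∨ D K s (t - 1) ∨ D K (s - 1) t
    · -- all the differences are marked by `K`
      have key : ∀ K' ∈ 𝒦, ∀ s' t', (s' = s ∨ s' = s - 1) → (t' = t ∨ t' = t - 1) →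
          D K' s' t' → K' = K := by
        intro K' hK' s' t' hs' ht' hD'
        rcases hD with hD | hD | hD
        · exact H2 _ hK' _ hK _ _ _ _ hD' hD (by rw [abs_le]; omega) (by rw [abs_le]; omega)
        · exact H2 _ hK' _ hK _ _ _ _ hD' hD (by rw [abs_le]; omega) (by rw [abs_le]; omega)
        · exact H2 _ hK' _ hK _ _ _ _ hD' hD (by rw [abs_le]; omega) (by rw [abs_le]; omega)
      have e1 : (if D K s t then f s t - f (s - 1) t else 0) = f s t - f (s - 1) t := by
        split_ifs with hc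
        · rfl
        · by_contra hne
          obtain ⟨K', hK', hD'⟩ := H1 s t (by omega)
          exact hc (key K' hK' s t (Or.inl rfl) (Or.inl rfl) hD' ▸ hD')
      have e2 : (if D K s (t - 1) then f s (t - 1) - f (s - 1) (t - 1) else 0) =
          f s (t - 1) - f (s - 1) (t - 1) := by
        split_ifs with hc
        · rfl
        · by_contra hne
          obtain ⟨K', hK', hD'⟩ := H1 s (t - 1) (by omega)
          exact hc (key K' hK' s (t - 1) (Or.inl rfl) (Or.inr rfl) hD' ▸ hD')
      have e3 : (if D K s t then f s t - f s (t - 1) else 0) = f s t - f s (t - 1) := by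
        split_ifs with hc
        · rfl
        · by_contra hne
          obtain ⟨K', hK', hD'⟩ := H1' s t (by omega)
          exact hc (key K' hK' s t (Or.inl rfl) (Or.inl rfl) hD' ▸ hD')
      have e4 : (if D K (s - 1) t then f (s - 1) t - f (s - 1) (t - 1) else 0) =
          f (s - 1) t - f (s - 1) (t - 1) := by
        split_ifs with hc
        · rfl
        · by_contra hne
          obtain ⟨K', hK', hD'⟩ := H1' (s - 1) t (by omega)
          exact hc (key K' hK' (s - 1) t (Or.inr rfl) (Or.inl rfl) hD' ▸ hD')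
      rw [e1, e2, e3, e4]
      ring
    · push Not at hD
      rw [if_neg hD.1, if_neg hD.2.1, if_neg hD.1, if_neg hD.2.2]
  -- the row sums
  set R : C → ℤ → ℤ := fun K t => ∑ s ∈ Finset.Ico (-M) (M + 2), v K s t with hR
  have tele : ∀ (g : ℤ → ℤ) (a : ℤ) (n : ℕ),
      ∑ s ∈ Finset.Ico a (a + n), (g s - g (s - 1)) = g (a + n - 1) - g (a - 1) := by
    intro g a n
    induction n with
    | zero => simp
    | succ n ih =>
      have e : Finset.Ico a (a + ((n + 1 : ℕ) : ℤ)) = insert (a + (n : ℤ)) (Finset.Ico a (a + n)) := by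
        ext x
        simp only [Finset.mem_Ico, Finset.mem_insert]
        omega
      rw [e, Finset.sum_insert (by simp), ih]
      have e2 : a + ((n + 1 : ℕ) : ℤ) - 1 = a + n := by
        push_cast
        ring
      rw [e2]
      ring
  have tele' : ∀ (g : ℤ → ℤ) (a b : ℤ), a ≤ b →
      ∑ s ∈ Finset.Ico a b, (g s - g (s - 1)) = g (b - 1) - g (a - 1) := by
    intro g a b hab
    have := tele g a (b - a).toNat
    have e : a + ((b - a).toNat : ℤ) = b := by omega
    rw [e] at this
    exact this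
  have Rstep : ∀ K ∈ 𝒦, ∀ t, R K t = R K (t - 1) := by
    intro K hK t
    have : R K t - R K (t - 1) = 0 := by
      simp only [hR]
      rw [← Finset.sum_sub_distrib]
      rw [Finset.sum_congr rfl fun s _ => vert K hK s t]
      rw [tele' (fun s => h K s t) _ _ (by omega)]
      have z1 : h K (M + 2 - 1) t = 0 := by
        simp only [hh]
        rw [f0 _ _ (Or.inl (by rw [abs_of_nonneg (by omega)]; omega)),
          f0 _ _ (Or.inl (by rw [abs_of_nonneg (by omega)]; omega))]
        simp
      have z2 : h K (-M - 1) t = 0 := by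
        simp only [hh]
        rw [f0 _ _ (Or.inl (by rw [abs_of_nonpos (by omega)]; omega)),
          f0 _ _ (Or.inl (by rw [abs_of_nonpos (by omega)]; omega))]
        simp
      rw [z1, z2]
      rfl
    omega
  have Rall : ∀ K ∈ 𝒦, ∀ n : ℕ, R K 0 = R K n := by
    intro K hK n
    induction n with
    | zero => simp
    | succ n ih =>
      rw [ih, Rstep K hK ((n + 1 : ℕ) : ℤ)]
      congr 1
      push_cast
      ring
  have R0 : ∀ K ∈ 𝒦, R K 0 = 0 := by
    intro K hK
    rw [Rall K hK (M + 1).toNat]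
    simp only [hR]
    refine Finset.sum_eq_zero fun s _ => ?_
    simp only [hv]
    have e : (((M + 1).toNat : ℕ) : ℤ) = M + 1 := by omega
    rw [e, f0 _ _ (Or.inr (by rw [abs_of_nonneg (by omega)]; omega)),
      f0 _ _ (Or.inr (by rw [abs_of_nonneg (by omega)]; omega))]
    simp
  -- the half row
  have half : ∑ s ∈ Finset.Ico (-M) 1, (f s 0 - f (s - 1) 0) = f 0 0 := by
    rw [tele' (fun s => f s 0) _ _ (by omega)]
    rw [f0 (-M - 1) 0 (Or.inl (by rw [abs_of_nonpos (by omega)]; omega))]
    simp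
  have split : ∀ s, f s 0 - f (s - 1) 0 = ∑ K ∈ 𝒦, v K s 0 := by
    intro s
    by_cases hne : f s 0 = f (s - 1) 0
    · rw [hne, sub_self]
      symm
      refine Finset.sum_eq_zero fun K _ => ?_
      simp only [hv]
      rw [hne]
      simp
    · obtain ⟨K, hK, hD⟩ := H1 s 0 hne
      rw [Finset.sum_eq_single K]
      · simp only [hv]
        rw [if_pos hD]
      · intro K' hK' hKK
        simp only [hv]
        rw [if_neg]
        intro hD'
        exact hKK (H2 _ hK' _ hK _ _ _ _ hD' hD (by simp) (by simp))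
      · intro hK'
        exact absurd hK hK'
  have hne : ∑ K ∈ 𝒦, ∑ s ∈ Finset.Ico (-M) 1, v K s 0 ≠ 0 := by
    rw [Finset.sum_comm, ← Finset.sum_congr rfl fun s _ => split s, half]
    exact h0
  obtain ⟨K, hK, hKne⟩ := Finset.exists_ne_zero_of_sum_ne_zero hne
  obtain ⟨s₁, hs₁, hv₁⟩ := Finset.exists_ne_zero_of_sum_ne_zero hKne
  have hsum : ∑ s ∈ Finset.Ico (-M) 1, v K s 0 + ∑ s ∈ Finset.Ico 1 (M + 2), v K s 0 = 0 := by
    have e : Finset.Ico (-M) (M + 2) = Finset.Ico (-M) 1 ∪ Finset.Ico 1 (M + 2) := by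
      ext x
      simp only [Finset.mem_Ico, Finset.mem_union]
      omega
    have hd : Disjoint (Finset.Ico (-M) 1) (Finset.Ico 1 (M + 2)) := by
      rw [Finset.disjoint_left]
      intro x hx hx'
      rw [Finset.mem_Ico] at hx hx'
      omega
    rw [← Finset.sum_union hd, ← e]
    exact R0 K hK
  have hKne' : ∑ s ∈ Finset.Ico 1 (M + 2), v K s 0 ≠ 0 := by
    intro h'
    rw [h', add_zero] at hsum
    exact hKne hsum
  obtain ⟨s₂, hs₂, hv₂⟩ := Finset.exists_ne_zero_of_sum_ne_zero hKne'
  rw [Finset.mem_Ico] at hs₁ hs₂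
  refine ⟨K, hK, s₁, s₂, by omega, by omega, ?_, ?_⟩
  · by_contra hD
    exact hv₁ (by simp only [hv]; rw [if_neg hD])
  · by_contra hD
    exact hv₂ (by simp only [hv]; rw [if_neg hD])

/-- links of the lattice: base point and direction -/
abbrev Lk (d : ℕ) := V d × Fin d

/-- plaquettes: base point and two directions -/
abbrev Pq (d : ℕ) := V d × Fin d × Fin d

variable {d : ℕ}

/-- unit vector -/
def ev (i : Fin d) : V d := Pi.single i 1

lemma ev_same (i : Fin d) : (ev i : V d) i = 1 := by simp [ev]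

lemma ev_ne {i k : Fin d} (h : k ≠ i) : (ev i : V d) k = 0 := by
  simp [ev, h]

lemma ev_abs (i k : Fin d) : |(ev i : V d) k| ≤ 1 := by
  by_cases h : k = i
  · rw [h, ev_same]; simp
  · rw [ev_ne h]; simp

lemma ev_ne_zero (i : Fin d) : (ev i : V d) ≠ 0 := by
  intro h
  have := congrFun h i
  rw [ev_same] at this
  simp at this

/-- the four links of a plaquette -/
def lks (p : Pq d) : Finset (Lk d) :=
  {(p.1, p.2.1), (p.1 + ev p.2.1, p.2.2), (p.1 + ev p.2.2, p.2.1), (p.1, p.2.2)}

lemma mem_lks {p : Pq d} {l : Lk d} : l ∈ lks p ↔ l = (p.1, p.2.1) ∨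
    l = (p.1 + ev p.2.1, p.2.2) ∨ l = (p.1 + ev p.2.2, p.2.1) ∨ l = (p.1, p.2.2) := by
  unfold lks
  simp only [Finset.mem_insert, Finset.mem_singleton]

lemma near_add_ev (x : V d) (i : Fin d) : near 1 x (x + ev i) := by
  intro k
  have := ev_abs i k
  rw [Pi.add_apply, sub_add_cancel_left, abs_neg]
  exact_mod_cast this

lemma near_lks {p : Pq d} {l : Lk d} (h : l ∈ lks p) : near 1 p.1 l.1 := by
  rcases mem_lks.1 h with h | h | h | h
  · rw [h]; exact near_refl _ _
  · rw [h]; exact near_add_ev _ _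
  · rw [h]; exact near_add_ev _ _
  · rw [h]; exact near_refl _ _

/-- the plaquette `p` is in one of the planes of the matching `σ` -/
def Strong (σ : Fin d → Fin d) (p : Pq d) : Prop := p.2.1 < p.2.2 ∧ p.2.2 = σ p.2.1

/-- the core property: a link of a plaquette of `P` which is far from `A` is in another plaquette
of `P` -/
def Core (A : Finset (V d)) (P : Finset (Pq d)) : Prop :=
  ∀ p ∈ P, ∀ l ∈ lks p, (∀ x ∈ A, ¬ near 1 x l.1) → ∃ p' ∈ P, p' ≠ p ∧ l ∈ lks p'

lemma strong_dir_snd {σ : Fin d → Fin d} (hσ : ∀ i, σ (σ i) = i) {i j : Fin d} (hij : i < j)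
    (hj : j = σ i) {p : Pq d} (hp : Strong σ p) {z : V d} (hl : (z, j) ∈ lks p) :
    p.2 = (i, j) ∧ (p.1 = z ∨ p.1 + ev i = z) := by
  obtain ⟨x, a, b⟩ := p
  obtain ⟨hab, hb⟩ := hp
  simp only at hab hb
  rw [mem_lks] at hl
  simp only [Prod.mk.injEq] at hl ⊢
  have hi : i = σ j := by rw [hj, hσ]
  rcases hl with ⟨h1, h2⟩ | ⟨h1, h2⟩ | ⟨h1, h2⟩ | ⟨h1, h2⟩
  · exfalso
    rw [← h2, ← hi] at hb
    rw [hb, ← h2] at hab
    exact absurd hij (not_lt.2 hab.le)
  · have ha : a = i := by rw [hi, h2, hb, hσ]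
    exact ⟨⟨ha, h2.symm⟩, Or.inr (by rw [← ha]; exact h1.symm)⟩
  · exfalso
    rw [← h2, ← hi] at hb
    rw [hb, ← h2] at hab
    exact absurd hij (not_lt.2 hab.le)
  · have ha : a = i := by rw [hi, h2, hb, hσ]
    exact ⟨⟨ha, h2.symm⟩, Or.inl h1.symm⟩

lemma strong_dir_fst {σ : Fin d → Fin d} (hσ : ∀ i, σ (σ i) = i) {i j : Fin d} (hij : i < j)
    (hj : j = σ i) {p : Pq d} (hp : Strong σ p) {z : V d} (hl : (z, i) ∈ lks p) :
    p.2 = (i, j) ∧ (p.1 = z ∨ p.1 + ev j = z) := by
  obtain ⟨x, a, b⟩ := p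
  obtain ⟨hab, hb⟩ := hp
  simp only at hab hb
  rw [mem_lks] at hl
  simp only [Prod.mk.injEq] at hl ⊢
  rcases hl with ⟨h1, h2⟩ | ⟨h1, h2⟩ | ⟨h1, h2⟩ | ⟨h1, h2⟩
  · have hbj : b = j := by rw [hb, ← h2, hj]
    exact ⟨⟨h2.symm, hbj⟩, Or.inl h1.symm⟩
  · exfalso
    have ha : a = j := by
      have : σ b = a := by rw [hb, hσ]
      rw [← this, ← h2, hj]
    rw [ha, ← h2] at hab
    exact absurd hij (not_lt.2 hab.le)
  · have hbj : b = j := by rw [hb, ← h2, hj]
    exact ⟨⟨h2.symm, hbj⟩, Or.inr (by rw [← hbj]; exact h1.symm)⟩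
  · exfalso
    have ha : a = j := by
      have : σ b = a := by rw [hb, hσ]
      rw [← this, ← h2, hj]
    rw [ha, ← h2] at hab
    exact absurd hij (not_lt.2 hab.le)

/-- **The topological lemma.** -/
lemma core_near {σ : Fin d → Fin d} (hσ : ∀ i, σ (σ i) = i) {A : Finset (V d)}
    {P : Finset (Pq d)} (hP : ∀ p ∈ P, Strong σ p) (hcore : Core A P) {p : Pq d} (hp : p ∈ P) :
    ∃ x ∈ A, near (8 * (cl A x).card) x p.1 := by
  classical
  obtain ⟨y, i, j⟩ := p
  obtain ⟨hij, hj⟩ := hP _ hp
  simp only at hij hj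
  have hji : j ≠ i := hij.ne'
  set z : ℤ → ℤ → V d := fun s t => y + s • ev i + t • ev j with hz
  have zi : ∀ s t, z s t i = y i + s := by
    intro s t
    simp only [hz, Pi.add_apply, Pi.smul_apply, ev_same, ev_ne hji.symm, smul_eq_mul, mul_one,
      mul_zero, add_zero]
  have zj : ∀ s t, z s t j = y j + t := by
    intro s t
    simp only [hz, Pi.add_apply, Pi.smul_apply, ev_same, ev_ne hji, smul_eq_mul, mul_one,
      mul_zero, add_zero]
  have zk : ∀ s t k, k ≠ i → k ≠ j → z s t k = y k := by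
    intro s t k hi' hj'
    simp only [hz, Pi.add_apply, Pi.smul_apply, ev_ne hi', ev_ne hj', smul_eq_mul,
      mul_zero, add_zero]
  have zinj : ∀ s t s' t', z s t = z s' t' → s = s' ∧ t = t' := by
    intro s t s' t' h
    have h1 := congrFun h i
    have h2 := congrFun h j
    rw [zi, zi] at h1
    rw [zj, zj] at h2
    omega
  have zsub1 : ∀ s t, z (s - 1) t + ev i = z s t := by
    intro s t
    simp only [hz]
    rw [sub_smul, one_smul]
    abel
  have zsub2 : ∀ s t, z s (t - 1) + ev j = z s t := by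
    intro s t
    simp only [hz]
    rw [sub_smul, one_smul]
    abel
  set f : ℤ → ℤ → ℤ := fun s t => if (z s t, i, j) ∈ P then 1 else 0 with hf
  -- finite support
  obtain ⟨M, hM0, hM⟩ : ∃ M : ℤ, 0 ≤ M ∧ ∀ s t, f s t ≠ 0 → |s| ≤ M ∧ |t| ≤ M := by
    refine ⟨∑ q ∈ P, (|q.1 i - y i| + |q.1 j - y j|), Finset.sum_nonneg fun q _ => by positivity,
      fun s t hst => ?_⟩
    have hmem : (z s t, i, j) ∈ P := by
      by_contra hn
      exact hst (by simp only [hf]; rw [if_neg hn])
    have hle := Finset.single_le_sum (f := fun q : Pq d => |q.1 i - y i| + |q.1 j - y j|)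
      (fun q _ => by positivity) hmem
    simp only [zi, zj, add_sub_cancel_left] at hle
    constructor
    · have := abs_nonneg t
      omega
    · have := abs_nonneg s
      omega
  have hf0 : f 0 0 ≠ 0 := by
    have : z 0 0 = y := by simp [hz]
    simp only [hf, this]
    rw [if_pos hp]
    exact one_ne_zero
  set D : Finset (V d) → ℤ → ℤ → Prop := fun K s t => ∃ x ∈ K, near 1 x (z s t) with hD
  -- boundary links
  have b1 : ∀ s t, f s t ≠ f (s - 1) t → ∃ x ∈ A, near 1 x (z s t) := by
    intro s t hst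
    by_contra hno
    push Not at hno
    have hlink1 : ((z s t, j) : Lk d) ∈ lks (z s t, i, j) := by
      rw [mem_lks]
      simp
    have hlink2 : ((z s t, j) : Lk d) ∈ lks (z (s - 1) t, i, j) := by
      rw [mem_lks]
      right; left
      rw [zsub1]
    by_cases h1 : (z s t, i, j) ∈ P
    · by_cases h2 : (z (s - 1) t, i, j) ∈ P
      · exact hst (by simp only [hf]; rw [if_pos h1, if_pos h2])
      · obtain ⟨p', hp', hne, hl⟩ := hcore _ h1 _ hlink1 hno
        obtain ⟨e1, e2⟩ := strong_dir_snd hσ hij hj (hP _ hp') hl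
        obtain ⟨x', q'⟩ := p'
        simp only at e1 e2
        subst e1
        rcases e2 with e2 | e2
        · exact hne (by rw [e2])
        · apply h2
          have : x' = z (s - 1) t := by
            have := zsub1 s t
            rw [← e2] at this
            exact (add_right_cancel this).symm
          rw [← this]
          exact hp'
    · by_cases h2 : (z (s - 1) t, i, j) ∈ P
      · obtain ⟨p', hp', hne, hl⟩ := hcore _ h2 _ hlink2 hno
        obtain ⟨e1, e2⟩ := strong_dir_snd hσ hij hj (hP _ hp') hl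
        obtain ⟨x', q'⟩ := p'
        simp only at e1 e2
        subst e1
        rcases e2 with e2 | e2
        · exact h1 (by rw [← e2]; exact hp')
        · apply hne
          have : x' = z (s - 1) t := by
            have := zsub1 s t
            rw [← e2] at this
            exact (add_right_cancel this).symm
          rw [this]
      · exact hst (by simp only [hf]; rw [if_neg h1, if_neg h2])
  have b2 : ∀ s t, f s t ≠ f s (t - 1) → ∃ x ∈ A, near 1 x (z s t) := by
    intro s t hst
    by_contra hno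
    push Not at hno
    have hlink1 : ((z s t, i) : Lk d) ∈ lks (z s t, i, j) := by
      rw [mem_lks]
      simp
    have hlink2 : ((z s t, i) : Lk d) ∈ lks (z s (t - 1), i, j) := by
      rw [mem_lks]
      right; right; left
      rw [zsub2]
    by_cases h1 : (z s t, i, j) ∈ P
    · by_cases h2 : (z s (t - 1), i, j) ∈ P
      · exact hst (by simp only [hf]; rw [if_pos h1, if_pos h2])
      · obtain ⟨p', hp', hne, hl⟩ := hcore _ h1 _ hlink1 hno
        obtain ⟨e1, e2⟩ := strong_dir_fst hσ hij hj (hP _ hp') hl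
        obtain ⟨x', q'⟩ := p'
        simp only at e1 e2
        subst e1
        rcases e2 with e2 | e2
        · exact hne (by rw [e2])
        · apply h2
          have : x' = z s (t - 1) := by
            have := zsub2 s t
            rw [← e2] at this
            exact (add_right_cancel this).symm
          rw [← this]
          exact hp'
    · by_cases h2 : (z s (t - 1), i, j) ∈ P
      · obtain ⟨p', hp', hne, hl⟩ := hcore _ h2 _ hlink2 hno
        obtain ⟨e1, e2⟩ := strong_dir_fst hσ hij hj (hP _ hp') hl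
        obtain ⟨x', q'⟩ := p'
        simp only at e1 e2
        subst e1
        rcases e2 with e2 | e2
        · exact h1 (by rw [← e2]; exact hp')
        · apply hne
          have : x' = z s (t - 1) := by
            have := zsub2 s t
            rw [← e2] at this
            exact (add_right_cancel this).symm
          rw [this]
      · exact hst (by simp only [hf]; rw [if_neg h1, if_neg h2])
  have zstep : ∀ s t s' t' : ℤ, |s - s'| ≤ 1 → |t - t'| ≤ 1 → near 1 (z s t) (z s' t') := by
    intro s t s' t' hs ht k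
    by_cases hki : k = i
    · rw [hki, zi, zi]
      have : y i + s - (y i + s') = s - s' := by ring
      rw [this]
      exact_mod_cast hs
    · by_cases hkj : k = j
      · rw [hkj, zj, zj]
        have : y j + t - (y j + t') = t - t' := by ring
        rw [this]
        exact_mod_cast ht
      · rw [zk _ _ _ hki hkj, zk _ _ _ hki hkj]
        simp
  obtain ⟨K, hK, s₁, s₂, hs₁, hs₂, ⟨x₁, hx₁, hn₁⟩, ⟨x₂, hx₂, hn₂⟩⟩ :=
    slice (A.image (cl A)) D f M hM0 hM
      (by
        intro s t hst
        obtain ⟨x, hx, hn⟩ := b1 s t hst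
        exact ⟨cl A x, Finset.mem_image_of_mem _ hx, x, self_mem_cl hx, hn⟩)
      (by
        intro s t hst
        obtain ⟨x, hx, hn⟩ := b2 s t hst
        exact ⟨cl A x, Finset.mem_image_of_mem _ hx, x, self_mem_cl hx, hn⟩)
      (by
        intro K hK K' hK' s t s' t' hDK hDK' hs ht
        obtain ⟨a, ha, rfl⟩ := Finset.mem_image.1 hK
        obtain ⟨a', ha', rfl⟩ := Finset.mem_image.1 hK'
        obtain ⟨x, hx, hn⟩ := hDK
        obtain ⟨x', hx', hn'⟩ := hDK'
        have h3 : near 3 x x' := by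
          have h1 := near_trans (near_trans hn (zstep s t s' t' hs ht)) (near_symm hn')
          exact near_mono h1 (by omega)
        rw [← cl_eq_of_mem hx, ← cl_eq_of_mem hx']
        exact (cl_eq_of_near (cl_sub _ _ hx) (cl_sub _ _ hx') h3).symm)
      hf0
  obtain ⟨a, ha, rfl⟩ := Finset.mem_image.1 hK
  have hxA : x₁ ∈ A := cl_sub _ _ hx₁
  have hcl : cl A x₁ = cl A a := cl_eq_of_mem hx₁
  refine ⟨x₁, hxA, ?_⟩
  have h12 : near (6 * (cl A x₁).card) x₁ x₂ := by
    refine con_near (con_cl hxA) ?_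
    rw [hcl]
    exact hx₂
  have hpos : 0 < (cl A x₁).card := cl_card_pos hxA
  -- the distance of `s₁` and `s₂`
  have hdist : s₂ - s₁ ≤ 6 * (cl A x₁).card + 2 := by
    have e1 := abs_le.1 (hn₁ i)
    have e2 := abs_le.1 (hn₂ i)
    have e3 := abs_le.1 (h12 i)
    rw [zi] at e1 e2
    push_cast at e1 e2 e3
    omega
  have hfin : near (1 + (6 * (cl A x₁).card + 1)) x₁ y := by
    refine near_trans hn₁ ?_
    intro k
    by_cases hki : k = i
    · rw [hki, zi, add_sub_cancel_left, abs_le]
      push_cast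
      omega
    · by_cases hkj : k = j
      · rw [hkj, zj, add_zero, sub_self, abs_zero]
        exact Int.natCast_nonneg _
      · rw [zk _ _ _ hki hkj, sub_self, abs_zero]
        exact Int.natCast_nonneg _
  exact near_mono hfin (by omega)

end Pool.Agent.U868.YM
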