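import Pool.Agent.U868.YM.Avg
import Pool.Agent.U868.YM.Chain

/-!
# The collapse of the strong plaquettes and the vanishing of the disconnected terms
-/

set_option autoImplicit false
set_option linter.unusedSectionVars false

noncomputable section

open MeasureTheory

namespace Pool.Agent.U868.YM

variable {d : ℕ} {G : Type*} [Group G] [MeasurableSpace G]

/-- the product of the link variables around a plaquette -/
def plq (U : Lk d → G) (p : Pq d) : G :=
  U (p.1, p.2.1) * U (p.1 + ev p.2.1, p.2.2) * (U (p.1 + ev p.2.2, p.2.1))⁻¹ * (U (p.1, p.2.2))⁻¹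

lemma plq_congr {U U' : Lk d → G} {p : Pq d} (h : ∀ l ∈ lks p, U l = U' l) :
    plq U p = plq U' p := by
  unfold plq
  rw [h _ (mem_lks.2 (Or.inl rfl)), h _ (mem_lks.2 (Or.inr (Or.inl rfl))),
    h _ (mem_lks.2 (Or.inr (Or.inr (Or.inl rfl)))), h _ (mem_lks.2 (Or.inr (Or.inr (Or.inr rfl))))]

lemma meas_plq [MeasurableMul₂ G] [MeasurableInv G] (p : Pq d) :
    Measurable (fun U : Lk d → G => plq U p) := by
  have h : ∀ l : Lk d, Measurable (fun U : Lk d → G => U l) := fun l => measurable_pi_apply l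
  unfold plq
  exact (((h _).mul (h _)).mul (h _).inv).mul (h _).inv

section avg

variable [MeasurableMul₂ G] [MeasurableInv G] (μ : Measure G) [IsProbabilityMeasure μ]
  [μ.IsMulLeftInvariant] [μ.IsMulRightInvariant] [μ.IsInvInvariant]

lemma int_two (ρ : G → ℝ) (a b : G) : ∫ v, ρ (a * v * b) ∂μ = ∫ v, ρ v ∂μ := by
  rw [integral_mul_left_eq_self (fun v => ρ (v * b)) a, integral_mul_right_eq_self ρ b]

lemma int_two_inv (ρ : G → ℝ) (a b : G) : ∫ v, ρ (a * v⁻¹ * b) ∂μ = ∫ v, ρ v ∂μ := by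
  rw [integral_inv_eq_self (fun v => ρ (a * v * b)) μ, int_two]

/-- Averaging a function of a plaquette variable over one of its links. -/
lemma plq_avg (ρ : G → ℝ) {p : Pq d} (hp : p.2.1 ≠ p.2.2) {l : Lk d} (hl : l ∈ lks p)
    (U : Lk d → G) : ∫ v, ρ (plq (Function.update U l v) p) ∂μ = ∫ v, ρ v ∂μ := by
  obtain ⟨x, i, j⟩ := p
  simp only at hp
  have hij : ((x + ev j, i) : Lk d) ≠ (x, i) := by
    intro h
    have := (Prod.mk.inj h).1
    exact ev_ne_zero j (by simpa using this)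
  have hji : ((x + ev i, j) : Lk d) ≠ (x, j) := by
    intro h
    have := (Prod.mk.inj h).1
    exact ev_ne_zero i (by simpa using this)
  have hne : ∀ a b : V d, ((a, i) : Lk d) ≠ (b, j) := by
    intro a b h
    exact hp (Prod.mk.inj h).2
  rcases mem_lks.1 hl with h | h | h | h
  · subst h
    simp only [plq, Function.update_self]
    simp only [Function.update_of_ne (hne _ _).symm, Function.update_of_ne hij]
    have := int_two μ ρ 1 (U (x + ev i, j) * (U (x + ev j, i))⁻¹ * (U (x, j))⁻¹)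
    simpa only [one_mul, mul_assoc] using this
  · subst h
    simp only [plq, Function.update_self]
    simp only [Function.update_of_ne (hne _ _), Function.update_of_ne hji.symm]
    have := int_two μ ρ (U (x, i)) ((U (x + ev j, i))⁻¹ * (U (x, j))⁻¹)
    simpa only [mul_assoc] using this
  · subst h
    simp only [plq, Function.update_self]
    simp only [Function.update_of_ne (hne _ _).symm, Function.update_of_ne hij.symm]
    have := int_two_inv μ ρ (U (x, i) * U (x + ev i, j)) ((U (x, j))⁻¹)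
    simpa only [mul_assoc] using this
  · subst h
    simp only [plq, Function.update_self]
    simp only [Function.update_of_ne (hne _ _), Function.update_of_ne hji]
    have := int_two_inv μ ρ (U (x, i) * U (x + ev i, j) * (U (x + ev j, i))⁻¹) 1
    simpa only [mul_assoc, mul_one] using this

end avg

/-- the product of the strong weights in both copies -/
def RR (ρ : Pq d → G → ℝ) (S : Finset (Pq d)) (ω : Bool × Lk d → G) : ℝ :=
  ∏ p ∈ S, (ρ p (plq (cfg true ω) p) * ρ p (plq (cfg false ω) p))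

lemma cfg_update_same (b : Bool) (ω : Bool × Lk d → G) (l : Lk d) (v : G) :
    cfg b (Function.update ω (b, l) v) = Function.update (cfg b ω) l v := by
  funext l'
  unfold cfg
  by_cases h : l' = l
  · subst h
    rw [Function.update_self, Function.update_self]
  · rw [Function.update_of_ne h, Function.update_of_ne]
    intro h'
    exact h (Prod.mk.inj h').2

lemma cfg_update_ne {b b' : Bool} (hb : b' ≠ b) (ω : Bool × Lk d → G) (l : Lk d) (v : G) :
    cfg b' (Function.update ω (b, l) v) = cfg b' ω := by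
  funext l'
  unfold cfg
  rw [Function.update_of_ne]
  intro h'
  exact hb (Prod.mk.inj h').1

lemma plq_update_of_notMem {l : Lk d} {p : Pq d} (hl : l ∉ lks p) (b b' : Bool)
    (ω : Bool × Lk d → G) (v : G) :
    plq (cfg b' (Function.update ω (b, l) v)) p = plq (cfg b' ω) p := by
  by_cases hb : b' = b
  · subst hb
    rw [cfg_update_same]
    refine plq_congr fun l' hl' => ?_
    rw [Function.update_of_ne]
    rintro rfl
    exact hl hl'
  · rw [cfg_update_ne hb]

section core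

variable [MeasurableMul₂ G] [MeasurableInv G] (μ : Measure G) [IsProbabilityMeasure μ]
  [μ.IsMulLeftInvariant] [μ.IsMulRightInvariant] [μ.IsInvInvariant]

omit [Group G] [MeasurableMul₂ G] [MeasurableInv G] in
/-- dependence on the links near `A` only -/
def DepNear (A : Finset (V d)) (Φ : (Bool × Lk d → G) → ℝ) : Prop :=
  ∀ (b : Bool) (l : Lk d), (∀ x ∈ A, ¬ near 1 x l.1) → ∀ ω v, Φ (Function.update ω (b, l) v) = Φ ω

lemma BM.plq {ρ : G → ℝ} (hρ : BM ρ) (b : Bool) (p : Pq d) :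
    BM (fun ω : Bool × Lk d → G => ρ (plq (cfg b ω) p)) :=
  hρ.comp ((meas_plq p).comp (meas_cfg b))

lemma BM.RR {ρ : Pq d → G → ℝ} (hρ : ∀ p, BM (ρ p)) (S : Finset (Pq d)) :
    BM (RR ρ S : (Bool × Lk d → G) → ℝ) :=
  BM.prod S fun p _ => ((hρ p).plq true p).mul ((hρ p).plq false p)

lemma collapse_step {ρ : Pq d → G → ℝ} (hρ : ∀ p, BM (ρ p)) {S : Finset (Pq d)} {p : Pq d}
    (hp : p ∈ S) (hne : p.2.1 ≠ p.2.2) {l : Lk d} (hl : l ∈ lks p)
    (hother : ∀ p' ∈ S, p' ≠ p → l ∉ lks p') {Φ : (Bool × Lk d → G) → ℝ} (hΦ : BM Φ)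
    (hdep : ∀ b ω v, Φ (Function.update ω (b, l) v) = Φ ω) :
    ∫ ω, Φ ω * RR ρ S ω ∂(PM (Bool × Lk d) μ) =
      (∫ v, ρ p v ∂μ) ^ 2 * ∫ ω, Φ ω * RR ρ (S.erase p) ω ∂(PM (Bool × Lk d) μ) := by
  have hR : ∀ b ω v, RR ρ (S.erase p) (Function.update ω (b, l) v) = RR ρ (S.erase p) ω := by
    intro b ω v
    unfold RR
    refine Finset.prod_congr rfl fun p' hp' => ?_
    rw [Finset.mem_erase] at hp'
    rw [plq_update_of_notMem (hother p' hp'.2 hp'.1), plq_update_of_notMem (hother p' hp'.2 hp'.1)]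
  have e1 : ∀ ω, Φ ω * RR ρ S ω = (Φ ω * RR ρ (S.erase p) ω * ρ p (plq (cfg false ω) p)) *
      ρ p (plq (cfg true ω) p) := by
    intro ω
    have : RR ρ S ω = (ρ p (plq (cfg true ω) p) * ρ p (plq (cfg false ω) p)) *
        RR ρ (S.erase p) ω := by
      exact (Finset.mul_prod_erase S
        (fun p => ρ p (plq (cfg true ω) p) * ρ p (plq (cfg false ω) p)) hp).symm
    rw [this]
    ring
  simp only [e1]
  rw [collapse_one μ (true, l) ((hΦ.mul (BM.RR hρ _)).mul ((hρ p).plq false p))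
    ((hρ p).plq true p) _ (∫ v, ρ p v ∂μ)]
  · rw [collapse_one μ (false, l) (hΦ.mul (BM.RR hρ _)) ((hρ p).plq false p) _ (∫ v, ρ p v ∂μ)]
    · ring
    · intro ω
      simp only [cfg_update_same]
      exact plq_avg μ (ρ p) hne hl _
    · intro ω v
      rw [hdep, hR]
  · intro ω
    simp only [cfg_update_same]
    exact plq_avg μ (ρ p) hne hl _
  · intro ω v
    rw [hdep, hR, cfg_update_ne (by simp)]

/-- **Collapse to the core.** -/
lemma collapse_core {ρ : Pq d → G → ℝ} (hρ : ∀ p, BM (ρ p)) (A : Finset (V d))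
    (S : Finset (Pq d)) (hS : ∀ p ∈ S, p.2.1 ≠ p.2.2) :
    ∃ P ⊆ S, Core A P ∧ ∃ c : ℝ, ∀ Φ : (Bool × Lk d → G) → ℝ, BM Φ → DepNear A Φ →
      ∫ ω, Φ ω * RR ρ S ω ∂(PM (Bool × Lk d) μ) =
        c * ∫ ω, Φ ω * RR ρ P ω ∂(PM (Bool × Lk d) μ) := by
  induction S using Finset.strongInduction with
  | H S ih =>
    by_cases hcore : Core A S
    · exact ⟨S, subset_rfl, hcore, 1, fun Φ _ _ => by rw [one_mul]⟩
    · unfold Core at hcore
      push Not at hcore
      obtain ⟨p, hp, l, hl, hfar, hno⟩ := hcore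
      obtain ⟨P, hPS, hP, c, hc⟩ := ih (S.erase p) (Finset.erase_ssubset hp)
        (fun p' hp' => hS p' (Finset.mem_of_mem_erase hp'))
      refine ⟨P, hPS.trans (Finset.erase_subset _ _), hP, (∫ v, ρ p v ∂μ) ^ 2 * c, ?_⟩
      intro Φ hΦ hdep
      rw [collapse_step μ hρ hp (hS p hp) hl hno hΦ (fun b ω v => hdep b l hfar ω v),
        hc Φ hΦ hdep]
      ring

end core

/-! ### the swap -/

open Classical in
/-- the exchange of the two copies on the links of `L` -/
def swp (L : Set (Lk d)) : (Bool × Lk d) ≃ (Bool × Lk d) where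
  toFun e := if e.2 ∈ L then (!e.1, e.2) else e
  invFun e := if e.2 ∈ L then (!e.1, e.2) else e
  left_inv e := by
    by_cases h : e.2 ∈ L
    · simp [h]
    · simp [h]
  right_inv e := by
    by_cases h : e.2 ∈ L
    · simp [h]
    · simp [h]

lemma cfg_swp_mem {L : Set (Lk d)} {l : Lk d} (hl : l ∈ L) (b : Bool) (ω : Bool × Lk d → G) :
    cfg b (fun e => ω (swp L e)) l = cfg (!b) ω l := by
  simp [cfg, swp, hl]

lemma cfg_swp_notMem {L : Set (Lk d)} {l : Lk d} (hl : l ∉ L) (b : Bool)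
    (ω : Bool × Lk d → G) :
    cfg b (fun e => ω (swp L e)) l = cfg b ω l := by
  simp [cfg, swp, hl]

lemma RR_swp (ρ : Pq d → G → ℝ) {P : Finset (Pq d)} {L : Set (Lk d)}
    (h : ∀ p ∈ P, (∀ l ∈ lks p, l ∈ L) ∨ (∀ l ∈ lks p, l ∉ L)) (ω : Bool × Lk d → G) :
    RR ρ P (fun e => ω (swp L e)) = RR ρ P ω := by
  unfold RR
  refine Finset.prod_congr rfl fun p hp => ?_
  rcases h p hp with h | h
  · have e : ∀ b, plq (cfg b (fun e => ω (swp L e))) p = plq (cfg (!b) ω) p := fun b =>
      plq_congr fun l hl => cfg_swp_mem (h l hl) b ω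
    rw [e, e, mul_comm]
    rfl
  · have e : ∀ b, plq (cfg b (fun e => ω (swp L e))) p = plq (cfg b ω) p := fun b =>
      plq_congr fun l hl => cfg_swp_notMem (h l hl) b ω
    rw [e, e]

/-- `F` depends only on the links based in `B` -/
def DepOn (B : Finset (V d)) (F : (Lk d → G) → ℝ) : Prop :=
  ∀ U U' : Lk d → G, (∀ l : Lk d, l.1 ∈ B → U l = U' l) → F U = F U'

/-- `W` depends only on the links based at distance at most one from `x` -/
def DepAt (x : V d) (W : (Lk d → G) → ℝ) : Prop :=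
  ∀ U U' : Lk d → G, (∀ l : Lk d, near 1 x l.1 → U l = U' l) → W U = W U'

/-- the function of the doubled configuration of a term of the expansion -/
def term (F F' : (Lk d → G) → ℝ) (W : V d → (Lk d → G) → ℝ) (Q : Finset (V d))
    (ω : Bool × Lk d → G) : ℝ :=
  (F (cfg true ω) - F (cfg false ω)) * (F' (cfg true ω) - F' (cfg false ω)) *
    ∏ x ∈ Q, (W x (cfg true ω) * W x (cfg false ω) - 1)

lemma BM.term {F F' : (Lk d → G) → ℝ} {W : V d → (Lk d → G) → ℝ} (hF : BM F) (hF' : BM F')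
    (hW : ∀ x, BM (W x)) (Q : Finset (V d)) : BM (term F F' W Q) :=
  (((hF.comp (meas_cfg true)).sub (hF.comp (meas_cfg false))).mul
    ((hF'.comp (meas_cfg true)).sub (hF'.comp (meas_cfg false)))).mul
    (BM.prod Q fun x _ => (((hW x).comp (meas_cfg true)).mul ((hW x).comp (meas_cfg false))).sub
      (BM.const 1))

lemma term_dep {F F' : (Lk d → G) → ℝ} {W : V d → (Lk d → G) → ℝ} {B B' : Finset (V d)}
    (hF : DepOn B F) (hF' : DepOn B' F') (hW : ∀ x, DepAt x (W x)) (Q : Finset (V d)) :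
    DepNear (Q ∪ B ∪ B') (term F F' W Q) := by
  intro b l hfar ω v
  have hcfg : ∀ b' l', l' ≠ l → cfg b' (Function.update ω (b, l) v) l' = cfg b' ω l' := by
    intro b' l' hl'
    unfold cfg
    rw [Function.update_of_ne]
    intro h
    exact hl' (Prod.mk.inj h).2
  have e1 : ∀ b', F (cfg b' (Function.update ω (b, l) v)) = F (cfg b' ω) := by
    intro b'
    refine hF _ _ fun l' hl' => hcfg b' l' ?_
    rintro rfl
    exact hfar l'.1 (by simp [hl']) (near_refl _ _)
  have e2 : ∀ b', F' (cfg b' (Function.update ω (b, l) v)) = F' (cfg b' ω) := by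
    intro b'
    refine hF' _ _ fun l' hl' => hcfg b' l' ?_
    rintro rfl
    exact hfar l'.1 (by simp [hl']) (near_refl _ _)
  have e3 : ∀ x ∈ Q, ∀ b', W x (cfg b' (Function.update ω (b, l) v)) = W x (cfg b' ω) := by
    intro x hx b'
    refine hW x _ _ fun l' hl' => hcfg b' l' ?_
    rintro rfl
    exact hfar x (by simp [hx]) hl'
  unfold term
  rw [e1, e1, e2, e2]
  congr 1
  refine Finset.prod_congr rfl fun x hx => ?_
  rw [e3 x hx, e3 x hx]

variable [MeasurableMul₂ G] [MeasurableInv G] (μ : Measure G) [IsProbabilityMeasure μ]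
  [μ.IsMulLeftInvariant] [μ.IsMulRightInvariant] [μ.IsInvInvariant]

/-- **The disconnected terms vanish.** -/
theorem vanish {σ : Fin d → Fin d} (hσ : ∀ i, σ (σ i) = i) {ρ : Pq d → G → ℝ}
    (hρ : ∀ p, BM (ρ p)) {S : Finset (Pq d)} (hS : ∀ p ∈ S, Strong σ p)
    {F F' : (Lk d → G) → ℝ} {W : V d → (Lk d → G) → ℝ} {B B' : Finset (V d)}
    (hFm : BM F) (hFm' : BM F') (hWm : ∀ x, BM (W x))
    (hF : DepOn B F) (hF' : DepOn B' F') (hW : ∀ x, DepAt x (W x)) (Q : Finset (V d))
    (hno : ∀ x ∈ B, ∀ y ∈ B', ¬ Relation.ReflTransGen (rel (Q ∪ B ∪ B')) x y) :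
    ∫ ω, term F F' W Q ω * RR ρ S ω ∂(PM (Bool × Lk d) μ) = 0 := by
  classical
  set A := Q ∪ B ∪ B' with hA
  set A₁ : Set (V d) := {x | x ∈ A ∧ ∃ y ∈ B, Relation.ReflTransGen (rel A) y x} with hA₁
  set V₁ : Set (V d) := {z | ∃ x ∈ A₁, near (9 * (cl A x).card) x z} with hV₁
  set L : Set (Lk d) := {l | l.1 ∈ V₁} with hL
  have hBA : ∀ x ∈ B, x ∈ A₁ := by
    intro x hx
    exact ⟨by simp [hA, hx], x, hx, Relation.ReflTransGen.refl⟩
  have hB'A : ∀ x ∈ B', x ∈ A ∧ x ∉ A₁ := by
    intro x hx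
    refine ⟨by simp [hA, hx], ?_⟩
    rintro ⟨-, y, hy, hr⟩
    exact hno y hy x hx hr
  have h1 : ∀ x ∈ A₁, ∀ z, near (9 * (cl A x).card) x z → z ∈ V₁ := fun x hx z hz => ⟨x, hx, hz⟩
  have h2 : ∀ x ∈ A, x ∉ A₁ → ∀ z, near (9 * (cl A x).card) x z → z ∉ V₁ := by
    rintro x hx hx1 z hz ⟨x', hx', hz'⟩
    have hn : near (9 * (cl A x').card + 9 * (cl A x).card) x' x := near_trans hz' (near_symm hz)
    obtain ⟨hx'A, y, hy, hr⟩ := hx'
    refine hx1 ⟨hx, y, hy, hr.tail ⟨hx'A, hx, ?_⟩⟩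
    rw [mul_add]
    exact hn
  have hn1 : ∀ x ∈ A, ∀ z, near 1 x z → near (9 * (cl A x).card) x z := by
    intro x hx z hz
    have := cl_card_pos hx
    exact near_mono hz (by omega)
  obtain ⟨P, hPS, hcore, c, hc⟩ := collapse_core μ hρ A S fun p hp => (hS p hp).1.ne
  rw [hc _ (BM.term hFm hFm' hWm Q) (term_dep hF hF' hW Q)]
  have hPside : ∀ p ∈ P, (∀ l ∈ lks p, l ∈ L) ∨ (∀ l ∈ lks p, l ∉ L) := by
    intro p hp
    obtain ⟨x, hx, hn⟩ := core_near hσ (fun q hq => hS q (hPS hq)) hcore hp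
    have hpos := cl_card_pos hx
    have hl : ∀ l ∈ lks p, near (9 * (cl A x).card) x l.1 := by
      intro l hl
      exact near_mono (near_trans hn (near_lks hl)) (by omega)
    by_cases hx1 : x ∈ A₁
    · left
      intro l hl'
      exact h1 x hx1 _ (hl l hl')
    · right
      intro l hl'
      exact h2 x hx hx1 _ (hl l hl')
  have hanti : ∀ ω, term F F' W Q (fun e => ω (swp L e)) = - term F F' W Q ω := by
    intro ω
    have e1 : ∀ b, F (cfg b (fun e => ω (swp L e))) = F (cfg (!b) ω) := by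
      intro b
      refine hF _ _ fun l hl => cfg_swp_mem ?_ b ω
      have hx := hBA _ hl
      exact h1 _ hx _ (near_refl _ _)
    have e2 : ∀ b, F' (cfg b (fun e => ω (swp L e))) = F' (cfg b ω) := by
      intro b
      refine hF' _ _ fun l hl => cfg_swp_notMem ?_ b ω
      have hx := hB'A _ hl
      exact h2 _ hx.1 hx.2 _ (near_refl _ _)
    have e3 : ∀ x ∈ Q, W x (cfg true (fun e => ω (swp L e))) *
        W x (cfg false (fun e => ω (swp L e))) = W x (cfg true ω) * W x (cfg false ω) := by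
      intro x hx
      have hxA : x ∈ A := by simp [hA, hx]
      by_cases hx1 : x ∈ A₁
      · have e : ∀ b, W x (cfg b (fun e => ω (swp L e))) = W x (cfg (!b) ω) := fun b =>
          hW x _ _ fun l hl => cfg_swp_mem (h1 x hx1 _ (hn1 x hxA _ hl)) b ω
        rw [e, e, mul_comm]
        rfl
      · have e : ∀ b, W x (cfg b (fun e => ω (swp L e))) = W x (cfg b ω) := fun b =>
          hW x _ _ fun l hl => cfg_swp_notMem (h2 x hxA hx1 _ (hn1 x hxA _ hl)) b ω
        rw [e, e]
    unfold term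
    rw [e1, e1, e2, e2]
    have e4 : ∏ x ∈ Q, (W x (cfg true (fun e => ω (swp L e))) *
        W x (cfg false (fun e => ω (swp L e))) - 1) =
        ∏ x ∈ Q, (W x (cfg true ω) * W x (cfg false ω) - 1) :=
      Finset.prod_congr rfl fun x hx => by rw [e3 x hx]
    rw [e4]
    simp only [Bool.not_true, Bool.not_false]
    ring
  have hI : ∫ ω, term F F' W Q ω * RR ρ P ω ∂(PM (Bool × Lk d) μ) =
      - ∫ ω, term F F' W Q ω * RR ρ P ω ∂(PM (Bool × Lk d) μ) := by
    conv_lhs => rw [← integral_reindex μ (swp L) ((BM.term hFm hFm' hWm Q).mul (BM.RR hρ P))]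
    rw [← integral_neg]
    refine integral_congr_ae (Filter.Eventually.of_forall fun ω => ?_)
    simp only
    rw [hanti, RR_swp ρ hPside]
    ring
  have hz : ∫ ω, term F F' W Q ω * RR ρ P ω ∂(PM (Bool × Lk d) μ) = 0 := by linarith
  rw [hz, mul_zero]

end Pool.Agent.U868.YM
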